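import Pool.Agent.Lib.MP_452a87_nt.SpecL

/-!
# The auxiliary polynomial for a specialization with a near zero
-/

set_option autoImplicit false

namespace Pool.Agent.SMQ

open MvPolynomial

namespace LAfAux

lemma mon_eq {ι : Type} [Fintype ι] (c : ι → ℕ) :
    (∏ W, (X W : MvPolynomial ι ℤ) ^ c W) = monomial (Finsupp.equivFunOnFinite.symm c) 1 := by
  classical
  rw [monomial_eq]
  simp only [map_one, one_mul]
  rw [Finsupp.prod_fintype _ _ (fun i => pow_zero _)]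
  rfl

lemma totalDegree_mon {m : ℕ} (c : Finset (Fin m) → ℕ) (B : ℕ) (hB : ∀ W, c W ≤ B) :
    (∏ W, (X W : MvPolynomial (Finset (Fin m)) ℤ) ^ c W).totalDegree ≤ 2 ^ m * B := by
  refine (totalDegree_finsetProd _ _).trans ?_
  calc ∑ W : Finset (Fin m), ((X W : MvPolynomial (Finset (Fin m)) ℤ) ^ c W).totalDegree
      ≤ ∑ _W : Finset (Fin m), B := by
        refine Finset.sum_le_sum fun W _ => ?_
        refine (totalDegree_pow _ _).trans ?_
        rw [totalDegree_X, mul_one]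
        exact hB W
    _ = 2 ^ m * B := by
        rw [Finset.sum_const, Finset.card_univ, Fintype.card_finset, Fintype.card_fin, smul_eq_mul]

lemma coeff_mul_mon {ι : Type} [Fintype ι] (P : MvPolynomial ι ℤ) (c : ι → ℕ) (B : ℤ) (hB0 : 0 ≤ B)
    (hB : ∀ μ, |P.coeff μ| ≤ B) (ν : ι →₀ ℕ) : |(P * ∏ W, (X W : MvPolynomial ι ℤ) ^ c W).coeff ν| ≤ B := by
  rw [mon_eq, coeff_mul_monomial']
  split_ifs
  · rw [mul_one]
    exact hB _
  · rw [abs_zero]
    exact hB0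

/-- Size of the auxiliary polynomials. -/
lemma Sz_fsP {m : ℕ} (a : Fin m → ℕ) (Cc : ℕ)
    (hCc : ∀ (n1 n2 : ℕ) (lam s : Finset (Fin m) → ℕ), (∀ U, lam U ≤ n1) → (∀ V, s V ≤ n2) → ∀ W, cv a lam s W ≤ Cc * (n1 * n2))
    (N : ℕ) (d : ℕ) (P : (Finset (Fin m) → Fin N) → MvPolynomial (Finset (Fin m)) ℤ) (hP : ∀ lam, Sz (P lam) d)
    (s : Finset (Fin m) → ℕ) (hs : ∀ V, s V < 2 * N) :
    Sz (fsP a N P s) (d + 2 ^ m * (Cc * (N * (2 * N))) + 2 ^ m * N) := by
  have hcv : ∀ (lam : Finset (Fin m) → Fin N) (W : Finset (Fin m)), cv a (fun U => (lam U : ℕ)) s W ≤ Cc * (N * (2 * N)) :=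
    fun lam W => hCc N (2 * N) _ _ (fun U => (lam U).2.le) (fun V => (hs V).le) W
  constructor
  · unfold fsP
    refine (totalDegree_finsetSum _ _).trans ?_
    refine Finset.sup_le fun lam _ => ?_
    refine (totalDegree_mul _ _).trans ?_
    have h1 := (hP lam).1
    have h2 := totalDegree_mon (fun W => cv a (fun U => (lam U : ℕ)) s W) (Cc * (N * (2 * N))) (hcv lam)
    omega
  · intro ν
    unfold fsP
    rw [coeff_sum]
    refine (Finset.abs_sum_le_sum_abs _ _).trans ?_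
    have h1 : ∀ lam : Finset (Fin m) → Fin N,
        |(P lam * ∏ W, (X W : MvPolynomial (Finset (Fin m)) ℤ) ^ cv a (fun U => (lam U : ℕ)) s W).coeff ν| ≤ 2 ^ d :=
      fun lam => coeff_mul_mon (P lam) _ _ (by positivity) (hP lam).2 ν
    refine (Finset.sum_le_sum fun lam _ => h1 lam).trans ?_
    rw [Finset.sum_const, Finset.card_univ, Fintype.card_fun, Fintype.card_finset, Fintype.card_fin,
      Fintype.card_fin, nsmul_eq_mul]
    have h2 : (N : ℤ) ^ 2 ^ m ≤ 2 ^ (2 ^ m * N) := by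
      have h3 : N ≤ 2 ^ N := (Nat.lt_two_pow_self (n := N)).le
      have h4 : N ^ 2 ^ m ≤ (2 ^ N) ^ 2 ^ m := Nat.pow_le_pow_left h3 _
      rw [← pow_mul, mul_comm N] at h4
      exact_mod_cast h4
    push_cast
    calc (N : ℤ) ^ 2 ^ m * 2 ^ d ≤ 2 ^ (2 ^ m * N) * 2 ^ d := mul_le_mul_of_nonneg_right h2 (by positivity)
      _ = 2 ^ (d + 2 ^ m * N) := by rw [← pow_add]; congr 1; ring
      _ ≤ 2 ^ (d + 2 ^ m * (Cc * (N * (2 * N))) + 2 ^ m * N) := by
          apply pow_le_pow_right₀ (by norm_num)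
          omega

lemma Sz_mono {ι : Type} (f : MvPolynomial ι ℤ) (d d' : ℕ) (h : d ≤ d') (hf : Sz f d) : Sz f d' :=
  ⟨hf.1.trans h, fun μ => (hf.2 μ).trans (pow_le_pow_right₀ (by norm_num) h)⟩

lemma two_pow_le (n : ℕ) : (2 : ℝ) ^ n ≤ Real.exp n := by
  have h2 : (2 : ℝ) ≤ Real.exp 1 := by
    have := Real.add_one_le_exp (1 : ℝ)
    linarith
  calc (2 : ℝ) ^ n ≤ Real.exp 1 ^ n := pow_le_pow_left₀ (by norm_num) h2 _
    _ = Real.exp n := by rw [← Real.exp_nat_mul, mul_one]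

lemma pow_le_exp (Y : ℝ) (hY : 0 ≤ Y) (d : ℕ) : Y ^ d ≤ Real.exp (Y * d) := by
  have h : Y ≤ Real.exp Y := by
    have := Real.add_one_le_exp Y
    linarith
  calc Y ^ d ≤ Real.exp Y ^ d := pow_le_pow_left₀ hY h _
    _ = Real.exp (Y * d) := by rw [← Real.exp_nat_mul, mul_comm]

end LAfAux

open LAfAux

theorem pLAf (hLPg : S_LPg) (hLX1 : S_LX1) (hLX2 : S_LX2) (hLEv : S_LEv) (hCvb : S_Cvb) (hLip : S_Lip) (hL1s : S_L1s)
    (hLDf : S_LDf) : S_LAf := by
  classical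
  intro m a L hm hInd hL
  obtain ⟨C0, hC01, hPg⟩ := hLPg m a (by omega)
  obtain ⟨Cc, hCc⟩ := hCvb m a
  obtain ⟨c, hc0, hX1⟩ := hLX1 m a L hm hInd hL
  obtain ⟨N2, hX2⟩ := hLX2 m a L (by omega) hInd hL
  set D : ℕ := 2 ^ m with hD
  have hD8 : 8 ≤ D := by
    rw [hD]
    calc 8 = 2 ^ 3 := by norm_num
      _ ≤ 2 ^ m := Nat.pow_le_pow_right (by norm_num) hm
  set θ := th a L with hθ
  set Y : ℝ := ‖θ‖ + 1 with hY
  have hY1 : 1 ≤ Y := by
    have := norm_nonneg θ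
    linarith
  obtain ⟨C', hC'1, hDf⟩ := hLDf (Finset (Fin m)) Y hY1
  set CP : ℝ := (C' + Y) * C0 with hCP
  obtain ⟨N1, hN1⟩ := hX1 CP
  set C1 : ℕ := C0 + D * (Cc * 2) + D with hC1
  set C2 : ℕ := ⌈(D + 2 + Y) * C1⌉₊ with hC2
  refine ⟨C1 + C2, c, 16 + N1 + N2 + 2 * C2, by omega, hc0, fun N hN ξ z0 hSpc hz0 => ?_⟩
  have hN16 : 16 ≤ N := by omega
  have hNpos : 1 ≤ N := by omega
  have hNr : (1 : ℝ) ≤ N := by exact_mod_cast hNpos
  obtain ⟨P, hPsz, ⟨lam0, hlam0⟩, hPv⟩ := hPg N hN16 ξ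
  set η : ℝ := ‖z0 - θ‖ with hη
  have hη0 : 0 ≤ η := norm_nonneg _
  have hη1 : η ≤ 1 := by
    refine hz0.trans ?_
    rw [Real.exp_le_one_iff]
    have : (0 : ℝ) ≤ (N : ℝ) ^ (D + 1) := by positivity
    linarith
  have hθj : ∀ j, ‖θ j‖ ≤ Y := fun j => (norm_le_pi_norm θ j).trans (by linarith)
  have hzj' : ∀ j, ‖z0 j - θ j‖ ≤ η := fun j => norm_le_pi_norm (z0 - θ) j
  have hzj : ∀ j, ‖z0 j‖ ≤ Y := by
    intro j
    have h1 := hzj' j
    have h2 := norm_le_pi_norm θ j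
    have h3 : ‖z0 j‖ ≤ ‖z0 j - θ j‖ + ‖θ j‖ := by
      have := norm_add_le (z0 j - θ j) (θ j)
      simpa using this
    linarith
  have hcard : Fintype.card (Finset (Fin m)) = D := by
    rw [Fintype.card_finset, Fintype.card_fin]
  set d : ℕ := C1 * N ^ 4 with hd
  -- Lipschitz
  have hlip : ∀ f : MvPolynomial (Finset (Fin m)) ℤ, Sz f d →
      ‖aeval z0 f - aeval θ f‖ ≤ η * Real.exp (C2 * (N : ℝ) ^ 4) := by
    intro f hf
    have hl := hLip (Finset (Fin m)) f d z0 θ Y η hY1 hη0 hf.1 hzj hθj hzj'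
    refine hl.trans ?_
    have hl1 := hL1s (Finset (Fin m)) f d hf
    rw [hcard] at hl1
    have hl1' : (l1 f : ℝ) ≤ Real.exp (((D + 1) * d : ℕ) : ℝ) := by
      refine le_trans ?_ (two_pow_le _)
      exact_mod_cast hl1
    have h1 : (d : ℝ) ≤ Real.exp d := by
      have := Real.add_one_le_exp (d : ℝ)
      linarith
    have h2 := pow_le_exp Y (by linarith) d
    calc (l1 f : ℝ) * (d * Y ^ d * η) ≤ Real.exp (((D + 1) * d : ℕ) : ℝ) * (Real.exp d * Real.exp (Y * d) * η) := by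
          gcongr
      _ = η * Real.exp ((((D + 1) * d : ℕ) : ℝ) + d + Y * d) := by
          rw [Real.exp_add, Real.exp_add]
          ring
      _ ≤ η * Real.exp (C2 * (N : ℝ) ^ 4) := by
          apply mul_le_mul_of_nonneg_left _ hη0
          apply Real.exp_le_exp.mpr
          have h3 : (D + 2 + Y) * C1 ≤ (C2 : ℝ) := Nat.le_ceil _
          have h4 : (((D + 1) * d : ℕ) : ℝ) + d + Y * d = ((D + 2 + Y) * C1) * (N : ℝ) ^ 4 := by
            rw [hd]
            push_cast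
            ring
          rw [h4]
          exact mul_le_mul_of_nonneg_right h3 (by positivity)
  have hN4 : N ^ 2 ≤ N ^ 4 := Nat.pow_le_pow_right hNpos (by norm_num)
  have hN4' : N ≤ N ^ 4 := Nat.le_self_pow (by norm_num) N
  have hszF : ∀ s : Finset (Fin m) → ℕ, (∀ V, s V < 2 * N) → Sz (fsP a N P s) d := by
    intro s hs
    refine Sz_mono _ _ _ ?_ (Sz_fsP a Cc hCc N (C0 * N ^ 4) P hPsz s hs)
    rw [← hD, hd, hC1]
    have e1 : D * (Cc * (N * (2 * N))) ≤ D * (Cc * 2) * N ^ 4 := by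
      calc D * (Cc * (N * (2 * N))) = D * (Cc * 2) * N ^ 2 := by ring
        _ ≤ D * (Cc * 2) * N ^ 4 := Nat.mul_le_mul_left _ hN4
    have e2 : D * N ≤ D * N ^ 4 := Nat.mul_le_mul_left _ hN4'
    calc C0 * N ^ 4 + D * (Cc * (N * (2 * N))) + D * N ≤ C0 * N ^ 4 + D * (Cc * 2) * N ^ 4 + D * N ^ 4 := by omega
      _ = (C0 + D * (Cc * 2) + D) * N ^ 4 := by ring
  have hszP : ∀ lam, Sz (P lam) d := by
    intro lam
    refine Sz_mono _ _ _ ?_ (hPsz lam)
    rw [hd, hC1]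
    exact Nat.mul_le_mul_right _ (by omega)
  have hfin : d ≤ (C1 + C2) * N ^ 4 := by
    rw [hd]
    exact Nat.mul_le_mul_right _ (by omega)
  have hevθ : ∀ s : Finset (Fin m) → ℕ, aeval θ (fsP a N P s) = ∑ lam : Finset (Fin m) → Fin N,
      aeval θ (P lam) * Complex.exp (((∑ U, ((lam U : ℕ) : ℝ) * mu a U : ℝ) : ℂ) *
        (((∑ V, (s V : ℝ) * mu a V : ℝ) : ℂ) * L)) := by
    intro s
    unfold fsP
    rw [map_sum]
    refine Finset.sum_congr rfl fun lam _ => ?_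
    rw [map_mul]
    congr 1
    have h2 := hLEv m a L (fun U => (lam U : ℕ)) s
    simp only [map_prod, map_pow, aeval_X]
    rw [hθ, h2]
  by_cases hcase : ∃ s : Finset (Fin m) → ℕ, (∀ V, s V < 2 * N) ∧ aeval ξ (fsP a N P s) ≠ 0
  · obtain ⟨s1, hs1, hne⟩ := hcase
    refine ⟨fsP a N P s1, Sz_mono _ _ _ hfin (hszF s1 hs1), hne, le_max_of_le_left ?_⟩
    have hq : ∀ lam, ‖aeval θ (P lam)‖ ≤ Real.exp (CP * (N : ℝ) ^ 4) := by
      intro lam
      have h1 := (hDf θ θ (P lam) (C0 * N ^ 4) (by linarith) (Nat.mul_pos hC01 (Nat.pow_pos (by omega))) (hPsz lam)).1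
      refine h1.trans ?_
      have h2 : max 1 ‖θ‖ ≤ Y := max_le hY1 (by linarith)
      have h3 : max 1 ‖θ‖ ^ (C0 * N ^ 4) ≤ Y ^ (C0 * N ^ 4) := pow_le_pow_left₀ (by positivity) h2 _
      have h4 := pow_le_exp Y (by linarith) (C0 * N ^ 4)
      calc Real.exp (C' * ((C0 * N ^ 4 : ℕ) : ℝ)) * max 1 ‖θ‖ ^ (C0 * N ^ 4)
          ≤ Real.exp (C' * ((C0 * N ^ 4 : ℕ) : ℝ)) * Real.exp (Y * ((C0 * N ^ 4 : ℕ) : ℝ)) :=
            mul_le_mul_of_nonneg_left (h3.trans h4) (Real.exp_pos _).le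
        _ = Real.exp (CP * (N : ℝ) ^ 4) := by
            rw [← Real.exp_add, hCP]
            congr 1
            push_cast
            ring
    have hsm : ∀ s : Finset (Fin m) → ℕ, (∀ V, s V < N / 16) →
        ‖∑ lam : Finset (Fin m) → Fin N, aeval θ (P lam) * Complex.exp (((∑ U, ((lam U : ℕ) : ℝ) * mu a U : ℝ) : ℂ) *
        (((∑ V, (s V : ℝ) * mu a V : ℝ) : ℂ) * L))‖ ≤ Real.exp (-((N : ℝ) ^ (2 ^ m + 1) / 2)) := by
      intro s hs
      rw [← hevθ s]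
      have h0 := hSpc _ (hPv s hs)
      have h1 := hlip (fsP a N P s) (hszF s (fun V => by have := hs V; omega))
      rw [h0, zero_sub, norm_neg] at h1
      refine h1.trans ?_
      calc η * Real.exp (C2 * (N : ℝ) ^ 4) ≤ Real.exp (-(N : ℝ) ^ (D + 1)) * Real.exp (C2 * (N : ℝ) ^ 4) :=
            mul_le_mul_of_nonneg_right hz0 (Real.exp_pos _).le
        _ = Real.exp (-(N : ℝ) ^ (D + 1) + C2 * (N : ℝ) ^ 4) := by rw [Real.exp_add]
        _ ≤ Real.exp (-((N : ℝ) ^ (D + 1) / 2)) := by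
            apply Real.exp_le_exp.mpr
            have h3 : 2 * (C2 : ℝ) ≤ N := by exact_mod_cast (by omega : 2 * C2 ≤ N)
            have h4 : 2 * (C2 : ℝ) * (N : ℝ) ^ 4 ≤ (N : ℝ) ^ (D + 1) := by
              calc 2 * (C2 : ℝ) * (N : ℝ) ^ 4 ≤ N * (N : ℝ) ^ 4 := mul_le_mul_of_nonneg_right h3 (by positivity)
                _ = (N : ℝ) ^ 5 := by ring
                _ ≤ (N : ℝ) ^ (D + 1) := pow_le_pow_right₀ hNr (by omega)
            linarith
    have h5 := hN1 N (by omega) (fun lam => aeval θ (P lam)) hq hsm s1 hs1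
    rw [hevθ s1]
    exact h5
  · push Not at hcase
    have hz : ∀ s : Finset (Fin m) → ℕ, (∀ V, s V < 2 * N) →
        ∑ lam : Finset (Fin m) → Fin N, aeval z0 (P lam) * ∏ W, z0 W ^ cv a (fun U => (lam U : ℕ)) s W = 0 := by
      intro s hs
      have h0 := hSpc _ (hcase s hs)
      unfold fsP at h0
      rw [map_sum] at h0
      rw [← h0]
      refine Finset.sum_congr rfl fun lam _ => ?_
      rw [map_mul]
      congr 1
      simp
    have hq0 : (fun lam : Finset (Fin m) → Fin N => aeval z0 (P lam)) = 0 := by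
      by_contra hne
      obtain ⟨s, hs, hs'⟩ := hX2 N (by omega) _ hne z0 (fun U => (hzj' U).trans hz0)
      exact hs' (hz s hs)
    refine ⟨P lam0, Sz_mono _ _ _ hfin (hszP lam0), hlam0, le_max_of_le_right ?_⟩
    have h1 := hlip (P lam0) (hszP lam0)
    have h2 : aeval z0 (P lam0) = 0 := congrFun hq0 lam0
    rw [h2, zero_sub, norm_neg] at h1
    refine h1.trans ?_
    apply mul_le_mul_of_nonneg_left _ hη0
    apply Real.exp_le_exp.mpr
    apply mul_le_mul_of_nonneg_right _ (by positivity)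
    push_cast
    linarith [Nat.cast_nonneg (α := ℝ) C1]

end Pool.Agent.SMQ
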