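import Pool.Agent.Lib.MP_452a87_nt.SpecL

set_option autoImplicit false

namespace Pool.Agent.SMQ

open MvPolynomial

/-- Cauchy's inequality for polynomials in one variable. -/
lemma LCf_one (Q : Polynomial ℂ) (ϱ B : ℝ) (hϱ : 0 < ϱ) (h : ∀ z : ℂ, ‖z‖ ≤ ϱ → ‖Q.eval z‖ ≤ B) (k : ℕ) :
    ‖Q.coeff k‖ * ϱ ^ k ≤ B := by
  have hB : 0 ≤ B := le_trans (norm_nonneg _) (h 0 (by simpa using hϱ.le))
  set Q' : Polynomial ℂ := Q.comp (Polynomial.C (ϱ : ℂ) * Polynomial.X) with hQ'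
  have hc : ‖Q'.coeff k‖ = ‖Q.coeff k‖ * ϱ ^ k := by
    rw [hQ', Polynomial.comp_C_mul_X_coeff, norm_mul, norm_pow, Complex.norm_real, Real.norm_eq_abs, abs_of_pos hϱ]
  have h1 := Q'.sum_sq_norm_coeff_eq_circleAverage
  have h2 : Real.circleAverage (fun θ ↦ ‖Q'.eval θ‖ ^ 2) 0 1 ≤ B ^ 2 := by
    apply Real.circleAverage_mono_on_of_le_circle
    · apply ContinuousOn.circleIntegrable (by norm_num)
      apply Continuous.continuousOn
      fun_prop
    · intro x hx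
      have hx1 : ‖x‖ = 1 := by simpa using hx
      have : ‖Q'.eval x‖ ≤ B := by
        rw [hQ', Polynomial.eval_comp, Polynomial.eval_mul, Polynomial.eval_C, Polynomial.eval_X]
        apply h
        rw [norm_mul, hx1, Complex.norm_real, Real.norm_eq_abs, abs_of_pos hϱ, mul_one]
      exact pow_le_pow_left₀ (norm_nonneg _) this 2
  have h3 : ‖Q'.coeff k‖ ^ 2 ≤ B ^ 2 := by
    by_cases hk : k ∈ Q'.support
    · calc ‖Q'.coeff k‖ ^ 2 ≤ ∑ i ∈ Q'.support, ‖Q'.coeff i‖ ^ 2 :=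
            Finset.single_le_sum (f := fun i => ‖Q'.coeff i‖ ^ 2) (fun i _ => by positivity) hk
        _ ≤ B ^ 2 := by rw [h1]; exact h2
    · rw [Polynomial.notMem_support_iff.mp hk]
      simp only [norm_zero, ne_eq, OfNat.ofNat_ne_zero, not_false_eq_true, zero_pow]
      positivity
  rw [← hc]
  exact le_of_sq_le_sq h3 hB

lemma LCf_ae {τ : Type} (x : τ → ℂ) (Q : MvPolynomial τ ℂ) : aeval x Q = eval x Q := rfl

lemma LCf_fin (n : ℕ) : ∀ (P : MvPolynomial (Fin n) ℂ) (ϱ B : ℝ), 0 < ϱ →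
    (∀ x : Fin n → ℂ, (∀ p, ‖x p‖ ≤ ϱ) → ‖aeval x P‖ ≤ B) → ∀ μ : Fin n →₀ ℕ, ‖P.coeff μ‖ * ϱ ^ (∑ p, μ p) ≤ B := by
  induction n with
  | zero =>
    intro P ϱ B hϱ h μ
    have h1 := h Fin.elim0 (fun p => Fin.elim0 p)
    have hμ : μ = 0 := by ext p; exact Fin.elim0 p
    have hP : P = C (P.coeff 0) := by
      exact (eq_C_of_isEmpty P)
    rw [hμ]
    rw [hP, aeval_C] at h1
    simpa using h1
  | succ n ih =>
    intro P ϱ B hϱ h μ
    have key : ∀ y : Fin n → ℂ, (∀ p, ‖y p‖ ≤ ϱ) →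
        ‖aeval y ((finSuccEquiv ℂ n P).coeff (μ 0))‖ ≤ B / ϱ ^ (μ 0) := by
      intro y hy
      have h1 := LCf_one (Polynomial.map (eval y) (finSuccEquiv ℂ n P)) ϱ B hϱ (by
        intro z hz
        rw [← eval_eq_eval_mv_eval']
        have := h (Fin.cons z y) (by
          intro s
          refine Fin.cases ?_ (fun s => ?_) s
          · exact hz
          · exact hy s)
        rwa [LCf_ae] at this) (μ 0)
      rw [Polynomial.coeff_map] at h1
      rw [le_div_iff₀ (by positivity), LCf_ae]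
      exact h1
    have h2 := ih _ ϱ _ hϱ key (Finsupp.tail μ)
    rw [finSuccEquiv_coeff_coeff, Finsupp.cons_tail, le_div_iff₀ (by positivity)] at h2
    have h3 : ∑ p, μ p = ∑ p, (Finsupp.tail μ) p + μ 0 := by
      rw [Fin.sum_univ_succ, add_comm]
      rfl
    rw [h3, pow_add, ← mul_assoc]
    exact h2

theorem pLCf : S_LCf := by
  intro σ _ P ϱ B hϱ h μ
  classical
  set e := Fintype.equivFin σ with he
  have h1 := LCf_fin (Fintype.card σ) (rename e P) ϱ B hϱ (by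
    intro x hx
    rw [aeval_rename]
    exact h _ (fun p => hx _)) (μ.mapDomain e)
  rw [coeff_rename_mapDomain e e.injective] at h1
  have h2 : ∑ p, (μ.mapDomain e) p = μ.sum fun _ k => k := by
    rw [← Finsupp.sum_fintype (μ.mapDomain e) (fun _ k => k) (fun _ => rfl)]
    rw [Finsupp.sum_mapDomain_index (fun _ => rfl) (fun _ _ _ => rfl)]
  rw [h2] at h1
  exact h1

end Pool.Agent.SMQ
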