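import Pool.Agent.Lib.MP_452a87_nt.SpecL

/-!
# A scale with doubling
-/

set_option autoImplicit false

namespace Pool.Agent.SMQ

open MvPolynomial

namespace LDbAux

lemma image_finite (hBxF : S_BxF) {ι : Type} [Fintype ι] (ξ : ι → ℂ) (a B : ℕ) :
    ((fun P : MvPolynomial ι ℤ => aeval ξ P) '' Bx ι a B).Finite := (hBxF ι a B).image _

lemma low (hBxF : S_BxF) {ι : Type} [Fintype ι] (ξ : ι → ℂ) (a : ℕ) : 2 ^ a ≤ Kc ξ a a := by
  classical
  have h1 : (((Finset.range (2 ^ a)).image (fun i : ℕ => (i : ℂ)) : Finset ℂ) : Set ℂ) ⊆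
      (fun P : MvPolynomial ι ℤ => aeval ξ P) '' Bx ι a a := by
    intro x hx
    rw [Finset.coe_image] at hx
    obtain ⟨i, hi, rfl⟩ := hx
    rw [Finset.mem_coe, Finset.mem_range] at hi
    refine ⟨C (i : ℤ), ⟨by rw [totalDegree_C]; exact Nat.zero_le _, fun μ => ?_⟩, by simp⟩
    rw [coeff_C]
    split_ifs
    · exact ⟨by positivity, by exact_mod_cast hi⟩
    · exact ⟨le_refl _, by positivity⟩
  have h2 := Set.ncard_le_ncard h1 (image_finite hBxF ξ a a)
  rw [Set.ncard_coe_finset, Finset.card_image_of_injective _ Nat.cast_injective, Finset.card_range] at h2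
  exact h2

lemma up (hBxF : S_BxF) {ι : Type} [Fintype ι] (ξ : ι → ℂ) (a : ℕ) :
    Kc ξ a a ≤ 2 ^ (a * (a + 1) ^ Fintype.card ι) := by
  classical
  have h1 : Kc ξ a a ≤ (Bx ι a a).ncard := Set.ncard_image_le (hBxF ι a a)
  refine h1.trans ?_
  have hpos : 0 < 2 ^ a := by positivity
  set φ : MvPolynomial ι ℤ → ((ι → Fin (a + 1)) → Fin (2 ^ a)) := fun f e =>
    ⟨(f.coeff (Finsupp.equivFunOnFinite.symm (fun i => (e i : ℕ)))).toNat % 2 ^ a, Nat.mod_lt _ hpos⟩ with hφ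
  have hinj : Set.InjOn φ (Bx ι a a) := by
    intro f hf g hg hfg
    ext μ
    by_cases hμ : ∀ i, μ i ≤ a
    · have h2 := congrFun hfg (fun i => ⟨μ i, Nat.lt_succ_of_le (hμ i)⟩)
      simp only [hφ, Fin.mk.injEq] at h2
      have h3 : (Finsupp.equivFunOnFinite.symm (fun i => μ i)) = μ := by
        ext i
        rfl
      rw [h3] at h2
      have hf1 := hf.2 μ
      have hg1 := hg.2 μ
      have hp : ((2 ^ a : ℕ) : ℤ) = 2 ^ a := by push_cast; rfl
      have hf2 : (f.coeff μ).toNat < 2 ^ a := by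
        have := hf1.2
        zify
        rw [Int.toNat_of_nonneg hf1.1]
        exact this
      have hg2 : (g.coeff μ).toNat < 2 ^ a := by
        have := hg1.2
        zify
        rw [Int.toNat_of_nonneg hg1.1]
        exact this
      rw [Nat.mod_eq_of_lt hf2, Nat.mod_eq_of_lt hg2] at h2
      have h4 : ((f.coeff μ).toNat : ℤ) = ((g.coeff μ).toNat : ℤ) := by rw [h2]
      rw [Int.toNat_of_nonneg hf1.1, Int.toNat_of_nonneg hg1.1] at h4
      exact h4
    · push Not at hμ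
      obtain ⟨i, hi⟩ := hμ
      have key : ∀ h : MvPolynomial ι ℤ, h.totalDegree ≤ a → h.coeff μ = 0 := by
        intro h hh
        by_contra hne
        have h5 := le_totalDegree (mem_support_iff.mpr hne)
        have h6 : μ i ≤ μ.sum fun _ e => e := by
          rw [Finsupp.sum_fintype _ _ (fun _ => rfl)]
          exact Finset.single_le_sum (f := fun i => μ i) (fun _ _ => Nat.zero_le _) (Finset.mem_univ i)
        omega
      rw [key f hf.1, key g hg.1]
  have h2 : (Bx ι a a).ncard ≤ (Set.univ : Set ((ι → Fin (a + 1)) → Fin (2 ^ a))).ncard :=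
    Set.ncard_le_ncard_of_injOn φ (fun _ _ => Set.mem_univ _) hinj Set.finite_univ
  refine h2.trans ?_
  rw [Set.ncard_univ, Nat.card_eq_fintype_card, Fintype.card_fun, Fintype.card_fun, Fintype.card_fin, Fintype.card_fin,
    ← pow_mul]

end LDbAux

open LDbAux

theorem pLDb (hBxF : S_BxF) : S_LDb := by
  classical
  intro ι _ ξ A hA
  set n : ℕ := Fintype.card ι with hn
  set M : ℕ := 3 * (n + 1) with hM
  have hex : ∃ k, 2 * A ≤ 4 ^ k := ⟨2 * A, (Nat.lt_pow_self (by norm_num)).le⟩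
  set k0 := Nat.find hex with hk0
  have hk0s : 2 * A ≤ 4 ^ k0 := Nat.find_spec hex
  have hk0m : ∀ k < k0, 4 ^ k < 2 * A := fun k hk => by
    have := Nat.find_min hex hk
    omega
  by_contra hcon
  push Not at hcon
  have hstep : ∀ k < k0, Kc ξ (2 ^ k * A) (2 ^ k * A) ^ (2 ^ M) < Kc ξ (2 ^ (k + 1) * A) (2 ^ (k + 1) * A) := by
    intro k hk
    have h4 := hk0m k hk
    have h2k : 1 ≤ 2 ^ k := Nat.one_le_two_pow
    have ha1 : A ≤ 2 ^ k * A := Nat.le_mul_of_pos_left _ (by omega)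
    have ha2 : 2 ^ k * A ≤ A ^ 2 := by
      have h5 : (2 ^ k * A) ^ 2 ≤ (A ^ 2) ^ 2 := by
        calc (2 ^ k * A) ^ 2 = 4 ^ k * A ^ 2 := by
              rw [mul_pow, ← pow_mul, mul_comm k 2, pow_mul]
              norm_num
          _ ≤ (2 * A) * A ^ 2 := Nat.mul_le_mul_right _ h4.le
          _ = 2 * A ^ 3 := by ring
          _ ≤ A * A ^ 3 := Nat.mul_le_mul_right _ hA
          _ = (A ^ 2) ^ 2 := by ring
      exact le_of_pow_le_pow_left₀ (by norm_num) (by positivity) h5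
    have ha3 : 2 ≤ Kc ξ (2 ^ k * A) (2 ^ k * A) := by
      refine le_trans ?_ (low hBxF ξ (2 ^ k * A))
      calc 2 = 2 ^ 1 := by norm_num
        _ ≤ 2 ^ (2 ^ k * A) := Nat.pow_le_pow_right (by norm_num) (by omega)
    have h6 := hcon (2 ^ k * A) ha1 ha2 ha3
    have h7 : 2 ^ (k + 1) * A = 2 * (2 ^ k * A) := by ring
    rw [h7]
    exact h6
  have hiter : ∀ k ≤ k0, Kc ξ A A ^ (2 ^ (M * k)) ≤ Kc ξ (2 ^ k * A) (2 ^ k * A) := by
    intro k
    induction k with
    | zero => intro _; simp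
    | succ k ih =>
      intro hk
      have h1 := ih (by omega)
      have h2 := hstep k (by omega)
      refine le_trans ?_ h2.le
      calc Kc ξ A A ^ (2 ^ (M * (k + 1))) = (Kc ξ A A ^ (2 ^ (M * k))) ^ (2 ^ M) := by
            rw [← pow_mul, ← pow_add]
            congr 2
        _ ≤ Kc ξ (2 ^ k * A) (2 ^ k * A) ^ (2 ^ M) := Nat.pow_le_pow_left h1 _
  have h1 := hiter k0 le_rfl
  have h2 := up hBxF ξ (2 ^ k0 * A)
  have h3 : 2 ^ (A * 2 ^ (M * k0)) ≤ 2 ^ ((2 ^ k0 * A) * (2 ^ k0 * A + 1) ^ n) := by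
    calc 2 ^ (A * 2 ^ (M * k0)) = (2 ^ A) ^ (2 ^ (M * k0)) := by rw [pow_mul]
      _ ≤ Kc ξ A A ^ (2 ^ (M * k0)) := Nat.pow_le_pow_left (low hBxF ξ A) _
      _ ≤ _ := h1.trans h2
  have h4 : A * 2 ^ (M * k0) ≤ (2 ^ k0 * A) * (2 ^ k0 * A + 1) ^ n := (Nat.pow_le_pow_iff_right (by norm_num)).mp h3
  have hpos : 1 ≤ 2 ^ k0 * A := Nat.mul_pos (by positivity) (by omega)
  have h5 : (2 ^ k0 * A) * (2 ^ k0 * A + 1) ^ n ≤ (2 ^ (k0 + 1) * A) ^ (n + 1) := by
    have e1 : 2 ^ (k0 + 1) * A = 2 * (2 ^ k0 * A) := by ring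
    rw [e1, pow_succ, mul_comm]
    apply Nat.mul_le_mul
    · exact Nat.pow_le_pow_left (by omega) _
    · omega
  have h6 : (2 ^ (k0 + 1) * A) ^ (n + 1) ≤ 2 ^ (M * k0) := by
    have e1 : 2 ^ (M * k0) = (2 ^ (3 * k0)) ^ (n + 1) := by
      rw [← pow_mul, hM]
      congr 1
      ring
    rw [e1]
    apply Nat.pow_le_pow_left
    calc 2 ^ (k0 + 1) * A = 2 ^ k0 * (2 * A) := by ring
      _ ≤ 2 ^ k0 * 4 ^ k0 := Nat.mul_le_mul_left _ hk0s
      _ = 2 ^ (3 * k0) := by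
          have : (4 : ℕ) ^ k0 = 2 ^ (2 * k0) := by rw [pow_mul]; norm_num
          rw [this, ← pow_add]
          congr 1
          ring
  have h7 : 0 < 2 ^ (M * k0) := by positivity
  nlinarith

end Pool.Agent.SMQ
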