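import Pool.Agent.Lib.MP_452a87_nt.SpecL

/-!
# MP_452a87_nt, L/LDf: values of `f` near `θ` and far away (helper6)
-/

set_option autoImplicit false

namespace Pool.Agent.SMQ

open MvPolynomial

namespace LDfM

private theorem triv {ι : Type} [Fintype ι] (f : MvPolynomial ι ℤ) (d : ℕ) (z : ι → ℂ)
    (hd : f.totalDegree ≤ d) : ‖aeval z f‖ ≤ l1 f * max 1 ‖z‖ ^ d := by
  rw [aeval_def, eval₂_eq']
  unfold l1
  rw [Nat.cast_sum, Finset.sum_mul]
  refine (norm_sum_le _ _).trans (Finset.sum_le_sum fun m hm => ?_)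
  rw [norm_mul]
  have h1 : ‖(algebraMap ℤ ℂ) (coeff m f)‖ = ((coeff m f).natAbs : ℝ) := by
    rw [eq_intCast, Complex.norm_intCast, ← Int.cast_abs, Int.abs_eq_natAbs, Int.cast_natCast]
  rw [h1]
  refine mul_le_mul_of_nonneg_left ?_ (Nat.cast_nonneg _)
  rw [norm_prod]
  have h2 : ∑ i, m i ≤ d := by
    have h3 := le_totalDegree hm
    rw [Finsupp.sum_fintype _ _ fun _ => rfl] at h3
    exact h3.trans hd
  have hM : (1 : ℝ) ≤ max 1 ‖z‖ := le_max_left _ _
  calc ∏ i, ‖z i ^ m i‖ ≤ ∏ i, max 1 ‖z‖ ^ m i := by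
        refine Finset.prod_le_prod (fun _ _ => norm_nonneg _) fun i _ => ?_
        rw [norm_pow]
        exact pow_le_pow_left₀ (norm_nonneg _) ((norm_le_pi_norm z i).trans (le_max_right _ _)) _
    _ = max 1 ‖z‖ ^ (∑ i, m i) := Finset.prod_pow_eq_pow_sum _ _ _
    _ ≤ max 1 ‖z‖ ^ d := pow_le_pow_right₀ hM h2

end LDfM

open LDfM in
theorem pLDf (hLip : S_Lip) (hL1s : S_L1s) : S_LDf := by
  intro ι _ Y hY
  set n : ℝ := (Fintype.card ι : ℝ) with hn
  have hn0 : 0 ≤ n := Nat.cast_nonneg _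
  refine ⟨n + Y + 4, by linarith, ?_⟩
  intro θ z f d hθ hd hf
  have hdR : (1 : ℝ) ≤ d := by exact_mod_cast hd
  have hl : (l1 f : ℝ) ≤ Real.exp ((n + 1) * d) := by
    have h1 := hL1s ι f d hf
    have h2 : (l1 f : ℝ) ≤ (2 : ℝ) ^ ((Fintype.card ι + 1) * d) := by exact_mod_cast h1
    have h3 : (2 : ℝ) ≤ Real.exp 1 := by
      have := Real.add_one_le_exp (1 : ℝ)
      linarith
    calc (l1 f : ℝ) ≤ (2 : ℝ) ^ ((Fintype.card ι + 1) * d) := h2
      _ ≤ Real.exp 1 ^ ((Fintype.card ι + 1) * d) := pow_le_pow_left₀ (by norm_num) h3 _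
      _ = Real.exp ((n + 1) * d) := by
        rw [← Real.exp_nat_mul, hn]
        push_cast
        ring_nf
  have hl0 : (0 : ℝ) ≤ l1 f := Nat.cast_nonneg _
  have hM : (1 : ℝ) ≤ max 1 ‖z‖ ^ d := one_le_pow₀ (le_max_left _ _)
  have h1 : ‖aeval z f‖ ≤ Real.exp ((n + Y + 4) * d) * max 1 ‖z‖ ^ d := by
    refine (triv f d z hf.1).trans ?_
    refine mul_le_mul_of_nonneg_right (hl.trans ?_) (by linarith)
    apply Real.exp_le_exp.mpr
    nlinarith
  refine ⟨h1, ?_⟩
  rcases le_or_gt 1 ‖z - θ‖ with hz | hz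
  · rw [min_eq_left hz]
    refine h1.trans ?_
    refine le_mul_of_one_le_right (by positivity) (le_max_right _ _)
  · rw [min_eq_right hz.le]
    have hzn : ‖z‖ ≤ Y + 1 := by
      have : z = (z - θ) + θ := by ring
      calc ‖z‖ = ‖(z - θ) + θ‖ := by rw [← this]
        _ ≤ ‖z - θ‖ + ‖θ‖ := norm_add_le _ _
        _ ≤ Y + 1 := by linarith
    have h2 := hLip ι f d z θ (Y + 1) ‖z - θ‖ (by linarith) (norm_nonneg _) hf.1
      (fun j => (norm_le_pi_norm z j).trans hzn)
      (fun j => (norm_le_pi_norm θ j).trans (by linarith))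
      (fun j => norm_le_pi_norm (z - θ) j)
    have h3 : ‖aeval z f‖ ≤ ‖aeval θ f‖ + l1 f * (d * (Y + 1) ^ d * ‖z - θ‖) := by
      have : aeval z f = (aeval z f - aeval θ f) + aeval θ f := by ring
      calc ‖aeval z f‖ = ‖(aeval z f - aeval θ f) + aeval θ f‖ := by rw [← this]
        _ ≤ ‖aeval z f - aeval θ f‖ + ‖aeval θ f‖ := norm_add_le _ _
        _ ≤ _ := by linarith
    set w : ℝ := max ‖aeval θ f‖ ‖z - θ‖ with hw
    have hw1 : ‖aeval θ f‖ ≤ w := le_max_left _ _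
    have hw2 : ‖z - θ‖ ≤ w := le_max_right _ _
    have hw0 : 0 ≤ w := (norm_nonneg _).trans hw1
    have hE : (l1 f : ℝ) * (d * (Y + 1) ^ d) ≤ Real.exp ((n + Y + 3) * d) := by
      have e1 : (d : ℝ) ≤ Real.exp d := by
        have := Real.add_one_le_exp (d : ℝ)
        linarith
      have e2 : (Y + 1) ^ d ≤ Real.exp ((Y + 1) * d) := by
        have e3 : Y + 1 ≤ Real.exp (Y + 1) := by
          have := Real.add_one_le_exp (Y + 1)
          linarith
        calc (Y + 1) ^ d ≤ Real.exp (Y + 1) ^ d := pow_le_pow_left₀ (by linarith) e3 _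
          _ = Real.exp ((Y + 1) * d) := by
            rw [← Real.exp_nat_mul]
            ring_nf
      calc (l1 f : ℝ) * (d * (Y + 1) ^ d) ≤
          Real.exp ((n + 1) * d) * (Real.exp d * Real.exp ((Y + 1) * d)) := by
            gcongr
        _ = Real.exp ((n + Y + 3) * d) := by
            rw [← Real.exp_add, ← Real.exp_add]
            ring_nf
    have hE1 : (1 : ℝ) ≤ Real.exp ((n + Y + 3) * d) := by
      apply Real.one_le_exp
      positivity
    have hE2 : (2 : ℝ) ≤ Real.exp d := by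
      have := Real.add_one_le_exp (d : ℝ)
      linarith
    have hE3 : Real.exp ((n + Y + 4) * d) = Real.exp d * Real.exp ((n + Y + 3) * d) := by
      rw [← Real.exp_add]
      ring_nf
    have h4 : ‖aeval z f‖ ≤ Real.exp ((n + Y + 4) * d) * w := by
      have h5 : (l1 f : ℝ) * (d * (Y + 1) ^ d * ‖z - θ‖) ≤ Real.exp ((n + Y + 3) * d) * w := by
        calc (l1 f : ℝ) * (d * (Y + 1) ^ d * ‖z - θ‖) =
            ((l1 f : ℝ) * (d * (Y + 1) ^ d)) * ‖z - θ‖ := by ring
          _ ≤ Real.exp ((n + Y + 3) * d) * w := by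
            apply mul_le_mul hE hw2 (norm_nonneg _) (by positivity)
      have h6 : w ≤ Real.exp ((n + Y + 3) * d) * w := le_mul_of_one_le_left hw0 hE1
      have h7 : 2 * (Real.exp ((n + Y + 3) * d) * w) ≤
          Real.exp d * (Real.exp ((n + Y + 3) * d) * w) :=
        mul_le_mul_of_nonneg_right hE2 (by positivity)
      rw [hE3]
      linarith
    calc ‖aeval z f‖ ≤ Real.exp ((n + Y + 4) * d) * w := h4
      _ ≤ Real.exp ((n + Y + 4) * d) * max 1 ‖z‖ ^ d * w := by
        refine mul_le_mul_of_nonneg_right ?_ hw0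
        exact le_mul_of_one_le_right (by positivity) hM

end Pool.Agent.SMQ
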