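import Pool.Agent.Lib.MP_452a87_nt.SpecL

/-!
# MP_452a87_nt, L/LEv: values of the monomials at the point (helper82)
-/

set_option autoImplicit false

namespace Pool.Agent.SMQ

/-- **LEv.** -/
theorem pLEv (hCvi : S_Cvi) : S_LEv := by
  intro m a L lam s
  have h3 : ∏ W, th a L W ^ cv a lam s W =
      Complex.exp (((∑ W, (cv a lam s W : ℝ) * mu a W : ℝ) : ℂ) * L) := by
    rw [Complex.ofReal_sum, Finset.sum_mul, Complex.exp_sum]
    refine Finset.prod_congr rfl fun W _ => ?_
    unfold th
    rw [← Complex.exp_nat_mul]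
    congr 1
    push_cast
    ring
  rw [h3, ← hCvi m a lam s, Complex.ofReal_mul, mul_assoc]

end Pool.Agent.SMQ
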