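import Pool.Agent.Lib.MP_452a87_nt.SpecL

/-!
# The factors of the norm are forms (LFc)
-/

set_option autoImplicit false

namespace Pool.Agent.SMQ

open MvPolynomial

namespace LFcAux

/-- Algebraic elements stay algebraic over a larger field. -/
theorem alg_mono {A B : IntermediateField ℚ ℂ} (h : A ≤ B)
    {z : ℂ} (hz : IsAlgebraic A z) : IsAlgebraic B z := by
  obtain ⟨p, hp, hpz⟩ := hz
  let φ : A →+* B := (IntermediateField.inclusion h).toRingHom
  refine ⟨p.map φ, (Polynomial.map_ne_zero_iff φ.injective).2 hp, ?_⟩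
  rw [Polynomial.aeval_def, Polynomial.eval₂_map]
  exact hpz

theorem alg_mem {S : Set ℂ} {z : ℂ} (hz : z ∈ IntermediateField.adjoin ℚ S) :
    IsAlgebraic (IntermediateField.adjoin ℚ S) z :=
  isAlgebraic_algebraMap (⟨z, hz⟩ : IntermediateField.adjoin ℚ S)

/-- An algebraically independent finite family has as transcendence degree its cardinality. -/
theorem tr_of_indep {σ : Type} [Finite σ] (x : σ → ℂ)
    (hx : AlgebraicIndependent ℚ x) : Tr x (Nat.card σ) := by
  let E : σ ≃ Fin (Nat.card σ) := Finite.equivFin σ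
  refine ⟨E.symm, hx.comp _ E.symm.injective, fun i => ?_⟩
  exact alg_mem (IntermediateField.subset_adjoin _ _ ⟨E i, by
      show x (E.symm (E i)) = x i
      rw [E.symm_apply_apply]⟩)

/-- From `ℤ` to `ℚ`. -/
theorem indep_of_int {σ : Type} (x : σ → ℂ) (h : ∀ P : MvPolynomial σ ℤ, aeval x P = 0 → P = 0) :
    AlgebraicIndependent ℚ x := by
  have h1 : AlgebraicIndependent ℤ x := (injective_iff_map_eq_zero _).2 h
  have h2 : Algebra.IsAlgebraic ℤ ℚ :=
    (IsFractionRing.comap_isAlgebraic_iff (A := ℤ) (K := ℚ) (C := ℚ)).2 inferInstance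
  exact h1.extendScalars ℚ

/-- Divisors of nonzero polynomials in the left variables are polynomials in the left
variables. -/
theorem div_inl {α β : Type} (l : MvPolynomial α ℤ) (hl : l ≠ 0)
    (P : MvPolynomial (α ⊕ β) ℤ) (h : P ∣ rename Sum.inl l) :
    ∃ l' : MvPolynomial α ℤ, P = rename Sum.inl l' := by
  let Ψ : MvPolynomial (α ⊕ β) ℤ ≃ₐ[ℤ] MvPolynomial β (MvPolynomial α ℤ) :=
    (renameEquiv ℤ (Equiv.sumComm α β)).trans (sumAlgEquiv ℤ β α)
  have hΨ : ∀ q : MvPolynomial α ℤ, Ψ (rename Sum.inl q) = C q := by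
    intro q
    induction q using MvPolynomial.induction_on with
    | C a =>
      rw [rename_C]
      simp [Ψ]
    | add p q hp hq => rw [map_add, map_add, hp, hq, map_add]
    | mul_X p i hp =>
      rw [map_mul, map_mul, hp, map_mul]
      congr 1
      simp [Ψ]
  obtain ⟨Q, hQ⟩ := h
  have h1 : Ψ P * Ψ Q = C l := by
    rw [← map_mul, ← hQ, hΨ]
  have hP0 : Ψ P ≠ 0 := by
    intro h0
    rw [h0, zero_mul] at h1
    exact hl ((C_injective β (MvPolynomial α ℤ)) (by rw [← h1, map_zero]))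
  have hQ0 : Ψ Q ≠ 0 := by
    intro h0
    rw [h0, mul_zero] at h1
    exact hl ((C_injective β (MvPolynomial α ℤ)) (by rw [← h1, map_zero]))
  have h2 := totalDegree_mul_of_isDomain hP0 hQ0
  rw [h1, totalDegree_C] at h2
  have h3 : (Ψ P).totalDegree = 0 := by omega
  rw [totalDegree_eq_zero_iff_eq_C] at h3
  refine ⟨coeff 0 (Ψ P), Ψ.injective ?_⟩
  rw [hΨ]
  exact h3

/-- A polynomial which is free of the variables `inr` is a polynomial in the left variables. -/
theorem exists_inr {α β : Type} (P : MvPolynomial (α ⊕ β) ℤ) (h : ∀ l : MvPolynomial α ℤ, rename Sum.inl l ≠ P) :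
    ∃ k : β, 0 < P.degreeOf (Sum.inr k) := by
  classical
  by_contra hcon
  push Not at hcon
  have h1 : (P.vars : Set (α ⊕ β)) ⊆ Set.range Sum.inl := by
    rintro (a | b) hb
    · exact ⟨a, rfl⟩
    · have h2 := hcon b
      have h3 : P.degreeOf (Sum.inr b) = 0 := by omega
      rw [Finset.mem_coe, mem_vars_iff_mem_support] at hb
      obtain ⟨d, hd, hbd⟩ := hb
      have h4 := monomial_le_degreeOf (Sum.inr b) hd
      rw [Finsupp.mem_support_iff] at hbd
      omega
  obtain ⟨q, hq⟩ := exists_rename_eq_of_vars_subset_range P Sum.inl Sum.inl_injective h1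
  exact h q hq

/-- Divisors of a polynomial without the variable `k`. -/
theorem degreeOf_dvd {σ : Type} (k : σ) (P π : MvPolynomial σ ℤ) (hP : P ≠ 0) (h : π ∣ P)
    (hk : P.degreeOf k = 0) : π.degreeOf k = 0 := by
  classical
  obtain ⟨Q, rfl⟩ := h
  rw [degreeOf_mul_eq (left_ne_zero_of_mul hP) (right_ne_zero_of_mul hP)] at hk
  omega

/-- A family with `card` algebraically independent elements in its algebraic closure is independent. -/
theorem indep_of_card (hTrE : S_TrE) (hTrU : S_TrU) {σ τ : Type} [Finite σ] [Finite τ] (w : σ → ℂ) (y : τ → ℂ)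
    (hy : AlgebraicIndependent ℚ y) (hc : Nat.card σ ≤ Nat.card τ)
    (hyw : ∀ i, IsAlgebraic (IntermediateField.adjoin ℚ (Set.range w)) (y i)) : AlgebraicIndependent ℚ w := by
  obtain ⟨s, b, hb, hbw⟩ := hTrE σ ℂ w
  set K := IntermediateField.adjoin ℚ (Set.range (w ∘ b)) with hK
  have h1 : ∀ i, IsAlgebraic K (y i) := by
    intro i
    -- `y i` is algebraic over `ℚ(w)`, which is algebraic over `K`
    have h2 : IntermediateField.adjoin ℚ (Set.range w) ≤
        (algebraicClosure K ℂ).restrictScalars ℚ := by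
      rw [IntermediateField.adjoin_le_iff]
      rintro _ ⟨j, rfl⟩
      exact mem_algebraicClosure_iff.2 (hbw j)
    have h3 : IsAlgebraic ((algebraicClosure K ℂ).restrictScalars ℚ) (y i) := alg_mono h2 (hyw i)
    have h4 : IsAlgebraic (algebraicClosure K ℂ) (y i) := h3
    exact mem_algebraicClosure_iff.1 (by
      have h5 := h4.restrictScalars K
      exact mem_algebraicClosure_iff.2 h5)
  have h2 := hTrU τ (Fin s) ℂ y (w ∘ b) _ (tr_of_indep y hy) h1
  rw [Nat.card_fin] at h2
  have hinj : Function.Injective b := fun i j hij => hb.injective (by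
    rw [Function.comp_apply, Function.comp_apply, hij])
  have hbij : Function.Bijective b := by
    classical
    have := Fintype.ofFinite σ
    refine (Fintype.bijective_iff_injective_and_card b).2 ⟨hinj, ?_⟩
    have h3 := Fintype.card_le_of_injective b hinj
    rw [← Nat.card_eq_fintype_card, Nat.card_fin]
    rw [Fintype.card_fin] at h3
    rw [← Nat.card_eq_fintype_card] at h3 ⊢
    omega
  have h3 := hb.comp _ (Equiv.ofBijective b hbij).symm.injective
  have h4 : (w ∘ b) ∘ (Equiv.ofBijective b hbij).symm = w := by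
    funext i
    simp only [Function.comp_apply]
    congr 1
    exact (Equiv.ofBijective b hbij).apply_symm_apply i
  rwa [h4] at h3

/-- Independence over the algebraic closure. -/
theorem genOver {ι τ : Type} {r : ℕ} (u : τ → ℂ) (ξ : ι → ℂ) (b : Fin r → ι)
    (hbξ : ∀ i, IsAlgebraic (IntermediateField.adjoin ℚ (Set.range (ξ ∘ b))) (ξ i))
    (h : AlgebraicIndependent ℚ (Sum.elim u (ξ ∘ b))) : GenOver u ξ := by
  have h1 := (AlgebraicIndependent.sumElim_iff.1 h).2
  have h2 : AlgebraicIndependent (IntermediateField.adjoin ℚ (Set.range (ξ ∘ b))) u :=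
    IntermediateField.algebraicIndependent_adjoin_iff.2 h1
  set K := IntermediateField.adjoin ℚ (Set.range (ξ ∘ b)) with hK
  have h3 : AlgebraicIndependent (algebraicClosure K ℂ) u := h2.algebraicClosure
  have h4 : IntermediateField.adjoin ℚ (Set.range ξ) ≤
      (algebraicClosure K ℂ).restrictScalars ℚ := by
    rw [IntermediateField.adjoin_le_iff]
    rintro _ ⟨j, rfl⟩
    exact mem_algebraicClosure_iff.2 (hbξ j)
  let φ : IntermediateField.adjoin ℚ (Set.range ξ) →+* algebraicClosure K ℂ :=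
    (IntermediateField.inclusion h4).toRingHom
  let _ : Algebra (IntermediateField.adjoin ℚ (Set.range ξ)) (algebraicClosure K ℂ) := φ.toAlgebra
  have : IsScalarTower (IntermediateField.adjoin ℚ (Set.range ξ)) (algebraicClosure K ℂ) ℂ :=
    IsScalarTower.of_algebraMap_eq fun x => rfl
  exact h3.restrictScalars φ.injective

/-- The degree in a variable which does not occur. -/
theorem degreeOf_rename_ne {σ : Type} (k : σ) (P : MvPolynomial {p : σ // p ≠ k} ℤ) :
    (rename Subtype.val P).degreeOf k = 0 := by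
  classical
  by_contra h
  have h1 : k ∈ (rename Subtype.val P).vars := by
    by_contra h2
    apply h
    rw [← Nat.le_zero, degreeOf_le_iff]
    intro m hm
    exact (mem_support_notMem_vars_zero hm h2).le
  have h2 := vars_rename Subtype.val P h1
  rw [Finset.mem_image] at h2
  obtain ⟨q, -, hq⟩ := h2
  exact q.2 hq

end LFcAux

open LFcAux in
theorem pLFc (hLHy : S_LHy) (hLId : S_LId) (hTrE : S_TrE) (hTrU : S_TrU) (hA2 : S_A2) : S_LFc := by
  intro ι _ _ ρ ξ G g e f d R π hTr hf he hSec hπ hπR hπl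
  have hπc : ∀ n : ℤ, π ≠ C n := fun n hn => hπl (C n) (by rw [rename_C, hn])
  obtain ⟨x, hx⟩ := hLHy (BU ι (ρ + 1)) π hπ hπc
  obtain ⟨u, hu⟩ : ∃ u : Fin (ρ + 1) × ι → ℂ, u = x ∘ Sum.inl := ⟨_, rfl⟩
  obtain ⟨T, hT⟩ : ∃ T : Fin (ρ + 1) → ℂ, T = x ∘ Sum.inr := ⟨_, rfl⟩
  have hxu : Sum.elim u T = x := by
    funext p
    rcases p with p | p
    · rw [hu]; rfl
    · rw [hT]; rfl
  -- (1) `u` is algebraically independent
  have hul : ∀ l : MvPolynomial (Fin (ρ + 1) × ι) ℤ, aeval u l = 0 → l = 0 := by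
    intro l hl
    by_contra hl0
    have h1 : aeval x (rename Sum.inl l : MvPolynomial (BU ι (ρ + 1)) ℤ) = 0 := by
      rw [aeval_rename, ← hu]
      exact hl
    obtain ⟨l', hl'⟩ := div_inl l hl0 π ((hx _).1 h1)
    exact hπl l' hl'.symm
  have he0 : aeval u e ≠ 0 := fun h => he (hul e h)
  obtain ⟨z, hz, -, hR⟩ := hSec u T he0
  have hR0 : aeval (Sum.elim u T) R = 0 := by
    rw [hxu]
    exact (hx R).2 hπR
  rw [hR0] at hR
  obtain ⟨i, hi⟩ : ∃ i, aeval (z i) f = 0 := by
    have h1 := (mul_eq_zero.1 hR.symm).resolve_left (pow_ne_zero _ he0)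
    obtain ⟨i, -, hi⟩ := Finset.prod_eq_zero_iff.1 h1
    exact ⟨i, hi⟩
  obtain ⟨hzi, hψ⟩ := hz i
  obtain ⟨ξ', hξ'⟩ : ∃ ξ' : ι → ℂ, ξ' = z i := ⟨_, rfl⟩
  rw [← hξ'] at hzi hψ hi
  -- (2) the transcendence degree
  obtain ⟨r', hr'⟩ := hTrE ι ℂ ξ'
  have h1 : r' < ρ + 1 := hA2 ι ℂ ℂ ξ ξ' (ρ + 1) r' f hzi hTr hr' hf hi
  obtain ⟨b, hb, hbA⟩ := hr'
  obtain ⟨k, hk⟩ := exists_inr π hπl
  -- (3) the other coordinates of `x` are independent
  have hy : AlgebraicIndependent ℚ (fun p : {p : BU ι (ρ + 1) // p ≠ Sum.inr k} => x p) := by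
    apply indep_of_int
    intro P hP
    by_contra hP0
    have h2 : aeval x (rename Subtype.val P) = 0 := by
      rw [aeval_rename]
      exact hP
    have h3 : rename Subtype.val P ≠ 0 := by
      intro h4
      exact hP0 (rename_injective _ Subtype.val_injective (h4.trans (map_zero _).symm))
    have h4 := degreeOf_dvd (Sum.inr k) _ π h3 ((hx _).1 h2) (degreeOf_rename_ne _ P)
    omega
  have hcy : Nat.card {p : BU ι (ρ + 1) // p ≠ Sum.inr k} = (ρ + 1) * Fintype.card ι + ρ := by
    classical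
    rw [Nat.card_eq_fintype_card, Fintype.card_subtype_compl, Fintype.card_subtype_eq, Fintype.card_sum,
      Fintype.card_prod, Fintype.card_fin]
    omega
  have hle : IntermediateField.adjoin ℚ (Set.range (ξ' ∘ b)) ≤
      IntermediateField.adjoin ℚ (Set.range (Sum.elim u (ξ' ∘ b))) := by
    refine IntermediateField.adjoin.mono _ _ _ ?_
    rintro _ ⟨i, rfl⟩
    exact ⟨Sum.inr i, rfl⟩
  have hua : ∀ p, IsAlgebraic (IntermediateField.adjoin ℚ (Set.range (Sum.elim u (ξ' ∘ b)))) (u p) :=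
    fun p => alg_mem (IntermediateField.subset_adjoin ℚ _ ⟨Sum.inl p, rfl⟩)
  have hya : ∀ p : {p : BU ι (ρ + 1) // p ≠ Sum.inr k},
      IsAlgebraic (IntermediateField.adjoin ℚ (Set.range (Sum.elim u (ξ' ∘ b)))) (x p) := by
    rintro ⟨p | i, hp⟩
    · rw [← hxu]
      exact hua p
    · rw [← hxu]
      show IsAlgebraic _ (T i)
      rw [← hψ]
      show IsAlgebraic _ (∑ j, u (i, j) * ξ' j)
      exact Finset.sum_induction _ (IsAlgebraic _) (fun _ _ h h' => h.add h') isAlgebraic_zero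
        fun j _ => (hua _).mul (alg_mono hle (hbA j))
  have hcw : Nat.card ((Fin (ρ + 1) × ι) ⊕ Fin r') = (ρ + 1) * Fintype.card ι + r' := by
    rw [Nat.card_eq_fintype_card, Fintype.card_sum, Fintype.card_prod, Fintype.card_fin, Fintype.card_fin]
  have h5 := hTrU _ _ ℂ _ (Sum.elim u (ξ' ∘ b)) _ (tr_of_indep _ hy) hya
  rw [hcy, hcw] at h5
  have h6 : r' = ρ := by omega
  subst h6
  have hw : AlgebraicIndependent ℚ (Sum.elim u (ξ' ∘ b)) :=
    indep_of_card hTrE hTrU _ _ hy (by rw [hcy, hcw]) hya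
  have hgen : GenOver u ξ' := genOver u ξ' b hbA hw
  refine ⟨ξ', hzi, hi, ⟨b, hb, hbA⟩, hπ, ?_⟩
  -- (4)
  refine hLId ι (r' + 1) ξ' ξ' π u (Spc.refl ξ') hgen ?_
  rw [hψ, hxu]
  exact (hx π).2 dvd_rfl

end Pool.Agent.SMQ
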