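import Pool.Agent.Lib.MP_452a87_nt.SpecL

/-!
# MP_452a87_nt, L/LFe: existence of a form (helper82)
-/

set_option autoImplicit false

namespace Pool.Agent.SMQ

open MvPolynomial

namespace LFeAux

/-- Algebraic elements stay algebraic over a larger field. -/
theorem alg_mono {Ω : Type} [Field Ω] [CharZero Ω] {A B : IntermediateField ℚ Ω} (h : A ≤ B)
    {z : Ω} (hz : IsAlgebraic A z) : IsAlgebraic B z := by
  obtain ⟨p, hp, hpz⟩ := hz
  let φ : A →+* B := (IntermediateField.inclusion h).toRingHom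
  refine ⟨p.map φ, (Polynomial.map_ne_zero_iff φ.injective).2 hp, ?_⟩
  rw [Polynomial.aeval_def, Polynomial.eval₂_map]
  exact hpz

/-- An algebraically independent finite family has as transcendence degree its cardinality. -/
theorem tr_of_indep {σ Ω : Type} [Finite σ] [Field Ω] [CharZero Ω] (x : σ → Ω)
    (hx : AlgebraicIndependent ℚ x) : Tr x (Nat.card σ) := by
  let E : σ ≃ Fin (Nat.card σ) := Finite.equivFin σ
  refine ⟨E.symm, hx.comp _ E.symm.injective, fun i => ?_⟩
  have hmem : x i ∈ IntermediateField.adjoin ℚ (Set.range (x ∘ E.symm)) :=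
    IntermediateField.subset_adjoin _ _ ⟨E i, by
      show x (E.symm (E i)) = x i
      rw [E.symm_apply_apply]⟩
  exact isAlgebraic_algebraMap
    (⟨x i, hmem⟩ : IntermediateField.adjoin ℚ (Set.range (x ∘ E.symm)))

/-- The generic linear forms are dependent. -/
theorem dep (hTrU : S_TrU) {ι : Type} [Fintype ι] (r : ℕ) (ξ : ι → ℂ) (hr : Tr ξ r)
    (u : Fin (r + 1) × ι → ℂ) :
    ¬ AlgebraicIndependent ℚ (Sum.elim u (psi u ξ) : BU ι (r + 1) → ℂ) := by
  intro hind
  obtain ⟨b, -, hb⟩ := hr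
  let z : (Fin (r + 1) × ι) ⊕ Fin r → ℂ := Sum.elim u (ξ ∘ b)
  have hmem : ∀ p, u p ∈ IntermediateField.adjoin ℚ (Set.range z) := fun p =>
    IntermediateField.subset_adjoin _ _ ⟨Sum.inl p, rfl⟩
  have hu : ∀ p, IsAlgebraic (IntermediateField.adjoin ℚ (Set.range z)) (u p) := fun p =>
    isAlgebraic_algebraMap (⟨u p, hmem p⟩ : IntermediateField.adjoin ℚ (Set.range z))
  have hξ : ∀ j, IsAlgebraic (IntermediateField.adjoin ℚ (Set.range z)) (ξ j) := by
    intro j
    refine alg_mono (IntermediateField.adjoin.mono ℚ _ _ ?_) (hb j)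
    rintro _ ⟨i, rfl⟩
    exact ⟨Sum.inr i, rfl⟩
  have hall : ∀ i, IsAlgebraic (IntermediateField.adjoin ℚ (Set.range z))
      ((Sum.elim u (psi u ξ) : BU ι (r + 1) → ℂ) i) := by
    rintro (p | i)
    · exact hu p
    · show IsAlgebraic _ (∑ j, u (i, j) * ξ j)
      exact Finset.sum_induction _ (IsAlgebraic _) (fun _ _ h h' => h.add h') isAlgebraic_zero
        fun j _ => (hu _).mul (hξ j)
  have h1 := hTrU _ _ ℂ _ z _ (tr_of_indep _ hind) hall
  have h2 : Nat.card ((Fin (r + 1) × ι) ⊕ Fin (r + 1)) = (r + 1) * Fintype.card ι + (r + 1) := by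
    rw [Nat.card_eq_fintype_card, Fintype.card_sum, Fintype.card_prod, Fintype.card_fin]
  have h3 : Nat.card ((Fin (r + 1) × ι) ⊕ Fin r) = (r + 1) * Fintype.card ι + r := by
    rw [Nat.card_eq_fintype_card, Fintype.card_sum, Fintype.card_prod, Fintype.card_fin,
      Fintype.card_fin]
  omega

/-- A relation over `ℤ`. -/
theorem exists_rel {σ : Type} (x : σ → ℂ) (hx : ¬ AlgebraicIndependent ℚ x) :
    ∃ P : MvPolynomial σ ℤ, P ≠ 0 ∧ aeval x P = 0 := by
  by_contra h
  push Not at h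
  have h1 : AlgebraicIndependent ℤ x := by
    refine (injective_iff_map_eq_zero _).2 fun P hP => ?_
    by_contra h'
    exact h P h' hP
  have h2 : Algebra.IsAlgebraic ℤ ℚ :=
    (IsFractionRing.comap_isAlgebraic_iff (A := ℤ) (K := ℚ) (C := ℚ)).2 inferInstance
  exact hx (h1.extendScalars ℚ)

/-- An irreducible relation. -/
theorem exists_irr {σ : Type} (x : σ → ℂ) (P : MvPolynomial σ ℤ) (hP : P ≠ 0)
    (h0 : aeval x P = 0) : ∃ G : MvPolynomial σ ℤ, Irreducible G ∧ aeval x G = 0 := by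
  induction P using WfDvdMonoid.induction_on_irreducible with
  | zero => exact absurd rfl hP
  | unit u hu =>
    have h1 : IsUnit (aeval x u) := hu.map (aeval (R := ℤ) x)
    rw [h0] at h1
    exact absurd h1 not_isUnit_zero
  | mul a i ha hi ih =>
    rw [map_mul] at h0
    rcases mul_eq_zero.1 h0 with h1 | h1
    · exact ⟨i, hi, h1⟩
    · exact ih ha h1

end LFeAux

open LFeAux

/-- **LFe.** Existence of a form. -/
theorem pLFe (hLId : S_LId) (hTrU : S_TrU) (hGnx : S_Gnx) : S_LFe := by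
  intro ι _ _ r ξ hr
  obtain ⟨u, -, hu⟩ := hGnx ι (Fin (r + 1) × ι) ξ (fun _ => 0) 1 one_pos
  obtain ⟨P, hP, h0⟩ := exists_rel _ (dep hTrU r ξ hr u)
  obtain ⟨G, hG, hG0⟩ := exists_irr _ P hP h0
  exact ⟨G, hG, hLId ι (r + 1) ξ ξ G u (Spc.refl ξ) hu hG0⟩

end Pool.Agent.SMQ
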