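import Pool.Agent.Lib.MP_452a87_nt.SpecL

set_option autoImplicit false

namespace Pool.Agent.SMQ

open MvPolynomial

/-- Substituting polynomials of total degree at most one does not increase the total degree. -/
lemma LG_deg {σ τ R : Type} [CommRing R] (φ : σ → MvPolynomial τ R) (hφ : ∀ s, (φ s).totalDegree ≤ 1)
    (P : MvPolynomial σ R) : (aeval φ P).totalDegree ≤ P.totalDegree := by
  rw [aeval_def, eval₂_eq]
  apply totalDegree_finsetSum_le
  intro d hd
  refine (totalDegree_mul _ _).trans ?_
  have h1 : (algebraMap R (MvPolynomial τ R) (coeff d P)).totalDegree = 0 := by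
    rw [algebraMap_eq]; exact totalDegree_C _
  rw [h1, zero_add]
  refine (totalDegree_finsetProd _ _).trans ?_
  refine le_trans ?_ (le_totalDegree hd)
  rw [Finsupp.sum]
  apply Finset.sum_le_sum
  intro i _
  refine (totalDegree_pow _ _).trans ?_
  calc d i * (φ i).totalDegree ≤ d i * 1 := Nat.mul_le_mul_left _ (hφ i)
    _ = d i := mul_one _

lemma LG_fin (h1 : S_LG1) (n : ℕ) : ∀ (k : ℕ) (P : Fin k → MvPolynomial (Fin n) ℂ) (a : Fin k → Fin n → ℂ) (D : ℕ),
    (∀ i, Dsc (a i)) → ∑ i, (P i).totalDegree ≤ D →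
    ∃ x : Fin n → ℂ, Dsc x ∧ ∏ i, ‖aeval (a i) (P i)‖ ≤ 2 ^ (n * D) * ∏ i, ‖aeval x (P i)‖ := by
  induction n with
  | zero =>
    intro k P a D ha hD
    refine ⟨Fin.elim0, fun p => Fin.elim0 p, ?_⟩
    have : ∀ i, a i = Fin.elim0 := fun i => funext (fun p => Fin.elim0 p)
    simp only [this, zero_mul, pow_zero, one_mul]
    exact le_rfl
  | succ n ih =>
    intro k P a D ha hD
    -- insert the first coordinate of `a i`
    obtain ⟨y, hy, hy2⟩ := ih k (fun i => aeval (Fin.cons (C (a i 0)) X : Fin (n + 1) → MvPolynomial (Fin n) ℂ) (P i))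
      (fun i p => a i p.succ) D (fun i p => ha i _) (le_trans (Finset.sum_le_sum (fun i _ => LG_deg _ (by
        intro s
        refine Fin.cases ?_ (fun s => ?_) s
        · simp
        · simp [totalDegree_X]) _)) hD)
    obtain ⟨b, hb, hb2⟩ := h1 k (fun i => aeval (Fin.cons Polynomial.X (fun p => Polynomial.C (y p)) : Fin (n + 1) → Polynomial ℂ) (P i))
      (fun i => a i 0) D (fun i => ha i 0) (le_trans (Finset.sum_le_sum (fun i _ => by
        have := MvPolynomial.aeval_natDegree_le (P i) (le_refl _)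
          (Fin.cons Polynomial.X (fun p => Polynomial.C (y p)) : Fin (n + 1) → Polynomial ℂ) (n := 1) (by
            intro s
            refine Fin.cases ?_ (fun s => ?_) s
            · simp
            · simp)
        simpa using this)) hD)
    refine ⟨Fin.cons b y, ?_, ?_⟩
    · intro s
      refine Fin.cases ?_ (fun s => ?_) s
      · exact hb
      · exact hy s
    have e1 : ∀ (i : Fin k) (w : Fin n → ℂ),
        aeval w (aeval (Fin.cons (C (a i 0)) X : Fin (n + 1) → MvPolynomial (Fin n) ℂ) (P i)) =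
        aeval (Fin.cons (a i 0) w : Fin (n + 1) → ℂ) (P i) := by
      intro i w
      rw [← AlgHom.comp_apply]
      congr 1
      apply MvPolynomial.algHom_ext
      intro s
      refine Fin.cases ?_ (fun s => ?_) s
      · simp
      · simp
    have e2 : ∀ (i : Fin k) (c : ℂ),
        (aeval (Fin.cons Polynomial.X (fun p => Polynomial.C (y p)) : Fin (n + 1) → Polynomial ℂ) (P i)).eval c =
        aeval (Fin.cons c y : Fin (n + 1) → ℂ) (P i) := by
      intro i c
      rw [← Polynomial.coe_aeval_eq_eval, ← AlgHom.comp_apply]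
      congr 1
      apply MvPolynomial.algHom_ext
      intro s
      refine Fin.cases ?_ (fun s => ?_) s
      · simp
      · simp
    have e3 : ∀ i, (Fin.cons (a i 0) (fun p => a i p.succ) : Fin (n + 1) → ℂ) = a i := fun i => Fin.cons_self_tail _
    simp only [e1, e3] at hy2
    simp only [e2] at hb2
    calc ∏ i, ‖aeval (a i) (P i)‖ ≤ 2 ^ (n * D) * ∏ i, ‖aeval (Fin.cons (a i 0) y : Fin (n + 1) → ℂ) (P i)‖ := hy2
      _ ≤ 2 ^ (n * D) * (2 ^ D * ∏ i, ‖aeval (Fin.cons b y : Fin (n + 1) → ℂ) (P i)‖) :=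
        mul_le_mul_of_nonneg_left hb2 (by positivity)
      _ = _ := by ring

theorem pLG (h1 : S_LG1) : S_LG := by
  intro σ _ k P a D ha hD
  classical
  set e := Fintype.equivFin σ with he
  obtain ⟨x, hx, hx2⟩ := LG_fin h1 (Fintype.card σ) k (fun i => rename e (P i)) (fun i => a i ∘ e.symm) D
    (fun i p => ha i _) (le_trans (Finset.sum_le_sum (fun i _ => totalDegree_rename_le e _)) hD)
  refine ⟨x ∘ e, fun p => hx _, ?_⟩
  have e1 : ∀ i, aeval (a i ∘ e.symm) (rename e (P i)) = aeval (a i) (P i) := by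
    intro i
    rw [aeval_rename]
    congr 2
    funext p
    simp
  simp only [e1, aeval_rename] at hx2
  exact hx2

end Pool.Agent.SMQ
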