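import Pool.Agent.Lib.MP_452a87_nt.SpecL

set_option autoImplicit false

namespace Pool.Agent.SMQ

/-- The Mahler measure is at most the maximum on the unit circle. -/
lemma LG1_sup (P : Polynomial ℂ) (B : ℝ) (hB : 0 < B) (h : ∀ z : ℂ, ‖z‖ = 1 → ‖P.eval z‖ ≤ B) :
    P.mahlerMeasure ≤ B := by
  by_cases hP : P = 0
  · rw [hP, Polynomial.mahlerMeasure_zero]
    exact hB.le
  have hc : ((B⁻¹ : ℝ) : ℂ) ≠ 0 := by
    exact_mod_cast (inv_pos.mpr hB).ne'
  set Q : Polynomial ℂ := Polynomial.C ((B⁻¹ : ℝ) : ℂ) * P with hQ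
  have hQ0 : Q ≠ 0 := mul_ne_zero (by simpa using hc) hP
  have h1 : Q.logMahlerMeasure ≤ 0 := by
    rw [Polynomial.logMahlerMeasure_def]
    apply Real.circleAverage_mono_on_of_le_circle
    · exact (analyticOnNhd_id.aeval_polynomial Q).meromorphicOn.circleIntegrable_log_norm
    · intro x hx
      have hx1 : ‖x‖ = 1 := by simpa using hx
      apply Real.log_nonpos (norm_nonneg _)
      rw [hQ, Polynomial.eval_mul, Polynomial.eval_C, norm_mul, Complex.norm_real, Real.norm_eq_abs,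
        abs_of_pos (inv_pos.mpr hB), inv_mul_le_iff₀ hB, mul_one]
      exact h x hx1
  have h2 : Q.mahlerMeasure ≤ 1 := by
    rw [Polynomial.mahlerMeasure_def_of_ne_zero hQ0]
    exact Real.exp_le_one_iff.mpr h1
  rw [hQ, Polynomial.mahlerMeasure_mul, Polynomial.mahlerMeasure_const, Complex.norm_real, Real.norm_eq_abs,
        abs_of_pos (inv_pos.mpr hB), inv_mul_le_iff₀ hB, mul_one] at h2
  exact h2

lemma LG1_val (P : Polynomial ℂ) (a : ℂ) (ha : ‖a‖ ≤ 1) : ‖P.eval a‖ ≤ 2 ^ P.natDegree * P.mahlerMeasure := by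
  rw [Polynomial.eval_eq_sum_range]
  calc ‖∑ i ∈ Finset.range (P.natDegree + 1), P.coeff i * a ^ i‖
      ≤ ∑ i ∈ Finset.range (P.natDegree + 1), ‖P.coeff i * a ^ i‖ := norm_sum_le _ _
    _ ≤ ∑ i ∈ Finset.range (P.natDegree + 1), (P.natDegree.choose i : ℝ) * P.mahlerMeasure := by
        apply Finset.sum_le_sum
        intro i _
        rw [norm_mul, norm_pow]
        have h1 := Polynomial.norm_coeff_le_choose_mul_mahlerMeasure i P
        have h2 : ‖a‖ ^ i ≤ 1 := pow_le_one₀ (norm_nonneg _) ha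
        calc ‖P.coeff i‖ * ‖a‖ ^ i ≤ ‖P.coeff i‖ * 1 := mul_le_mul_of_nonneg_left h2 (norm_nonneg _)
          _ ≤ _ := by rw [mul_one]; exact h1
    _ = 2 ^ P.natDegree * P.mahlerMeasure := by
        rw [← Finset.sum_mul]
        congr 1
        exact_mod_cast Nat.sum_range_choose P.natDegree

theorem pLG1 : S_LG1 := by
  intro k P a D ha hD
  -- a maximum on the circle
  have hcont : Continuous (fun x : ℂ => ∏ i, ‖(P i).eval x‖) := by fun_prop
  have hcomp : IsCompact (Metric.sphere (0 : ℂ) 1) := isCompact_sphere 0 1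
  obtain ⟨x, hx, hmax⟩ := hcomp.exists_isMaxOn ⟨(1 : ℂ), by simp⟩ hcont.continuousOn
  have hx1 : ‖x‖ = 1 := by simpa using hx
  refine ⟨x, hx1.le, ?_⟩
  set B : ℝ := ∏ i, ‖(P i).eval x‖ with hBdef
  have hB0 : 0 ≤ B := Finset.prod_nonneg (fun i _ => norm_nonneg _)
  have hM : (∏ i, (P i).mahlerMeasure) ≤ B := by
    have h1 : (∏ i, P i).mahlerMeasure = ∏ i, (P i).mahlerMeasure := by
      have := Polynomial.prod_mahlerMeasure_eq_mahlerMeasure_prod (Finset.univ.val.map P)
      rw [Multiset.map_map] at this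
      exact this
    rw [← h1]
    apply le_of_forall_pos_le_add
    intro ε hε
    apply LG1_sup _ _ (by linarith)
    intro z hz
    rw [Polynomial.eval_prod, norm_prod]
    have := hmax (show z ∈ Metric.sphere (0 : ℂ) 1 by simpa using hz)
    simp only [Set.mem_ofPred_eq] at this
    linarith
  calc ∏ i, ‖(P i).eval (a i)‖ ≤ ∏ i, ((2 : ℝ) ^ (P i).natDegree * (P i).mahlerMeasure) :=
        Finset.prod_le_prod (fun i _ => norm_nonneg _) (fun i _ => LG1_val _ _ (ha i))
    _ = 2 ^ (∑ i, (P i).natDegree) * ∏ i, (P i).mahlerMeasure := by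
        rw [Finset.prod_mul_distrib, Finset.prod_pow_eq_pow_sum]
    _ ≤ 2 ^ D * B := by
        apply mul_le_mul _ hM (Finset.prod_nonneg (fun i _ => Polynomial.mahlerMeasure_nonneg _)) (by positivity)
        exact pow_le_pow_right₀ (by norm_num) hD

end Pool.Agent.SMQ
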