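import Pool.Agent.Lib.MP_452a87_nt.SpecL

/-!
# LG2: the sections
-/

set_option autoImplicit false

namespace Pool.Agent.SMQ

open MvPolynomial

namespace LG2Aux

/-- The variables of `G(v, T; a)` as polynomials in `v, T` with coefficients in `S`. -/
private noncomputable def sv {ι : Type} {r : ℕ} {S : Type} [CommRing S] (a : BU ι r → S) :
    BU ι (r + 1) → MvPolynomial (Option ι) S :=
  Sum.elim
    (fun p => Fin.cases (motive := fun _ => MvPolynomial (Option ι) S)
      (X (some p.2)) (fun i => C (a (Sum.inl (i, p.2)))) p.1)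
    (Fin.cases (X none) (fun i => C (a (Sum.inr i))))

private lemma eval_sv {ι : Type} {r : ℕ} {S : Type} [CommRing S] (a : BU ι r → S) (ψ : S →+* ℂ)
    (u : Fin r × ι → ℂ) (t : Fin r → ℂ) (hu : ∀ p, ψ (a (Sum.inl p)) = u p)
    (ht : ∀ i, ψ (a (Sum.inr i)) = t i) (G : MvPolynomial (BU ι (r + 1)) ℤ) (y : Option ι → ℂ) :
    eval y (MvPolynomial.map ψ (aeval (sv a) G)) =
      aeval (Sum.elim (full (fun j => y (some j)) u) (Fin.cons (y none) t : Fin (r + 1) → ℂ)) G := by
  have h := comp_aeval_apply (R := ℤ) (f := sv a)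
    (((eval y).comp (MvPolynomial.map ψ)).toIntAlgHom) G
  refine h.trans ?_
  congr 2
  funext b
  rcases b with p | i
  · obtain ⟨i, j⟩ := p
    refine Fin.cases ?_ (fun i => ?_) i
    · simp [sv, full]
    · simp [sv, full, hu]
  · refine Fin.cases ?_ (fun i => ?_) i
    · simp [sv]
    · simp [sv, ht]

/-- The same with the row `0` equal to `v` over `ℤ`, as a polynomial in `T`. -/
private noncomputable def sp {ι : Type} {r : ℕ} (v : ι → ℤ) :
    BU ι (r + 1) → Polynomial (MvPolynomial (BU ι r) ℤ) :=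
  Sum.elim
    (fun p => Fin.cases (motive := fun _ => Polynomial (MvPolynomial (BU ι r) ℤ))
      ((v p.2 : Polynomial (MvPolynomial (BU ι r) ℤ)))
      (fun i => Polynomial.C (X (Sum.inl (i, p.2)))) p.1)
    (Fin.cases Polynomial.X (fun i => Polynomial.C (X (Sum.inr i))))

private lemma eval_sp {ι : Type} {r : ℕ} (v : ι → ℤ) (u : Fin r × ι → ℂ) (t : Fin r → ℂ)
    (G : MvPolynomial (BU ι (r + 1)) ℤ) (T : ℂ) :
    Polynomial.eval T (Polynomial.map (aeval (R := ℤ) (Sum.elim u t)).toRingHom (aeval (sp v) G)) =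
      aeval (Sum.elim (full (fun j => (v j : ℂ)) u) (Fin.cons T t : Fin (r + 1) → ℂ)) G := by
  have h := comp_aeval_apply (R := ℤ) (f := sp v)
    (((Polynomial.evalRingHom T).comp (Polynomial.mapRingHom
      (aeval (R := ℤ) (Sum.elim u t)).toRingHom)).toIntAlgHom) G
  refine h.trans ?_
  congr 2
  funext b
  rcases b with p | i
  · obtain ⟨i, j⟩ := p
    refine Fin.cases ?_ (fun i => ?_) i
    · simp [sp, full]
    · simp [sp, full]
  · refine Fin.cases ?_ (fun i => ?_) i
    · simp [sp]
    · simp [sp]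

end LG2Aux

theorem pLG2 (hLGp : S_LGp) (hLRe : S_LRe) (hExt : S_Ext) (hP1 : S_P1) (hGnx : S_Gnx) : S_LG2 := by
  intro ι _ _ r ξ G hTr hFrm
  obtain ⟨u', -, hgen⟩ := hGnx ι (Fin r × ι) ξ 0 1 one_pos
  obtain ⟨g, z0, e, hg1, hg2, he0, hspc0, hG, hprod⟩ := hLGp ι r ξ G u' hTr hFrm hgen
  obtain ⟨hindu, hind⟩ := hP1 ι r ξ u' hTr hgen
  set t' := psi u' ξ with ht'
  refine ⟨g, e, hg1, hg2, he0, fun f d hf hd => ?_⟩
  obtain ⟨R, hR⟩ := hLRe ι r g u' t' G z0 e hind hG hprod f d hd
  have hinduZ : AlgebraicIndependent ℤ u' :=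
    hindu.restrictScalars (FaithfulSMul.algebraMap_injective ℤ ℚ)
  have hindZ : AlgebraicIndependent ℤ (Sum.elim u' t') :=
    hind.restrictScalars (FaithfulSMul.algebraMap_injective ℤ ℚ)
  have heu : aeval u' e ≠ 0 := by
    intro h0
    exact he0 (hinduZ (by rw [h0, map_zero]))
  refine ⟨R, ?_, ?_⟩
  · rintro rfl
    rw [map_zero, zero_eq_mul] at hR
    rcases hR with h | h
    · exact absurd h (pow_ne_zero d heu)
    · obtain ⟨i, -, hi⟩ := Finset.prod_eq_zero_iff.1 h
      exact hf ((hspc0 i).2 f hi)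
  intro u t hue
  set x : BU ι r → ℂ := Sum.elim u' t' with hx
  set x' : BU ι r → ℂ := Sum.elim u t with hx'
  have hxx : Spc x x' := by
    intro P hP
    have : P = 0 := hindZ (by rw [hP, map_zero])
    rw [this, map_zero]
  have hee : aeval x (rename Sum.inl e) = aeval u' e := by
    rw [aeval_rename]
    rfl
  have hee' : aeval x' (rename Sum.inl e) = aeval u e := by
    rw [aeval_rename]
    rfl
  obtain ⟨z', hz'⟩ := hExt (BU ι r) (Fin g × ι) ℂ ℂ x x' (fun p => z0 p.1 p.2) hxx (by
    rintro ⟨i, j⟩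
    have hmap : Polynomial.map (aeval (R := ℤ) x).toRingHom
        (aeval (LG2Aux.sp (Pi.single j 1)) G) =
        Polynomial.C (aeval u' e) * ∏ i, (Polynomial.X - Polynomial.C (z0 i j)) := by
      refine Polynomial.funext fun T => ?_
      rw [LG2Aux.eval_sp, hG]
      simp only [Polynomial.eval_mul, Polynomial.eval_C, Polynomial.eval_prod,
        Polynomial.eval_sub, Polynomial.eval_X, dot]
      congr 1
      refine Finset.prod_congr rfl fun i _ => ?_
      congr 1
      rw [Finset.sum_eq_single j]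
      · simp
      · intro b _ hb
        simp [hb]
      · intro h
        exact absurd (Finset.mem_univ j) h
    refine ⟨aeval (LG2Aux.sp (Pi.single j 1)) G, ?_, ?_⟩
    · have h1 := congrArg Polynomial.leadingCoeff hmap
      rw [Polynomial.leadingCoeff_map_of_injective hindZ, Polynomial.leadingCoeff_mul,
        Polynomial.leadingCoeff_C,
        (Polynomial.monic_prod_X_sub_C (fun i => z0 i j) Finset.univ).leadingCoeff, mul_one,
        ← hee] at h1
      rw [hindZ h1, hee']
      exact hue
    · rw [Polynomial.eval₂_eq_eval_map, hmap, Polynomial.eval_mul, Polynomial.eval_prod,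
        Finset.prod_eq_zero (Finset.mem_univ i) (by simp), mul_zero])
  have hzi : ∀ i, Spc (Sum.elim x (z0 i)) (Sum.elim x' (fun j => z' (i, j))) := by
    intro i
    have h := hz'.comp (Sum.map id (fun j => (i, j)) : BU ι r ⊕ ι → BU ι r ⊕ (Fin g × ι))
    have e1 : (Sum.elim x (fun p : Fin g × ι => z0 p.1 p.2) ∘
        (Sum.map id (fun j => (i, j)) : BU ι r ⊕ ι → BU ι r ⊕ (Fin g × ι))) =
        Sum.elim x (z0 i) := by
      funext b
      rcases b with b | j <;> rfl
    have e2 : (Sum.elim x' z' ∘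
        (Sum.map id (fun j => (i, j)) : BU ι r ⊕ ι → BU ι r ⊕ (Fin g × ι))) =
        Sum.elim x' (fun j => z' (i, j)) := by
      funext b
      rcases b with b | j <;> rfl
    rwa [e1, e2] at h
  refine ⟨fun i j => z' (i, j), fun i => ⟨?_, ?_⟩, ?_, ?_⟩
  · exact ((hspc0 i).1.comp Sum.inr).trans ((hzi i).comp Sum.inr)
  · funext k
    have h1 : aeval (Sum.elim x ξ) (X (Sum.inl (Sum.inr k)) -
        ∑ j, X (Sum.inl (Sum.inl (k, j))) * X (Sum.inr j) :
        MvPolynomial (BU ι r ⊕ ι) ℤ) = 0 := by
      simp only [map_sub, map_sum, map_mul, aeval_X, Sum.elim_inl, Sum.elim_inr, hx]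
      rw [sub_eq_zero]
      rfl
    have h2 := hzi i _ ((hspc0 i).1 _ h1)
    simp only [map_sub, map_sum, map_mul, aeval_X, Sum.elim_inl, Sum.elim_inr, hx'] at h2
    exact (sub_eq_zero.1 h2).symm
  · -- the identity for `G`
    let S := MvPolynomial (BU ι r ⊕ (Fin g × ι)) ℤ
    let 𝒢 : MvPolynomial (Option ι) S :=
      aeval (LG2Aux.sv (fun b : BU ι r => (X (Sum.inl b) : S))) G -
        C (rename (Sum.inl ∘ Sum.inl) e : S) *
          ∏ i : Fin g, (X none - ∑ j, X (some j) * C (X (Sum.inr (i, j)) : S))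
    have hev : ∀ (w : BU ι r → ℂ) (uw : Fin r × ι → ℂ) (tw : Fin r → ℂ) (zw : Fin g × ι → ℂ)
        (y : Option ι → ℂ), w = Sum.elim uw tw →
        eval y (MvPolynomial.map (aeval (R := ℤ) (Sum.elim w zw)).toRingHom 𝒢) =
          aeval (Sum.elim (full (fun j => y (some j)) uw)
            (Fin.cons (y none) tw : Fin (r + 1) → ℂ)) G -
          aeval uw e * ∏ i : Fin g, (y none - dot (fun j => y (some j)) (fun j => zw (i, j))) := by
      intro w uw tw zw y hw
      simp only [𝒢, map_sub, map_mul]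
      congr 1
      · refine LG2Aux.eval_sv _ _ uw tw (fun p => ?_) (fun i => ?_) G y
        · change aeval (Sum.elim w zw) (X (Sum.inl (Sum.inl p))) = _
          rw [aeval_X, hw]
          rfl
        · change aeval (Sum.elim w zw) (X (Sum.inl (Sum.inr i))) = _
          rw [aeval_X, hw]
          rfl
      · congr 1
        · rw [MvPolynomial.map_C, eval_C]
          change aeval (Sum.elim w zw) (rename (Sum.inl ∘ Sum.inl) e) = _
          rw [aeval_rename, hw]
          rfl
        · rw [map_prod, map_prod]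
          refine Finset.prod_congr rfl fun i _ => ?_
          simp only [map_sub, map_sum, map_mul, MvPolynomial.map_C, MvPolynomial.map_X, eval_X,
            eval_C, dot]
          congr 1
          refine Finset.sum_congr rfl fun j _ => ?_
          congr 1
          change aeval (Sum.elim w zw) (X (Sum.inr (i, j))) = _
          rw [aeval_X]
          rfl
    have hz : MvPolynomial.map (aeval (R := ℤ)
        (Sum.elim x (fun p : Fin g × ι => z0 p.1 p.2))).toRingHom 𝒢 = 0 := by
      refine MvPolynomial.funext fun y => ?_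
      rw [hev x u' t' _ y hx, hG, map_zero, sub_self]
    have hz2 : MvPolynomial.map (aeval (R := ℤ) (Sum.elim x' z')).toRingHom 𝒢 = 0 := by
      ext μ
      rw [coeff_map, coeff_zero]
      refine hz' _ ?_
      have := congrArg (coeff μ) hz
      rwa [coeff_map, coeff_zero] at this
    intro v T
    have h1 := hev x' u t z' (fun o => o.elim T v) hx'
    rw [hz2, map_zero] at h1
    exact sub_eq_zero.1 h1.symm
  · -- the identity for `R`
    have h1 : aeval (Sum.elim x (fun p : Fin g × ι => z0 p.1 p.2))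
        (rename Sum.inl R - (rename (Sum.inl ∘ Sum.inl) e) ^ d *
          ∏ i : Fin g, rename (fun j => Sum.inr (i, j)) f :
          MvPolynomial (BU ι r ⊕ (Fin g × ι)) ℤ) = 0 := by
      rw [map_sub, map_mul, map_pow, map_prod, aeval_rename, aeval_rename, sub_eq_zero]
      refine hR.trans ?_
      congr 1
      refine Finset.prod_congr rfl fun i _ => ?_
      rw [aeval_rename]
      rfl
    have h2 := hz' _ h1
    rw [map_sub, map_mul, map_pow, map_prod, aeval_rename, aeval_rename, sub_eq_zero] at h2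
    refine Eq.trans ?_ (h2.trans ?_)
    · rfl
    · congr 1
      refine Finset.prod_congr rfl fun i _ => ?_
      rw [aeval_rename]
      rfl

end Pool.Agent.SMQ
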