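import Pool.Agent.Lib.MP_452a87_nt.SpecL

/-!
# The form at a generic section (LGp)
-/

set_option autoImplicit false

namespace Pool.Agent.SMQ

open MvPolynomial

namespace LGpAux

theorem psi_full {ι : Type} [Fintype ι] {r : ℕ} (v : ι → ℂ) (u : Fin r × ι → ℂ) (θ : ι → ℂ) :
    psi (full v u) θ = (Fin.cons (dot v θ) (psi u θ) : Fin (r + 1) → ℂ) := by
  funext i
  refine Fin.cases ?_ (fun i => ?_) i
  · simp [psi, dot]
  · simp [psi]

/-- Divisors of nonzero polynomials in the left variables are polynomials in the left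
variables. -/
theorem div_inl {α β : Type} (l : MvPolynomial α ℤ) (hl : l ≠ 0)
    (P : MvPolynomial (α ⊕ β) ℤ) (h : P ∣ rename Sum.inl l) :
    ∃ l' : MvPolynomial α ℤ, P = rename Sum.inl l' := by
  let Ψ : MvPolynomial (α ⊕ β) ℤ ≃ₐ[ℤ] MvPolynomial β (MvPolynomial α ℤ) :=
    (renameEquiv ℤ (Equiv.sumComm α β)).trans (sumAlgEquiv ℤ β α)
  have hΨ : ∀ q : MvPolynomial α ℤ, Ψ (rename Sum.inl q) = C q := by
    intro q
    induction q using MvPolynomial.induction_on with
    | C a =>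
      rw [rename_C]
      simp [Ψ]
    | add p q hp hq => rw [map_add, map_add, hp, hq, map_add]
    | mul_X p i hp =>
      rw [map_mul, map_mul, hp, map_mul]
      congr 1
      simp [Ψ]
  obtain ⟨Q, hQ⟩ := h
  have h1 : Ψ P * Ψ Q = C l := by
    rw [← map_mul, ← hQ, hΨ]
  have hP0 : Ψ P ≠ 0 := by
    intro h0
    rw [h0, zero_mul] at h1
    exact hl ((C_injective β (MvPolynomial α ℤ)) (by rw [← h1, map_zero]))
  have hQ0 : Ψ Q ≠ 0 := by
    intro h0
    rw [h0, mul_zero] at h1
    exact hl ((C_injective β (MvPolynomial α ℤ)) (by rw [← h1, map_zero]))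
  have h2 := totalDegree_mul_of_isDomain hP0 hQ0
  rw [h1, totalDegree_C] at h2
  have h3 : (Ψ P).totalDegree = 0 := by omega
  rw [totalDegree_eq_zero_iff_eq_C] at h3
  refine ⟨coeff 0 (Ψ P), Ψ.injective ?_⟩
  rw [hΨ]
  exact h3

/-- A generic first row. -/
theorem gen_full {ι : Type} {r : ℕ} (ξ : ι → ℂ) (u : Fin r × ι → ℂ) (v : ι → ℂ)
    (hu : GenOver u ξ) (hv : GenOver v (Sum.elim ξ u)) : GenOver (full v u) ξ := by
  have hle : IntermediateField.adjoin ℚ (Set.range ξ) ≤
      IntermediateField.adjoin ℚ (Set.range (Sum.elim ξ u)) := by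
    refine IntermediateField.adjoin.mono _ _ _ ?_
    rintro _ ⟨p, rfl⟩
    exact ⟨Sum.inl p, rfl⟩
  let φ : IntermediateField.adjoin ℚ (Set.range ξ) →+*
      IntermediateField.adjoin ℚ (Set.range (Sum.elim ξ u)) := (IntermediateField.inclusion hle).toRingHom
  let _ : Algebra (IntermediateField.adjoin ℚ (Set.range ξ))
    (IntermediateField.adjoin ℚ (Set.range (Sum.elim ξ u))) := φ.toAlgebra
  have : IsScalarTower (IntermediateField.adjoin ℚ (Set.range ξ))
    (IntermediateField.adjoin ℚ (Set.range (Sum.elim ξ u))) ℂ :=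
    IsScalarTower.of_algebraMap_eq fun x => rfl
  have h1 : AlgebraicIndependent (IntermediateField.adjoin ℚ (Set.range ξ)) (Sum.elim v u) := by
    refine AlgebraicIndependent.sumElim_of_tower
      (S := IntermediateField.adjoin ℚ (Set.range (Sum.elim ξ u))) hu ?_ hv
    rintro _ ⟨p, rfl⟩
    exact ⟨⟨u p, IntermediateField.subset_adjoin ℚ _ ⟨Sum.inr p, rfl⟩⟩, rfl⟩
  have h2 := h1.comp (fun p : Fin (r + 1) × ι =>
    Fin.cases (motive := fun _ => ι ⊕ (Fin r × ι)) (Sum.inl p.2) (fun i => Sum.inr (i, p.2)) p.1) (by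
    rintro ⟨i, j⟩ ⟨i', j'⟩ h
    refine Fin.cases (fun h => ?_) (fun i h => ?_) i h
    · refine Fin.cases (fun h => ?_) (fun i' h => ?_) i' h
      · simpa using h
      · simp at h
    · refine Fin.cases (fun h => ?_) (fun i' h => ?_) i' h
      · simp at h
      · simpa using h)
  have h3 : (Sum.elim v u) ∘ (fun p : Fin (r + 1) × ι =>
      Fin.cases (motive := fun _ => ι ⊕ (Fin r × ι)) (Sum.inl p.2) (fun i => Sum.inr (i, p.2)) p.1) =
      full v u := by
    funext ⟨i, j⟩
    refine Fin.cases ?_ (fun i => ?_) i <;> rfl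
  rw [h3] at h2
  exact h2

/-- The generic first row and the point `(u', t')`. -/
theorem ind_full {ι : Type} [Fintype ι] {r : ℕ} (ξ : ι → ℂ) (u : Fin r × ι → ℂ) (v : ι → ℂ)
    (hut : AlgebraicIndependent ℚ (Sum.elim u (psi u ξ))) (hv : GenOver v (Sum.elim ξ u)) :
    AlgebraicIndependent ℚ (Sum.elim (full v u) (psi u ξ)) := by
  have h1 : AlgebraicIndependent ℚ (Sum.elim v (Sum.elim u (psi u ξ))) := by
    refine AlgebraicIndependent.sumElim_of_tower
      (S := IntermediateField.adjoin ℚ (Set.range (Sum.elim ξ u))) hut ?_ hv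
    have hξ : ∀ j, ξ j ∈ IntermediateField.adjoin ℚ (Set.range (Sum.elim ξ u)) := fun j =>
      IntermediateField.subset_adjoin ℚ _ ⟨Sum.inl j, rfl⟩
    have hu : ∀ p, u p ∈ IntermediateField.adjoin ℚ (Set.range (Sum.elim ξ u)) := fun p =>
      IntermediateField.subset_adjoin ℚ _ ⟨Sum.inr p, rfl⟩
    rintro _ ⟨p | i, rfl⟩
    · exact ⟨⟨u p, hu p⟩, rfl⟩
    · exact ⟨⟨psi u ξ i, sum_mem fun j _ => mul_mem (hu _) (hξ j)⟩, rfl⟩
  have h2 := h1.comp (Sum.elim (fun p : Fin (r + 1) × ι =>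
    Fin.cases (motive := fun _ => ι ⊕ ((Fin r × ι) ⊕ Fin r)) (Sum.inl p.2)
      (fun i => Sum.inr (Sum.inl (i, p.2))) p.1) (fun i => Sum.inr (Sum.inr i))) (by
    rintro (⟨i, j⟩ | i) (⟨i', j'⟩ | i') h
    · refine Fin.cases (fun h => ?_) (fun i h => ?_) i h
      · refine Fin.cases (fun h => ?_) (fun i' h => ?_) i' h
        · simpa using h
        · simp at h
      · refine Fin.cases (fun h => ?_) (fun i' h => ?_) i' h
        · simp at h
        · simpa using h
    · refine Fin.cases (fun h => ?_) (fun i h => ?_) i h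
      · simp at h
      · simp at h
    · refine Fin.cases (fun h => ?_) (fun i' h => ?_) i' h
      · simp at h
      · simp at h
    · simpa using h)
  have h3 : (Sum.elim v (Sum.elim u (psi u ξ))) ∘ (Sum.elim (fun p : Fin (r + 1) × ι =>
      Fin.cases (motive := fun _ => ι ⊕ ((Fin r × ι) ⊕ Fin r)) (Sum.inl p.2)
        (fun i => Sum.inr (Sum.inl (i, p.2))) p.1) (fun i => Sum.inr (Sum.inr i))) =
      Sum.elim (full v u) (psi u ξ) := by
    funext p
    rcases p with ⟨i, j⟩ | i
    · refine Fin.cases ?_ (fun i => ?_) i <;> rfl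
    · rfl
  rw [h3] at h2
  exact h2

/-- The polynomial in `v, T` obtained by inserting `u, t`. -/
noncomputable def Gam {ι : Type} {r : ℕ} (u : Fin r × ι → ℂ) (t : Fin r → ℂ) :
    MvPolynomial (BU ι (r + 1)) ℤ →ₐ[ℤ] MvPolynomial (Option ι) ℂ :=
  aeval (Sum.elim
    (fun p => Fin.cases (motive := fun _ => MvPolynomial (Option ι) ℂ)
      (X (some p.2)) (fun i => C (u (i, p.2))) p.1)
    (Fin.cases (X none) (fun i => C (t i))))

theorem eval_Gam {ι : Type} {r : ℕ} (u : Fin r × ι → ℂ) (t : Fin r → ℂ)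
    (G : MvPolynomial (BU ι (r + 1)) ℤ) (y : Option ι → ℂ) :
    eval y (Gam u t G) = aeval (Sum.elim (full (fun j => y (some j)) u)
        (Fin.cons (y none) t : Fin (r + 1) → ℂ)) G := by
  unfold Gam
  have h := comp_aeval_apply (R := ℤ) (Sum.elim
    (fun p : Fin (r + 1) × ι => Fin.cases (motive := fun _ => MvPolynomial (Option ι) ℂ)
      (X (some p.2)) (fun i => C (u (i, p.2))) p.1)
    (Fin.cases (X none) (fun i => C (t i)))) ((eval y).toIntAlgHom) G
  refine h.trans ?_
  congr 2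
  funext b
  rcases b with p | i
  · obtain ⟨i, j⟩ := p
    refine Fin.cases ?_ (fun i => ?_) i
    · simp [full]
    · simp [full]
  · refine Fin.cases ?_ (fun i => ?_) i
    · simp
    · simp

/-- The polynomial in `T_0` obtained by inserting `0` for the row `0`. -/
noncomputable def kap {ι : Type} {r : ℕ} :
    MvPolynomial (BU ι (r + 1)) ℤ →ₐ[ℤ] Polynomial (MvPolynomial (BU ι r) ℤ) :=
  aeval (Sum.elim
    (fun p => Fin.cases (motive := fun _ => Polynomial (MvPolynomial (BU ι r) ℤ))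
      0 (fun i => Polynomial.C (X (Sum.inl (i, p.2)))) p.1)
    (Fin.cases Polynomial.X (fun i => Polynomial.C (X (Sum.inr i)))))

theorem eval_kap {ι : Type} {r : ℕ} (u : Fin r × ι → ℂ) (t : Fin r → ℂ)
    (G : MvPolynomial (BU ι (r + 1)) ℤ) (T : ℂ) :
    Polynomial.eval₂ (aeval (R := ℤ) (Sum.elim u t)).toRingHom T (kap G) =
      aeval (Sum.elim (full 0 u) (Fin.cons T t : Fin (r + 1) → ℂ)) G := by
  unfold kap
  have h := comp_aeval_apply (R := ℤ) (Sum.elim
    (fun p : Fin (r + 1) × ι => Fin.cases (motive := fun _ => Polynomial (MvPolynomial (BU ι r) ℤ))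
      0 (fun i => Polynomial.C (X (Sum.inl (i, p.2)))) p.1)
    (Fin.cases Polynomial.X (fun i => Polynomial.C (X (Sum.inr i)))))
    ((Polynomial.eval₂RingHom (aeval (R := ℤ) (Sum.elim u t)).toRingHom T).toIntAlgHom) G
  refine h.trans ?_
  congr 2
  funext b
  rcases b with p | i
  · obtain ⟨i, j⟩ := p
    refine Fin.cases ?_ (fun i => ?_) i
    · simp [full]
    · simp [full]
  · refine Fin.cases ?_ (fun i => ?_) i
    · simp
    · simp

theorem natDegree_kap {ι : Type} {r : ℕ} (G : MvPolynomial (BU ι (r + 1)) ℤ) :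
    (kap G).natDegree ≤ G.totalDegree := by
  unfold kap
  rw [aeval_def, eval₂_eq]
  apply Polynomial.natDegree_sum_le_of_forall_le
  intro m hm
  refine (Polynomial.natDegree_mul_le).trans ?_
  have h1 : ((algebraMap ℤ (Polynomial (MvPolynomial (BU ι r) ℤ))) (coeff m G)).natDegree = 0 := by
    rw [eq_intCast]
    exact Polynomial.natDegree_intCast _
  rw [h1, zero_add]
  refine (Polynomial.natDegree_prod_le _ _).trans ?_
  refine le_trans ?_ (le_totalDegree hm)
  refine Finset.sum_le_sum fun i _ => ?_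
  refine Polynomial.natDegree_pow_le.trans ?_
  conv_rhs => rw [← mul_one (m i)]
  apply Nat.mul_le_mul_left
  rcases i with p | i
  · obtain ⟨i, j⟩ := p
    refine Fin.cases ?_ (fun i => ?_) i
    · simp
    · simp
  · refine Fin.cases ?_ (fun i => ?_) i
    · simp
    · simp

/-- The polynomial in the point, for an integer row `0`. -/
noncomputable def Pv {ι : Type} [Fintype ι] {r : ℕ} (v : ι → ℤ) :
    MvPolynomial (BU ι (r + 1)) ℤ →ₐ[ℤ] MvPolynomial (BU ι r ⊕ ι) ℤ :=
  aeval (Sum.elim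
    (fun p => Fin.cases (motive := fun _ => MvPolynomial (BU ι r ⊕ ι) ℤ)
      (C (v p.2)) (fun i => X (Sum.inl (Sum.inl (i, p.2)))) p.1)
    (Fin.cases (∑ j, C (v j) * X (Sum.inr j)) (fun i => X (Sum.inl (Sum.inr i)))))

theorem aeval_Pv {ι : Type} [Fintype ι] {r : ℕ} (v : ι → ℤ) (u : Fin r × ι → ℂ) (t : Fin r → ℂ) (y : ι → ℂ)
    (G : MvPolynomial (BU ι (r + 1)) ℤ) :
    aeval (Sum.elim (Sum.elim u t) y) (Pv v G) = aeval (Sum.elim (full (fun j => (v j : ℂ)) u)
        (Fin.cons (dot (fun j => (v j : ℂ)) y) t : Fin (r + 1) → ℂ)) G := by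
  unfold Pv
  have h := comp_aeval_apply (R := ℤ) (Sum.elim
    (fun p : Fin (r + 1) × ι => Fin.cases (motive := fun _ => MvPolynomial (BU ι r ⊕ ι) ℤ)
      (C (v p.2)) (fun i => X (Sum.inl (Sum.inl (i, p.2)))) p.1)
    (Fin.cases (∑ j, C (v j) * X (Sum.inr j)) (fun i => X (Sum.inl (Sum.inr i)))))
    (aeval (R := ℤ) (Sum.elim (Sum.elim u t) y)) G
  refine h.trans ?_
  congr 2
  funext b
  rcases b with p | i
  · obtain ⟨i, j⟩ := p
    refine Fin.cases ?_ (fun i => ?_) i
    · simp [full]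
    · simp [full]
  · refine Fin.cases ?_ (fun i => ?_) i
    · simp [dot]
    · simp

/-- The product of the linear forms. -/
noncomputable def FF {ι : Type} [Fintype ι] {g : ℕ} (z : Fin g → ι → ℂ) : MvPolynomial (Option ι) ℂ :=
  ∏ i, (X none - ∑ j, C (z i j) * X (some j))

theorem eval_FF {ι : Type} [Fintype ι] {g : ℕ} (z : Fin g → ι → ℂ) (w : Option ι → ℂ) :
    eval w (FF z) = ∏ i, (w none - dot (fun j => w (some j)) (z i)) := by
  unfold FF
  simp only [map_prod, map_sub, map_sum, map_mul, eval_X, eval_C, dot]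
  refine Finset.prod_congr rfl fun i _ => ?_
  congr 1
  exact Finset.sum_congr rfl fun j _ => mul_comm _ _

/-- The linear form of a point. -/
noncomputable def ell {ι : Type} [Fintype ι] (y : ι → ℂ) : MvPolynomial ι ℂ := ∑ j, C (y j) * X j

theorem eval_ell {ι : Type} [Fintype ι] (y v : ι → ℂ) : eval v (ell y) = dot v y := by
  unfold ell dot
  simp only [map_sum, map_mul, eval_C, eval_X]
  exact Finset.sum_congr rfl fun j _ => mul_comm _ _

theorem ell_inj {ι : Type} [Fintype ι] [DecidableEq ι] : Function.Injective (ell (ι := ι)) := by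
  intro y y' h
  funext j
  have h1 := congrArg (eval (Pi.single j 1)) h
  rw [eval_ell, eval_ell] at h1
  simpa [dot, Pi.single_apply] using h1

theorem FF_dvd {ι : Type} [Fintype ι] [DecidableEq ι] {g : ℕ} (z : Fin g → ι → ℂ) (hz : Function.Injective z)
    (γ : MvPolynomial (Option ι) ℂ)
    (h : ∀ i, ∀ v : ι → ℤ, eval (fun o : Option ι => o.elim (dot (fun j => (v j : ℂ)) (z i)) fun j => (v j : ℂ)) γ = 0) :
    FF z ∣ γ := by
  by_cases hγ : γ = 0
  · rw [hγ]
    exact dvd_zero _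
  rw [← map_dvd_iff (optionEquivLeft ℂ ι)]
  have hγ' : optionEquivLeft ℂ ι γ ≠ 0 := by
    intro h0
    exact hγ ((optionEquivLeft ℂ ι).injective (by rw [h0, map_zero]))
  have h1 : optionEquivLeft ℂ ι (FF z) =
      ((Finset.univ.val.map fun i => ell (z i)).map fun a => Polynomial.X - Polynomial.C a).prod := by
    rw [Multiset.map_map]
    unfold FF
    rw [map_prod]
    refine Finset.prod_congr rfl fun i _ => ?_
    simp only [map_sub, map_sum, map_mul, optionEquivLeft_X_none, optionEquivLeft_X_some,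
      optionEquivLeft_C, Function.comp_apply, ell]
  rw [h1, Multiset.prod_X_sub_C_dvd_iff_le_roots hγ', Multiset.le_iff_subset]
  · intro a ha
    rw [Multiset.mem_map] at ha
    obtain ⟨i, -, rfl⟩ := ha
    rw [Polynomial.mem_roots hγ', Polynomial.IsRoot]
    refine funext_set (fun _ => Set.range (Int.cast : ℤ → ℂ)) (fun _ => Set.infinite_range_of_injective
      Int.cast_injective) fun x hx => ?_
    have h2 : ∀ j, ∃ n : ℤ, (n : ℂ) = x j := fun j => hx j (Set.mem_univ j)
    choose v hv using h2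
    have hxv : x = fun j => (v j : ℂ) := funext fun j => (hv j).symm
    rw [map_zero, ← h i v, optionEquivLeft_elim_eval, hxv, ← eval_ell, ← Polynomial.eval₂_hom,
      Polynomial.eval₂_eq_eval_map]
  · apply Multiset.Nodup.map _ Finset.univ.nodup
    exact ell_inj.comp hz

end LGpAux

open LGpAux in
theorem pLGp (hLHp : S_LHp) (_hLId : S_LId) (hGau : S_Gau) (hP1 : S_P1) (hGnx : S_Gnx) : S_LGp := by
  intro ι _ _ r ξ G u' hTr hG hgen
  obtain ⟨g, z, H, s, hg, hzinj, ⟨i0, hi0⟩, hzS, hs, hH, hΦ⟩ := hLHp ι r ξ u' hTr hgen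
  obtain ⟨huQ, hutQ⟩ := hP1 ι r ξ u' hTr hgen
  have hutZ : AlgebraicIndependent ℤ (Sum.elim u' (psi u' ξ)) :=
    hutQ.restrictScalars (FaithfulSMul.algebraMap_injective ℤ ℚ)
  have huZ : AlgebraicIndependent ℤ u' :=
    huQ.restrictScalars (FaithfulSMul.algebraMap_injective ℤ ℚ)
  -- (i) `H` vanishes at the generic linear forms
  obtain ⟨v, -, hv⟩ := hGnx (ι ⊕ (Fin r × ι)) ι (Sum.elim ξ u') (fun _ => 0) 1 one_pos
  have hgenf : GenOver (full v u') ξ := gen_full ξ u' v hgen hv
  have hHv : aeval (Sum.elim (full v u') (psi (full v u') ξ)) H = 0 := by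
    rw [psi_full, hH]
    apply mul_eq_zero_of_right
    apply Finset.prod_eq_zero (Finset.mem_univ i0)
    rw [hi0, sub_self]
  have hGv := hG.2 (full v u')
  -- (ii) `G ∣ H`
  have hdvd : G ∣ H := by
    have hren : ∀ P : MvPolynomial (BU ι (r + 1)) ℤ,
        aeval (ev (dot v ξ) (Sum.elim (full v u') (psi u' ξ))) (rename (sepIdx ι r) P) =
          aeval (Sum.elim (full v u') (psi (full v u') ξ)) P := by
      intro P
      rw [aeval_rename, psi_full]
      congr 2
      funext o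
      rcases o with p | i
      · rfl
      · refine Fin.cases ?_ (fun i => ?_) i
        · rfl
        · rfl
    have hG' : Irreducible (rename (sepIdx ι r) G) :=
      (MulEquiv.irreducible_iff (renameEquiv ℤ (sepIdx ι r))).mpr hG.1
    have h2 := hGau (BV ι r) ℂ (Sum.elim (full v u') (psi u' ξ)) (dot v ξ) (rename (sepIdx ι r) G)
      (rename (sepIdx ι r) H) (ind_full ξ u' v hutQ hv) hG' (by rw [hren]; exact hGv) (by rw [hren]; exact hHv)
    exact (map_dvd_iff (renameEquiv ℤ (sepIdx ι r))).mp h2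
  obtain ⟨Q, hQ⟩ := hdvd
  -- (iii)
  obtain ⟨t', ht'⟩ : ∃ t' : Fin r → ℂ, t' = psi u' ξ := ⟨_, rfl⟩
  rw [← ht'] at hutZ hzS hH hΦ ⊢
  have hs0 : aeval u' s ≠ 0 := fun h => hs ((algebraicIndependent_iff.mp huZ) s h)
  have hprod : Gam u' t' G * Gam u' t' Q = C (aeval u' s) * FF z := by
    rw [← map_mul, ← hQ]
    refine MvPolynomial.funext fun w => ?_
    rw [eval_Gam, hH, map_mul, eval_C, eval_FF]
  have hFFd : FF z ∣ Gam u' t' G := by
    apply FF_dvd z hzinj
    intro i w
    rw [eval_Gam]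
    have h1 := (hzS i).1 (Pv w G) (by
      rw [aeval_Pv, ht', ← psi_full]
      exact hG.2 _)
    rw [aeval_Pv] at h1
    exact h1
  obtain ⟨h, hh⟩ := hFFd
  have hFF0 : FF z ≠ 0 := by
    unfold FF
    rw [Finset.prod_ne_zero_iff]
    intro i _ h0
    have h1 := congrArg (eval (fun o : Option ι => o.elim (1 : ℂ) fun _ => 0)) h0
    simp at h1
  have hhq : h * Gam u' t' Q = C (aeval u' s) := by
    apply mul_left_cancel₀ hFF0
    rw [← mul_assoc, ← hh, hprod, mul_comm]
  have hsu : IsUnit (C (aeval u' s) : MvPolynomial (Option ι) ℂ) := (isUnit_iff_ne_zero.2 hs0).map C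
  obtain ⟨c, hc, hhc⟩ := isUnit_iff_eq_C_of_isReduced.1 (isUnit_of_dvd_unit ⟨_, hhq.symm⟩ hsu)
  obtain ⟨c', hc', hqc⟩ := isUnit_iff_eq_C_of_isReduced.1
    (isUnit_of_dvd_unit ⟨h, by rw [← hhq, mul_comm]⟩ hsu)
  have hcc : c * c' = aeval u' s := by
    rw [hhc, hqc, ← C_mul] at hhq
    exact C_injective _ _ hhq
  have hGval : ∀ (v : ι → ℂ) (T : ℂ), aeval (Sum.elim (full v u') (Fin.cons T t' : Fin (r + 1) → ℂ)) G =
      c * ∏ i, (T - dot v (z i)) := by
    intro v T
    have h1 := eval_Gam u' t' G (fun o => o.elim T v)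
    rw [hh, map_mul, eval_FF, hhc, eval_C] at h1
    rw [mul_comm]
    exact h1.symm
  have hQval : ∀ (v : ι → ℂ) (T : ℂ), aeval (Sum.elim (full v u') (Fin.cons T t' : Fin (r + 1) → ℂ)) Q = c' := by
    intro v T
    have h1 := eval_Gam u' t' Q (fun o => o.elim T v)
    rw [hqc, eval_C] at h1
    exact h1.symm
  -- (iv) the constants
  let φ : MvPolynomial (BU ι r) ℤ →+* ℂ := (aeval (R := ℤ) (Sum.elim u' t')).toRingHom
  have hφi : Function.Injective φ := hutZ
  have hG0 : (kap G).map φ = Polynomial.C c * Polynomial.X ^ g := by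
    refine Polynomial.funext fun T => ?_
    rw [Polynomial.eval_map, eval_kap, hGval]
    simp [dot]
  have hQ0 : (kap Q).map φ = Polynomial.C c' := by
    refine Polynomial.funext fun T => ?_
    rw [Polynomial.eval_map, eval_kap, hQval]
    simp
  have he1 : φ ((kap G).coeff g) = c := by
    rw [← Polynomial.coeff_map, hG0]
    simp
  have he2 : φ ((kap Q).coeff 0) = c' := by
    rw [← Polynomial.coeff_map, hQ0]
    simp
  have hsφ : φ (rename Sum.inl s) = aeval u' s := by
    change aeval (Sum.elim u' t') (rename Sum.inl s) = _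
    rw [aeval_rename]
    rfl
  have hmul : (kap G).coeff g * (kap Q).coeff 0 = rename Sum.inl s := by
    apply hφi
    rw [map_mul, he1, he2, hsφ, hcc]
  obtain ⟨e, he⟩ := div_inl s hs ((kap G).coeff g) ⟨_, hmul.symm⟩
  have hce : aeval u' e = c := by
    rw [← he1, he]
    change _ = aeval (Sum.elim u' t') (rename Sum.inl e)
    rw [aeval_rename]
    rfl
  refine ⟨g, z, e, hg, ?_, ?_, hzS, ?_, hΦ⟩
  · refine le_trans ?_ (natDegree_kap G)
    apply Polynomial.le_natDegree_of_ne_zero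
    intro h0
    rw [h0, map_zero] at he1
    exact hc.ne_zero he1.symm
  · rintro rfl
    rw [map_zero] at hce
    exact hc.ne_zero hce.symm
  · rw [hce]
    exact hGval

end Pool.Agent.SMQ
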