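import Pool.Agent.Lib.MP_452a87_nt.SpecL

/-!
# The product of the conjugate linear forms (LHp)
-/

set_option autoImplicit false

namespace Pool.Agent.SMQ

open MvPolynomial

namespace LHpAux

/-- `ℤ[x]` is integrally closed for an algebraically independent `x`. -/
theorem mem_of_int {σ : Type} (x : σ → ℂ) (hind : AlgebraicIndependent ℚ x) (w : ℂ)
    (hw : w ∈ IntermediateField.adjoin ℚ (Set.range x))
    (hint : IsIntegral (aeval (R := ℤ) x).toRingHom.range w) : ∃ R : MvPolynomial σ ℤ, aeval x R = w := by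
  have hindZ : AlgebraicIndependent ℤ x :=
    hind.restrictScalars (FaithfulSMul.algebraMap_injective ℤ ℚ)
  let φ : MvPolynomial σ ℤ →+* ℂ := (aeval (R := ℤ) x).toRingHom
  have hφi : Function.Injective φ := hindZ
  let O : Subring ℂ := φ.range
  have hOic : IsIntegrallyClosed O := IsIntegrallyClosed.of_equiv (RingEquiv.ofLeftInverse
    (f := φ) (Function.leftInverse_invFun hφi))
  have hwK : w ∈ Subfield.closure (O : Set ℂ) := by
    have h1 : IntermediateField.adjoin ℚ (Set.range x) ≤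
        (Subfield.closure (O : Set ℂ)).toIntermediateField
          (fun q => by rw [eq_ratCast]; exact SubfieldClass.ratCast_mem _ q) := by
      rw [IntermediateField.adjoin_le_iff]
      rintro _ ⟨b, rfl⟩
      exact Subfield.subset_closure ⟨X b, aeval_X _ _⟩
    exact h1 hw
  have hcl : Subring.closure (O : Set ℂ) = O := Subring.closure_eq O
  obtain ⟨a, ha, b, hb, hab⟩ := Subfield.mem_closure_iff.1 hwK
  rw [hcl] at ha hb
  have hmem : w ∈ O := by
    by_cases hb0 : b = 0
    · rw [← hab, hb0, div_zero]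
      exact O.zero_mem
    let _ := FractionRing.liftAlgebra O ℂ
    have : IsScalarTower O (FractionRing O) ℂ := FractionRing.isScalarTower_liftAlgebra O ℂ
    have h1 : algebraMap (FractionRing O) ℂ
        (algebraMap O (FractionRing O) ⟨a, ha⟩ / algebraMap O (FractionRing O) ⟨b, hb⟩) = w := by
      rw [map_div₀, ← IsScalarTower.algebraMap_apply, ← IsScalarTower.algebraMap_apply]
      exact hab
    have hint' : IsIntegral O w := hint
    rw [← h1, isIntegral_algebraMap_iff (algebraMap (FractionRing O) ℂ).injective] at hint'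
    obtain ⟨y, hy⟩ := IsIntegrallyClosed.isIntegral_iff.1 hint'
    rw [← h1, ← hy, ← IsScalarTower.algebraMap_apply]
    exact y.2
  obtain ⟨R, hR⟩ := hmem
  exact ⟨R, hR⟩

/-- Denominators of integral elements. -/
theorem den (hClr : S_Clr) {τ : Type} {r : ℕ} (u : τ → ℂ) (t : Fin r → ℂ)
    (hind : AlgebraicIndependent ℚ (Sum.elim u t)) (y : ℂ)
    (hy : y ∈ IntermediateField.adjoin ℚ (Set.range (Sum.elim u t)))
    (hint : IsIntegral (Algebra.adjoin (IntermediateField.adjoin ℚ (Set.range u)) (Set.range t)) y) :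
    ∃ (l : MvPolynomial τ ℤ) (R : MvPolynomial (τ ⊕ Fin r) ℤ), aeval u l ≠ 0 ∧
      aeval u l * y = aeval (Sum.elim u t) R := by
  obtain ⟨P, l, hPl, hl, hP⟩ := hClr ℂ τ r u t y hint
  have hlx : aeval (Sum.elim u t) (rename Sum.inl l : MvPolynomial (τ ⊕ Fin r) ℤ) = aeval u l := by
    rw [aeval_rename]
    rfl
  let φ : MvPolynomial (τ ⊕ Fin r) ℤ →+* ℂ := (aeval (R := ℤ) (Sum.elim u t)).toRingHom
  have h1 : IsIntegral φ.range (aeval u l * y) := by
    have h2 : Polynomial.aeval y (P.map φ.rangeRestrict) = 0 := by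
      rw [Polynomial.aeval_def, Polynomial.eval₂_map]
      exact hP
    have h3 := isIntegral_leadingCoeff_smul (R := φ.range) _ _ h2
    have h4 : (P.map φ.rangeRestrict).leadingCoeff = φ.rangeRestrict P.leadingCoeff := by
      apply Polynomial.leadingCoeff_map_of_leadingCoeff_ne_zero
      intro h5
      have h6 := congrArg Subtype.val h5
      rw [hPl] at h6
      apply hl
      rw [← hlx]
      exact h6
    rw [h4, hPl] at h3
    have h5 : (φ.rangeRestrict (rename Sum.inl l)) • y = aeval u l * y := by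
      rw [← hlx]
      rfl
    rwa [h5] at h3
  have h2 : aeval u l * y ∈ IntermediateField.adjoin ℚ (Set.range (Sum.elim u t)) := by
    refine mul_mem ?_ hy
    rw [← hlx]
    have hx : ∀ G : MvPolynomial (τ ⊕ Fin r) ℤ,
        aeval (Sum.elim u t) G ∈ IntermediateField.adjoin ℚ (Set.range (Sum.elim u t)) := by
      intro G
      induction G using MvPolynomial.induction_on with
      | C a =>
        rw [aeval_C]
        exact intCast_mem _ a
      | add p q hp hq => rw [map_add]; exact add_mem hp hq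
      | mul_X p i hp =>
        rw [map_mul, aeval_X]
        exact mul_mem hp (IntermediateField.subset_adjoin ℚ _ ⟨i, rfl⟩)
    exact hx _
  obtain ⟨R, hR⟩ := mem_of_int _ hind _ h2 h1
  exact ⟨l, R, hl, hR.symm⟩

/-- Polynomials in `v, T` whose coefficients are quotients of the required form. -/
def Good {ι : Type} {r : ℕ} (u : Fin r × ι → ℂ) (t : Fin r → ℂ) (Q : MvPolynomial (Option ι) ℂ) : Prop :=
  ∃ (s : MvPolynomial (Fin r × ι) ℤ) (H : MvPolynomial (BU ι (r + 1)) ℤ), aeval u s ≠ 0 ∧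
    ∀ (v : ι → ℂ) (T : ℂ), aeval (Sum.elim (full v u) (Fin.cons T t : Fin (r + 1) → ℂ)) H =
      aeval u s * eval (ev T v) Q

/-- The shift of the rows. -/
def sh (ι : Type) (r : ℕ) : BU ι r → BU ι (r + 1) :=
  Sum.elim (fun p => Sum.inl (p.1.succ, p.2)) (fun i => Sum.inr i.succ)

/-- The row `0`. -/
def r0 (ι : Type) (r : ℕ) : Option ι → BU ι (r + 1) := fun o => o.elim (Sum.inr 0) (fun j => Sum.inl (0, j))

theorem aeval_sh {ι : Type} {r : ℕ} (u : Fin r × ι → ℂ) (t : Fin r → ℂ) (v : ι → ℂ) (T : ℂ)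
    (P : MvPolynomial (BU ι r) ℤ) :
    aeval (Sum.elim (full v u) (Fin.cons T t : Fin (r + 1) → ℂ)) (rename (sh ι r) P) =
      aeval (Sum.elim u t) P := by
  rw [aeval_rename]
  congr 2
  funext p
  rcases p with ⟨i, j⟩ | i
  · rfl
  · rfl

theorem aeval_sh_inl {ι : Type} {r : ℕ} (u : Fin r × ι → ℂ) (t : Fin r → ℂ) (v : ι → ℂ) (T : ℂ)
    (P : MvPolynomial (Fin r × ι) ℤ) :
    aeval (Sum.elim (full v u) (Fin.cons T t : Fin (r + 1) → ℂ)) (rename (sh ι r) (rename Sum.inl P)) =
      aeval u P := by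
  rw [aeval_sh, aeval_rename]
  rfl

theorem aeval_r0 {ι : Type} {r : ℕ} (u : Fin r × ι → ℂ) (t : Fin r → ℂ) (v : ι → ℂ) (T : ℂ)
    (P : MvPolynomial (Option ι) ℤ) :
    aeval (Sum.elim (full v u) (Fin.cons T t : Fin (r + 1) → ℂ)) (rename (r0 ι r) P) =
      aeval (ev T v) P := by
  rw [aeval_rename]
  congr 2
  funext p
  rcases p with _ | j
  · rfl
  · rfl

theorem Good.zero {ι : Type} {r : ℕ} (u : Fin r × ι → ℂ) (t : Fin r → ℂ) : Good u t 0 :=
  ⟨1, 0, by simp, by simp⟩

theorem Good.add {ι : Type} {r : ℕ} {u : Fin r × ι → ℂ} {t : Fin r → ℂ} {P Q : MvPolynomial (Option ι) ℂ}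
    (hP : Good u t P) (hQ : Good u t Q) : Good u t (P + Q) := by
  obtain ⟨s, H, hs, h⟩ := hP
  obtain ⟨s', H', hs', h'⟩ := hQ
  refine ⟨s * s', rename (sh ι r) (rename Sum.inl s') * H + rename (sh ι r) (rename Sum.inl s) * H', ?_, ?_⟩
  · rw [map_mul]
    exact mul_ne_zero hs hs'
  · intro v T
    rw [map_add, map_mul, map_mul, map_mul, h, h', aeval_sh_inl, aeval_sh_inl, map_add]
    ring

theorem Good.monomial {ι : Type} {r : ℕ} {u : Fin r × ι → ℂ} {t : Fin r → ℂ} (μ : Option ι →₀ ℕ) (c : ℂ)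
    (l : MvPolynomial (Fin r × ι) ℤ) (R : MvPolynomial (BU ι r) ℤ) (hl : aeval u l ≠ 0)
    (hc : aeval u l * c = aeval (Sum.elim u t) R) : Good u t (MvPolynomial.monomial μ c) := by
  refine ⟨l, rename (sh ι r) R * rename (r0 ι r) (MvPolynomial.monomial μ 1), hl, ?_⟩
  intro v T
  rw [map_mul, aeval_sh, aeval_r0, ← hc, eval_monomial, aeval_monomial]
  simp [mul_assoc]

theorem Good.of_coeff {ι : Type} {r : ℕ} {u : Fin r × ι → ℂ} {t : Fin r → ℂ} (Q : MvPolynomial (Option ι) ℂ)
    (h : ∀ μ, ∃ (l : MvPolynomial (Fin r × ι) ℤ) (R : MvPolynomial (BU ι r) ℤ), aeval u l ≠ 0 ∧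
      aeval u l * Q.coeff μ = aeval (Sum.elim u t) R) : Good u t Q := by
  rw [Q.as_sum]
  refine Finset.sum_induction _ (Good u t) (fun _ _ => Good.add) (Good.zero u t) fun μ _ => ?_
  obtain ⟨l, R, hl, hR⟩ := h μ
  exact Good.monomial μ _ l R hl hR

/-- The product of the linear forms. -/
noncomputable def FF {ι : Type} [Fintype ι] {g : ℕ} (z : Fin g → ι → ℂ) : MvPolynomial (Option ι) ℂ :=
  ∏ i, (X none - ∑ j, C (z i j) * X (some j))

theorem coeff_FF {ι : Type} [Fintype ι] {g : ℕ} (z : Fin g → ι → ℂ) (I : Subring ℂ)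
    (h : ∀ i j, z i j ∈ I) (μ : Option ι →₀ ℕ) : (FF z).coeff μ ∈ I := by
  have h1 : FF z ∈ (MvPolynomial.map (σ := Option ι) I.subtype).range := by
    unfold FF
    refine prod_mem fun i _ => ?_
    refine ⟨X none - ∑ j, C ⟨z i j, h i j⟩ * X (some j), ?_⟩
    simp
  obtain ⟨P, hP⟩ := h1
  rw [← hP]
  have h2 : (MvPolynomial.map I.subtype P).coeff μ = I.subtype (P.coeff μ) := coeff_map _ _ _
  rw [h2]
  exact (P.coeff μ).2

theorem eval_FF {ι : Type} [Fintype ι] {g : ℕ} (z : Fin g → ι → ℂ) (w : Option ι → ℂ) :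
    eval w (FF z) = ∏ i, (w none - dot (fun j => w (some j)) (z i)) := by
  unfold FF
  simp only [map_prod, map_sub, map_sum, map_mul, eval_X, eval_C, dot]
  refine Finset.prod_congr rfl fun i _ => ?_
  congr 1
  exact Finset.sum_congr rfl fun j _ => mul_comm _ _

/-- Substitution of elements of `K` for the left variables. -/
theorem subst {σ ι : Type} (K : IntermediateField ℚ ℂ) (x : σ → ℂ) (hx : ∀ p, x p ∈ K)
    (P : MvPolynomial (σ ⊕ ι) ℤ) : ∃ Q : MvPolynomial ι K, ∀ y : ι → ℂ, aeval y Q = aeval (Sum.elim x y) P := by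
  refine ⟨aeval (Sum.elim (fun p => C (⟨x p, hx p⟩ : K)) X) P, fun y => ?_⟩
  have h := comp_aeval_apply (R := ℤ) (Sum.elim (fun p => (C (⟨x p, hx p⟩ : K) : MvPolynomial ι K)) X)
    ((aeval y : MvPolynomial ι K →ₐ[K] ℂ).restrictScalars ℤ) P
  refine h.trans ?_
  congr 2
  funext p
  rcases p with p | i
  · simp
  · simp

end LHpAux

open LHpAux in
theorem pLHp (hLSy : S_LSy) (hA1v : S_A1v) (hP1 : S_P1) (hClr : S_Clr) : S_LHp := by
  intro ι _ _ r ξ u' hTr hgen
  obtain ⟨t', ht'⟩ : ∃ t' : Fin r → ℂ, t' = psi u' ξ := ⟨_, rfl⟩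
  rw [← ht']
  obtain ⟨huQ, hutQ⟩ := hP1 ι r ξ u' hTr hgen
  rw [← ht'] at hutQ
  have hint := hA1v ι ℂ r ξ u' huQ ⟨r, le_rfl, hTr⟩
  rw [← ht'] at hint
  -- `N ⊆ K`
  obtain ⟨K, hK⟩ : ∃ K : IntermediateField ℚ ℂ, K = IntermediateField.adjoin ℚ (Set.range (Sum.elim u' t')) :=
    ⟨_, rfl⟩
  have hxK : ∀ p, Sum.elim u' t' p ∈ K := fun p => by
    rw [hK]
    exact IntermediateField.subset_adjoin ℚ _ ⟨p, rfl⟩
  have hle : IntermediateField.adjoin ℚ (Set.range u') ≤ K := by
    rw [hK]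
    refine IntermediateField.adjoin.mono _ _ _ ?_
    rintro _ ⟨p, rfl⟩
    exact ⟨Sum.inl p, rfl⟩
  have hmem : ∀ y ∈ Algebra.adjoin (IntermediateField.adjoin ℚ (Set.range u')) (Set.range t'), y ∈ K := by
    intro y hy
    induction hy using Algebra.adjoin_induction with
    | mem y hy =>
      obtain ⟨i, rfl⟩ := hy
      exact hxK (Sum.inr i)
    | algebraMap c => exact hle c.2
    | add y z _ _ h1 h2 => exact add_mem h1 h2
    | mul y z _ _ h1 h2 => exact mul_mem h1 h2
  let νN : Algebra.adjoin (IntermediateField.adjoin ℚ (Set.range u')) (Set.range t') →+* K :=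
    (Algebra.adjoin (IntermediateField.adjoin ℚ (Set.range u')) (Set.range t')).val.toRingHom.codRestrict
      K fun y => hmem y.1 y.2
  have hνN : (algebraMap K ℂ).comp νN =
      algebraMap (Algebra.adjoin (IntermediateField.adjoin ℚ (Set.range u')) (Set.range t')) ℂ := rfl
  have halg : ∀ j, IsAlgebraic K (ξ j) := by
    intro j
    have h2 := IsIntegral.map_of_comp_eq νN (RingHom.id ℂ) rfl (hint j)
    have h3 : IsIntegral K (ξ j) := h2
    exact h3.isAlgebraic
  obtain ⟨g, z, hg, hzinj, hzξ, hz, hsym⟩ := hLSy ι K ξ halg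
  -- the conjugates are integral over `N`
  have hzint : ∀ i j, IsIntegral
      (Algebra.adjoin (IntermediateField.adjoin ℚ (Set.range u')) (Set.range t')) (z i j) := by
    intro i j
    obtain ⟨p, hpm, hp⟩ := hint j
    refine ⟨p, hpm, ?_⟩
    have h1 : ∀ y : ι → ℂ, aeval y (Polynomial.aeval (X j : MvPolynomial ι K) (p.map νN)) =
        Polynomial.eval₂ (algebraMap
          (Algebra.adjoin (IntermediateField.adjoin ℚ (Set.range u')) (Set.range t')) ℂ) (y j) p := by
      intro y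
      rw [← Polynomial.aeval_algHom_apply, aeval_X, Polynomial.aeval_def, Polynomial.eval₂_map, hνN]
    rw [← h1, hz, h1]
    exact hp
  refine ⟨g, z, ?_⟩
  -- the symmetric function
  obtain ⟨Ψ, hΨ⟩ := hsym (Option ι) (X (Sum.inl none) - ∑ j, X (Sum.inr j) * X (Sum.inl (some j)))
  have hFF : MvPolynomial.map (algebraMap K ℂ) Ψ = FF z := by
    refine MvPolynomial.funext fun w => ?_
    rw [eval_map, ← aeval_def, ← hΨ, eval_FF]
    refine Finset.prod_congr rfl fun i _ => ?_
    simp only [map_sub, map_sum, map_mul, aeval_X, Sum.elim_inl, Sum.elim_inr, dot]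
    congr 1
    exact Finset.sum_congr rfl fun j _ => mul_comm _ _
  have hgood : Good u' t' (FF z) := by
    apply Good.of_coeff
    intro μ
    apply den hClr u' t' hutQ
    · rw [← hK, ← hFF, coeff_map]
      exact (Ψ.coeff μ).2
    · exact coeff_FF z (integralClosure
        (Algebra.adjoin (IntermediateField.adjoin ℚ (Set.range u')) (Set.range t')) ℂ).toSubring hzint μ
  obtain ⟨s, H, hs, hH⟩ := hgood
  refine ⟨H, s, hg, hzinj, hzξ, ?_, ?_, ?_, ?_⟩
  · intro i
    constructor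
    · intro P hP
      obtain ⟨Q, hQ⟩ := subst K (Sum.elim u' t') hxK P
      rw [← hQ, hz, hQ]
      exact hP
    · intro P hP
      have h1 : ∀ y : ι → ℂ, aeval y (MvPolynomial.map (Int.castRingHom K) P) = aeval y P := by
        intro y
        rw [aeval_def, eval₂_map, aeval_def]
        congr 1
      rw [← h1, ← hz i, h1]
      exact hP
  · rintro rfl
    rw [map_zero] at hs
    exact hs rfl
  · intro v T
    rw [hH, eval_FF]
    rfl
  · intro Φ
    obtain ⟨Ψ', hΨ'⟩ := hsym Empty (rename Sum.inr Φ)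
    have h1 := hΨ' Empty.elim
    have h2 : ∀ i, aeval (Sum.elim Empty.elim (z i)) (rename (Sum.inr : ι → Empty ⊕ ι) Φ) = aeval (z i) Φ := by
      intro i
      rw [aeval_rename]
      rfl
    simp only [h2] at h1
    rw [h1, ← hK, eq_C_of_isEmpty Ψ', aeval_C]
    exact (Ψ'.coeff 0).2

end Pool.Agent.SMQ
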