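import Pool.Agent.Lib.MP_452a87_nt.SpecL

set_option autoImplicit false

namespace Pool.Agent.SMQ

open MvPolynomial

theorem pLHy (hG : S_Gau) (hGnx : S_Gnx) : S_LHy := by
  intro σ _ π hirr hC
  classical
  obtain ⟨m, hm, hm0⟩ : ∃ m ∈ π.support, m ≠ 0 := by
    by_contra hcon
    push Not at hcon
    apply hC (π.coeff 0)
    ext m
    rw [coeff_C]
    split_ifs with h
    · rw [← h]
    · by_contra hne
      exact h (hcon m (mem_support_iff.mpr hne)).symm
  obtain ⟨k, hk⟩ : ∃ k, m k ≠ 0 := by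
    by_contra hcon
    push Not at hcon
    exact hm0 (Finsupp.ext hcon)
  set e : Option {b // b ≠ k} ≃ σ := Equiv.optionSubtypeNe k with he
  set E : MvPolynomial (Option {b // b ≠ k}) ℤ := rename e.symm π with hEdef
  have hE : Irreducible E := by
    have := (MulEquiv.irreducible_iff (renameEquiv ℤ e.symm)).mpr hirr
    exact this
  have hdeg : (optionEquivLeft ℤ _ E).natDegree ≠ 0 := by
    rw [natDegree_optionEquivLeft, hEdef]
    have h1 : e.symm k = none := by
      rw [Equiv.symm_apply_eq]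
      rfl
    rw [← h1, degreeOf_rename_of_injective e.symm.injective]
    have := monomial_le_degreeOf k hm
    omega
  -- a generic point
  obtain ⟨x0, _, hx0⟩ := hGnx (Fin 0) {b // b ≠ k} (fun i => Fin.elim0 i) (fun _ => 0) 1 one_pos
  have hx : AlgebraicIndependent ℚ x0 := by
    unfold GenOver at hx0
    exact hx0.restrictScalars (algebraMap ℚ _).injective
  have hx' : Function.Injective (aeval x0 : MvPolynomial {b // b ≠ k} ℤ →ₐ[ℤ] ℂ) :=
    hx.restrictScalars (R := ℤ) (K := ℚ) (algebraMap ℤ ℚ).injective_int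
  obtain ⟨z, hz⟩ := IsAlgClosed.exists_root
    ((optionEquivLeft ℤ _ E).map (aeval x0 : MvPolynomial {b // b ≠ k} ℤ →ₐ[ℤ] ℂ).toRingHom) (by
      intro hd
      rw [Polynomial.degree_map_eq_of_injective hx'] at hd
      exact hdeg (Polynomial.natDegree_eq_of_degree_eq_some hd))
  have hz2 : aeval (ev z x0) E = 0 := by
    rw [← eval_opt]
    rw [Polynomial.IsRoot.def, Polynomial.eval_map] at hz
    exact hz
  refine ⟨ev z x0 ∘ e.symm, fun P => ⟨fun hP => ?_, fun hP => ?_⟩⟩
  · have h1 : aeval (ev z x0) (rename e.symm P) = 0 := by rw [aeval_rename]; exact hP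
    have h2 := hG _ ℂ x0 z E (rename e.symm P) hx hE hz2 h1
    exact (map_dvd_iff (renameEquiv ℤ e.symm)).mp h2
  · obtain ⟨c, rfl⟩ := hP
    rw [map_mul, ← aeval_rename, ← hEdef, hz2, zero_mul]

end Pool.Agent.SMQ
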