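import Pool.Agent.Lib.MP_452a87_nt.SpecL

set_option autoImplicit false

namespace Pool.Agent.SMQ

open MvPolynomial

lemma LI1_card {σ : Type} [Fintype σ] (P : MvPolynomial σ ℤ) :
    P.support.card ≤ 2 ^ (Fintype.card σ * P.totalDegree) := by
  classical
  have h1 : P.support.card ≤ (Fintype.piFinset (fun _ : σ => Finset.range (P.totalDegree + 1))).card := by
    apply Finset.card_le_card_of_injOn (fun (μ : σ →₀ ℕ) => (fun p => μ p : σ → ℕ))
    · intro μ hμ
      simp only [Finset.mem_coe] at hμ
      simp only [Finset.mem_coe, Fintype.mem_piFinset, Finset.mem_range]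
      intro p
      have h2 := le_totalDegree hμ
      have h3 : μ p ≤ μ.sum fun _ e => e := by
        rw [Finsupp.sum_fintype _ _ (fun _ => rfl)]
        exact Finset.single_le_sum (f := fun p => μ p) (fun _ _ => Nat.zero_le _) (Finset.mem_univ p)
      omega
    · intro μ _ ν _ h
      exact DFunLike.coe_injective h
  rw [Fintype.card_piFinset] at h1
  simp only [Finset.card_range, Finset.prod_const, Finset.card_univ] at h1
  refine h1.trans ?_
  rw [mul_comm, pow_mul]
  apply Nat.pow_le_pow_left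
  exact Nat.lt_two_pow_self

theorem pLI1 (h1 : S_LCf) : S_LI1 := by
  intro σ _ P hP
  classical
  have hcomp : IsCompact (Set.pi Set.univ (fun _ : σ => Metric.closedBall (0 : ℂ) 1)) :=
    isCompact_univ_pi (fun _ => isCompact_closedBall 0 1)
  have hae : ∀ x : σ → ℂ, aeval x (map (Int.castRingHom ℂ) P) = aeval x P := by
    intro x
    have := MvPolynomial.aeval_map_algebraMap (R := ℤ) (A := ℂ) (B := ℂ) x P
    simpa using this
  have hcont : Continuous (fun x : σ → ℂ => ‖aeval x P‖) := by
    have h2 : Continuous (fun x : σ → ℂ => ‖eval x (map (Int.castRingHom ℂ) P)‖) :=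
      (MvPolynomial.continuous_eval _).norm
    have h3 : (fun x : σ → ℂ => ‖aeval x P‖) = (fun x : σ → ℂ => ‖eval x (map (Int.castRingHom ℂ) P)‖) := by
      funext x
      rw [← hae x]
      rfl
    rw [h3]
    exact h2
  obtain ⟨x, hx, hmax⟩ := hcomp.exists_isMaxOn ⟨0, by simp⟩ hcont.continuousOn
  have hx1 : Dsc x := by
    intro p
    have := hx p (Set.mem_univ p)
    simpa using this
  have hco : ∀ μ : σ →₀ ℕ, ((P.coeff μ).natAbs : ℝ) ≤ ‖aeval x P‖ := by
    intro μ
    have h2 := h1 σ (map (Int.castRingHom ℂ) P) 1 ‖aeval x P‖ one_pos (by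
      intro y hy
      rw [hae]
      exact hmax (show y ∈ Set.pi Set.univ (fun _ : σ => Metric.closedBall (0 : ℂ) 1) by
        intro p _
        simpa using hy p)) μ
    rw [one_pow, mul_one, coeff_map] at h2
    have h3 : ‖(Int.castRingHom ℂ) (P.coeff μ)‖ = ((P.coeff μ).natAbs : ℝ) := by
      rw [Int.coe_castRingHom, Complex.norm_intCast, Nat.cast_natAbs, Int.cast_abs]
    rwa [h3] at h2
  refine ⟨x, hx1, ?_, ?_⟩
  · obtain ⟨μ, hμ⟩ := MvPolynomial.ne_zero_iff.mp hP
    refine le_trans ?_ (hco μ)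
    have : 1 ≤ (P.coeff μ).natAbs := Int.natAbs_pos.mpr hμ
    exact_mod_cast this
  · unfold l1
    push_cast
    calc ∑ m ∈ P.support, ((P.coeff m).natAbs : ℝ) ≤ ∑ m ∈ P.support, ‖aeval x P‖ :=
          Finset.sum_le_sum (fun m _ => hco m)
      _ = P.support.card * ‖aeval x P‖ := by rw [Finset.sum_const, nsmul_eq_mul]
      _ ≤ 2 ^ (Fintype.card σ * P.totalDegree) * ‖aeval x P‖ := by
          apply mul_le_mul_of_nonneg_right _ (norm_nonneg _)
          exact_mod_cast LI1_card P

end Pool.Agent.SMQ
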