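import Pool.Agent.Lib.MP_452a87_nt.SpecL

/-!
# MP_452a87_nt, L/LId: identities at a generic point specialize (helper82)
-/

set_option autoImplicit false

namespace Pool.Agent.SMQ

open MvPolynomial

namespace LIdAux

/-- The substitution `T_i ↦ ∑_j U_(i,j) X_j`. -/
noncomputable def F (ι : Type) [Fintype ι] (r : ℕ) :
    MvPolynomial (BU ι r) ℤ →ₐ[ℤ] MvPolynomial (Fin r × ι) (MvPolynomial ι ℤ) :=
  aeval (Sum.elim (fun p => X p) fun i => ∑ j, X (i, j) * C (X j))

theorem eval_F {ι : Type} [Fintype ι] {r : ℕ} (u : Fin r × ι → ℂ) (y : ι → ℂ)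
    (P : MvPolynomial (BU ι r) ℤ) :
    eval₂ (aeval (R := ℤ) y).toRingHom u (F ι r P) = aeval (Sum.elim u (psi u y)) P := by
  have h : (eval₂Hom (aeval (R := ℤ) y).toRingHom u).comp (F ι r).toRingHom =
      (aeval (R := ℤ) (Sum.elim u (psi u y))).toRingHom := by
    refine MvPolynomial.ringHom_ext (fun a => by simp) fun i => ?_
    rcases i with p | i
    · simp [F]
    · simp [F, psi]
  exact congrArg (fun φ : MvPolynomial (BU ι r) ℤ →+* ℂ => φ P) h

end LIdAux

open LIdAux

/-- **LId.** Identities at a generic point specialize. -/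
theorem pLId : S_LId := by
  intro ι _ _ r ξ y P u0 hS hG h0 u
  have hQ : ∀ m, aeval ξ ((F ι r P).coeff m) = 0 := by
    let K := IntermediateField.adjoin ℚ (Set.range ξ)
    let ξ' : ι → K := fun j => ⟨ξ j, IntermediateField.subset_adjoin _ _ ⟨j, rfl⟩⟩
    let φ : MvPolynomial ι ℤ →+* K := (aeval (R := ℤ) ξ').toRingHom
    have hφ : (algebraMap K ℂ).comp φ = (aeval (R := ℤ) ξ).toRingHom := by
      refine MvPolynomial.ringHom_ext (fun a => by simp) fun j => ?_
      show algebraMap K ℂ (aeval ξ' (X j)) = aeval ξ (X j)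
      rw [aeval_X, aeval_X]
      rfl
    have h1 : aeval u0 (MvPolynomial.map φ (F ι r P)) = 0 := by
      rw [aeval_def, eval₂_map, hφ, eval_F]
      exact h0
    have h2 : MvPolynomial.map φ (F ι r P) = 0 := AlgebraicIndependent.eq_zero_of_aeval_eq_zero hG _ h1
    intro m
    have h3 : φ ((F ι r P).coeff m) = 0 := by
      rw [← MvPolynomial.coeff_map, h2, MvPolynomial.coeff_zero]
    have h4 : ((algebraMap K ℂ).comp φ) ((F ι r P).coeff m) = 0 := by
      rw [RingHom.comp_apply, h3, map_zero]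
    rw [hφ] at h4
    exact h4
  rw [← eval_F, eval₂_eq]
  refine Finset.sum_eq_zero fun m _ => ?_
  have h5 : (aeval (R := ℤ) y).toRingHom ((F ι r P).coeff m) = 0 := hS _ (hQ m)
  rw [h5, zero_mul]

end Pool.Agent.SMQ
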