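import Pool.Agent.Lib.MP_452a87_nt.SpecL

/-!
# The loss-free inequality (LKy)
-/

set_option autoImplicit false

namespace Pool.Agent.SMQ

open MvPolynomial

namespace LKyAux

lemma l1_bound {σ : Type} (P : MvPolynomial σ ℤ) (x : σ → ℂ) (M : ℝ) (hM : 1 ≤ M)
    (hx : ∀ i, ‖x i‖ ≤ M) : ‖aeval x P‖ ≤ l1 P * M ^ P.totalDegree := by
  rw [aeval_def, eval₂_eq, l1]
  refine (norm_sum_le _ _).trans ?_
  rw [Nat.cast_sum, Finset.sum_mul]
  refine Finset.sum_le_sum fun m hm => ?_
  rw [norm_mul]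
  have h1 : ‖(algebraMap ℤ ℂ) (coeff m P)‖ = ((coeff m P).natAbs : ℝ) := by
    rw [eq_intCast, Complex.norm_intCast, Nat.cast_natAbs, Int.cast_abs]
  rw [h1]
  apply mul_le_mul_of_nonneg_left _ (Nat.cast_nonneg _)
  rw [norm_prod]
  calc ∏ i ∈ m.support, ‖x i ^ m i‖ ≤ ∏ i ∈ m.support, M ^ m i := by
        refine Finset.prod_le_prod (fun _ _ => norm_nonneg _) fun i _ => ?_
        rw [norm_pow]
        exact pow_le_pow_left₀ (norm_nonneg _) (hx i) _
    _ = M ^ (m.sum fun _ e => e) := by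
        rw [Finset.prod_pow_eq_pow_sum]
        rfl
    _ ≤ M ^ P.totalDegree := pow_le_pow_right₀ hM (le_totalDegree hm)

lemma l1_pos {σ : Type} {P : MvPolynomial σ ℤ} (h : P ≠ 0) : 1 ≤ l1 P := by
  obtain ⟨m, hm⟩ := support_nonempty.2 h
  have h1 : (P.coeff m).natAbs ≤ l1 P := Finset.single_le_sum
    (f := fun m => (P.coeff m).natAbs) (fun _ _ => Nat.zero_le _) hm
  have h2 : 1 ≤ (P.coeff m).natAbs := by
    have := mem_support_iff.1 hm
    omega
  exact h2.trans h1

lemma psi_bound {ι : Type} [Fintype ι] {r : ℕ} {u : Fin r × ι → ℂ} (hu : Dsc u) {θ : ι → ℂ}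
    {Y : ℝ} (hθ : ‖θ‖ ≤ Y) (k : Fin r) : ‖psi u θ k‖ ≤ Fintype.card ι * Y := by
  unfold psi
  refine (norm_sum_le _ _).trans ?_
  calc ∑ j, ‖u (k, j) * θ j‖ ≤ ∑ j : ι, Y := by
        refine Finset.sum_le_sum fun j _ => ?_
        rw [norm_mul]
        calc ‖u (k, j)‖ * ‖θ j‖ ≤ 1 * Y := mul_le_mul (hu _) ((norm_le_pi_norm θ j).trans hθ)
              (norm_nonneg _) zero_le_one
          _ = Y := one_mul _
    _ = _ := by rw [Finset.sum_const, Finset.card_univ, nsmul_eq_mul]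

/-- The polynomial `R^θ`. -/
noncomputable def Rt {ι : Type} [Fintype ι] {r : ℕ} (θ : ι → ℂ) (R : MvPolynomial (BU ι r) ℤ) :
    MvPolynomial (Fin r × ι) ℂ :=
  aeval (Sum.elim (fun p => X p) fun i => ∑ j, X (i, j) * C (θ j)) R

lemma aeval_Rt {ι : Type} [Fintype ι] {r : ℕ} (θ : ι → ℂ) (R : MvPolynomial (BU ι r) ℤ)
    (x : Fin r × ι → ℂ) : aeval x (Rt θ R) = vt θ R x := by
  unfold Rt vt
  have h := comp_aeval_apply (R := ℤ) (Sum.elim (fun p => (X p : MvPolynomial (Fin r × ι) ℂ))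
    fun i => ∑ j, X (i, j) * C (θ j)) ((aeval x : MvPolynomial (Fin r × ι) ℂ →ₐ[ℂ] ℂ).restrictScalars ℤ) R
  refine h.trans ?_
  congr 2
  funext p
  rcases p with p | i
  · simp
  · simp [psi]

lemma psi_full {ι : Type} [Fintype ι] {r : ℕ} (v : ι → ℂ) (u : Fin r × ι → ℂ) (θ : ι → ℂ) :
    psi (full v u) θ = (Fin.cons (dot v θ) (psi u θ) : Fin (r + 1) → ℂ) := by
  funext i
  refine Fin.cases ?_ (fun i => ?_) i
  · simp [psi, dot]
  · simp [psi]

lemma dsc_full {ι : Type} {r : ℕ} {v : ι → ℂ} {u : Fin r × ι → ℂ} (hv : Dsc v) (hu : Dsc u) :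
    Dsc (full v u) := by
  rintro ⟨i, j⟩
  refine Fin.cases ?_ (fun i => ?_) i
  · rw [full_zero]
    exact hv j
  · rw [full_succ]
    exact hu (i, j)

lemma dot_sub {ι : Type} [Fintype ι] (v x y : ι → ℂ) : dot v (x - y) = dot v x - dot v y := by
  simp [dot, mul_sub, Finset.sum_sub_distrib]

/-- (a), (b), (c) of the proof. -/
lemma core {ι : Type} [Fintype ι] [DecidableEq ι] {r : ℕ} (hLLf : S_LLf) (Y : ℝ) (hY : 1 ≤ Y)
    (θ : ι → ℂ) (hθ : ‖θ‖ ≤ Y) (G : MvPolynomial (BU ι (r + 1)) ℤ) (hG0 : G ≠ 0) (g : ℕ)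
    (hg : g ≤ G.totalDegree) (u : Fin r × ι → ℂ) (hu : Dsc u) (e0 : ℂ) (z : Fin g → ι → ℂ)
    (hG : ∀ (v : ι → ℂ) (T : ℂ), aeval (Sum.elim (full v u) (Fin.cons T (psi u θ) : Fin (r + 1) → ℂ)) G =
      e0 * ∏ i, (T - dot v (z i))) (δ : ℝ)
    (hδ : ∀ u, Dsc u → ‖vt θ G u‖ ≤ Real.exp (-δ)) :
    ‖e0‖ * ∏ i, max 1 ‖z i‖ ≤ Real.exp ((Fintype.card ι + 2 + Fintype.card ι * Y) * sz G) ∧
    (‖e0‖ * ∏ i, max 1 ‖z i‖) * ∏ i, min 1 ‖z i - θ‖ ≤
      Real.exp ((1 + Y + Fintype.card ι) * g - δ) := by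
  have hn : (0 : ℝ) ≤ Fintype.card ι := Nat.cast_nonneg _
  have hl1 : (1 : ℝ) ≤ l1 G := by exact_mod_cast l1_pos hG0
  have hlog : 0 ≤ Real.log (l1 G : ℝ) := Real.log_nonneg hl1
  have hnY : 0 ≤ (Fintype.card ι : ℝ) * Y := by positivity
  have hgs : (g : ℝ) ≤ G.totalDegree := by exact_mod_cast hg
  have h2 : (2 : ℝ) ≤ Real.exp 1 := by
    have := Real.add_one_le_exp (1 : ℝ)
    linarith
  constructor
  · have h1 : ∀ (v : ι → ℂ) (T : ℂ), Dsc v → ‖T‖ ≤ 1 → ‖e0 * ∏ i, (T - dot v (z i))‖ ≤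
        l1 G * (1 + Fintype.card ι * Y) ^ G.totalDegree := by
      intro v T hv hT
      rw [← hG]
      apply l1_bound _ _ _ (by linarith)
      rintro (p | i)
      · exact (dsc_full hv hu p).trans (by linarith)
      · refine Fin.cases ?_ (fun i => ?_) i
        · simpa using hT.trans (by linarith)
        · simpa using (psi_bound hu hθ i).trans (by linarith)
    have h3 := (hLLf ι g z e0 _).1 h1
    refine h3.trans ?_
    have e1 : (2 : ℝ) ^ ((Fintype.card ι + 1) * g) ≤ Real.exp ((Fintype.card ι + 1) * g) := by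
      calc (2 : ℝ) ^ ((Fintype.card ι + 1) * g) ≤ Real.exp 1 ^ ((Fintype.card ι + 1) * g) :=
            pow_le_pow_left₀ (by norm_num) h2 _
        _ = _ := by rw [← Real.exp_nat_mul]; push_cast; ring_nf
    have e2 : (1 + Fintype.card ι * Y) ^ G.totalDegree ≤ Real.exp (Fintype.card ι * Y * G.totalDegree) := by
      calc (1 + Fintype.card ι * Y) ^ G.totalDegree ≤ Real.exp (Fintype.card ι * Y) ^ G.totalDegree :=
            pow_le_pow_left₀ (by linarith) (by have := Real.add_one_le_exp (Fintype.card ι * Y); linarith) _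
        _ = _ := by rw [← Real.exp_nat_mul]; ring_nf
    have e3 : (l1 G : ℝ) = Real.exp (Real.log (l1 G : ℝ)) := (Real.exp_log (by linarith)).symm
    calc (2 : ℝ) ^ ((Fintype.card ι + 1) * g) * (l1 G * (1 + Fintype.card ι * Y) ^ G.totalDegree)
        ≤ Real.exp ((Fintype.card ι + 1) * g) * (Real.exp (Real.log (l1 G : ℝ)) *
          Real.exp (Fintype.card ι * Y * G.totalDegree)) := by
          rw [← e3]
          gcongr
      _ = Real.exp ((Fintype.card ι + 1) * g + (Real.log (l1 G : ℝ) +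
          Fintype.card ι * Y * G.totalDegree)) := by
          rw [← Real.exp_add, ← Real.exp_add]
      _ ≤ _ := by
          apply Real.exp_le_exp.2
          unfold sz
          have := mul_le_mul_of_nonneg_left hgs (show (0 : ℝ) ≤ (Fintype.card ι : ℝ) + 1 by linarith)
          have h5 : (0 : ℝ) ≤ G.totalDegree := Nat.cast_nonneg _
          have h6 : 0 ≤ (Fintype.card ι : ℝ) * Real.log (l1 G : ℝ) := by positivity
          have h7 : 0 ≤ (Fintype.card ι : ℝ) * Y * Real.log (l1 G : ℝ) := by positivity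
          nlinarith
  · have h1 : ∀ v : ι → ℂ, Dsc v → ‖e0 * ∏ i, dot v ((fun i => θ - z i) i)‖ ≤ Real.exp (-δ) := by
      intro v hv
      have h := hδ _ (dsc_full hv hu)
      unfold vt at h
      rw [psi_full, hG] at h
      simpa [dot_sub] using h
    have h3 := (hLLf ι g (fun i => θ - z i) e0 _).2 h1
    have h4 : ∀ i, max 1 ‖z i‖ * min 1 ‖z i - θ‖ ≤ (2 + Y) * ‖θ - z i‖ := by
      intro i
      rw [norm_sub_rev θ (z i)]
      have h5 : ‖z i‖ ≤ ‖z i - θ‖ + Y := by
        calc ‖z i‖ = ‖(z i - θ) + θ‖ := by rw [sub_add_cancel]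
          _ ≤ ‖z i - θ‖ + ‖θ‖ := norm_add_le _ _
          _ ≤ _ := by linarith
      have h6 : (0 : ℝ) ≤ ‖z i - θ‖ := norm_nonneg _
      rcases le_total 1 ‖z i - θ‖ with h | h
      · rw [min_eq_left h, mul_one]
        apply max_le
        · nlinarith
        · nlinarith
      · rw [min_eq_right h]
        apply mul_le_mul_of_nonneg_right _ h6
        apply max_le
        · linarith
        · linarith
    have h7 : (∏ i, max 1 ‖z i‖) * ∏ i, min 1 ‖z i - θ‖ ≤ (2 + Y) ^ g * ∏ i, ‖θ - z i‖ := by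
      rw [← Finset.prod_mul_distrib]
      calc ∏ i, max 1 ‖z i‖ * min 1 ‖z i - θ‖ ≤ ∏ i, (2 + Y) * ‖θ - z i‖ :=
            Finset.prod_le_prod (fun i _ => by positivity) fun i _ => h4 i
        _ = _ := by rw [Finset.prod_mul_distrib, Finset.prod_const, Finset.card_univ, Fintype.card_fin]
    have e1 : (2 : ℝ) ^ (Fintype.card ι * g) ≤ Real.exp (Fintype.card ι * g) := by
      calc (2 : ℝ) ^ (Fintype.card ι * g) ≤ Real.exp 1 ^ (Fintype.card ι * g) :=
            pow_le_pow_left₀ (by norm_num) h2 _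
        _ = _ := by rw [← Real.exp_nat_mul]; push_cast; ring_nf
    have e2 : (2 + Y) ^ g ≤ Real.exp ((1 + Y) * g) := by
      calc (2 + Y) ^ g ≤ Real.exp (1 + Y) ^ g :=
            pow_le_pow_left₀ (by linarith) (by have := Real.add_one_le_exp (1 + Y); linarith) _
        _ = _ := by rw [← Real.exp_nat_mul]; ring_nf
    calc (‖e0‖ * ∏ i, max 1 ‖z i‖) * ∏ i, min 1 ‖z i - θ‖
        = ‖e0‖ * ((∏ i, max 1 ‖z i‖) * ∏ i, min 1 ‖z i - θ‖) := by ring
      _ ≤ ‖e0‖ * ((2 + Y) ^ g * ∏ i, ‖θ - z i‖) := mul_le_mul_of_nonneg_left h7 (norm_nonneg _)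
      _ = (2 + Y) ^ g * (‖e0‖ * ∏ i, ‖θ - z i‖) := by ring
      _ ≤ Real.exp ((1 + Y) * g) * (Real.exp (Fintype.card ι * g) * Real.exp (-δ)) := by
          apply mul_le_mul e2 (h3.trans _) (by positivity) (Real.exp_nonneg _)
          gcongr
      _ = _ := by
          rw [← Real.exp_add, ← Real.exp_add]
          congr 1
          ring

lemma prod_max {g : ℕ} (φ : ℝ) (hφ : 0 ≤ φ) (hφ1 : φ ≤ 1) (ρ : Fin g → ℝ)
    (h0 : ∀ i, 0 ≤ ρ i) (h1 : ∀ i, ρ i ≤ 1) : ∏ i, max φ (ρ i) ≤ φ + ∏ i, ρ i := by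
  by_cases h : ∃ i, ρ i < φ
  · obtain ⟨i, hi⟩ := h
    have h2 : ∏ i, max φ (ρ i) ≤ φ := by
      rw [← Finset.mul_prod_erase _ _ (Finset.mem_univ i), max_eq_left hi.le]
      calc φ * ∏ j ∈ Finset.univ.erase i, max φ (ρ j) ≤ φ * 1 := by
            apply mul_le_mul_of_nonneg_left _ hφ
            exact Finset.prod_le_one (fun j _ => le_max_of_le_left hφ) fun j _ => max_le hφ1 (h1 j)
        _ = φ := mul_one _
    have h3 : 0 ≤ ∏ i, ρ i := Finset.prod_nonneg fun i _ => h0 i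
    linarith
  · push Not at h
    have h2 : ∏ i, max φ (ρ i) = ∏ i, ρ i := Finset.prod_congr rfl fun i _ => max_eq_right (h i)
    rw [h2]
    linarith


end LKyAux

open LKyAux in
theorem pLKy (hLLf : S_LLf) (hLDn : S_LDn) (hLDf : S_LDf) : S_LKy := by
  intro ι _ _ r Y hY
  obtain ⟨C', hC', hF⟩ := hLDf ι Y hY
  set n : ℝ := (Fintype.card ι : ℝ) with hn'
  have hn : 0 ≤ n := Nat.cast_nonneg _
  have hnY : 0 ≤ n * Y := by positivity
  refine ⟨C' + (n + 2 + n * Y) + (1 + Y + n), by linarith, ?_⟩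
  intro θ ξ G g e f d R δ hθ hG0 hg1 hg he hd hf hδ0 hδ hSec
  have hl1 : (1 : ℝ) ≤ l1 G := by exact_mod_cast l1_pos hG0
  have hlog : 0 ≤ Real.log (l1 G : ℝ) := Real.log_nonneg hl1
  have hgs : (g : ℝ) ≤ sz G := by
    have h1 : (g : ℝ) ≤ G.totalDegree := by exact_mod_cast hg
    unfold sz
    linarith
  have hg0 : (1 : ℝ) ≤ g := by exact_mod_cast hg1
  have hd0 : (1 : ℝ) ≤ d := by exact_mod_cast hd
  have hs1 : 1 ≤ sz G := hg0.trans hgs
  -- the final estimate of the exponents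
  have hexp : C' * d * g + (n + 2 + n * Y) * sz G * d + (1 + Y + n) * g ≤
      (C' + (n + 2 + n * Y) + (1 + Y + n)) * d * sz G := by
    have h1 : C' * d * g ≤ C' * d * sz G := mul_le_mul_of_nonneg_left hgs (by positivity)
    have h2 : (1 + Y + n) * g ≤ (1 + Y + n) * (d * sz G) := by
      apply mul_le_mul_of_nonneg_left _ (by linarith)
      nlinarith
    nlinarith
  constructor
  · intro η hη0 hη1 hη u hu
    rw [← aeval_Rt]
    refine hLDn (Fin r × ι) e (Rt θ R) 1 _ one_pos he ?_ u hu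
    intro u hu he0
    obtain ⟨z, hz, hG, hR⟩ := hSec u (psi u θ) he0
    obtain ⟨hE, hEP⟩ := core hLLf Y hY θ hθ G hG0 g hg u hu (aeval u e) z hG δ hδ
    rw [aeval_Rt]
    unfold vt
    rw [hR, norm_mul, norm_pow, norm_prod]
    set E := ‖aeval u e‖ * ∏ i, max 1 ‖z i‖ with hEdef
    set P := ∏ i, min 1 ‖z i - θ‖ with hPdef
    have hE0 : 0 < E := by
      have h1 : 0 < ‖aeval u e‖ := norm_pos_iff.2 he0
      have h2 : 0 < ∏ i, max 1 ‖z i‖ := Finset.prod_pos fun i _ => lt_of_lt_of_le one_pos (le_max_left _ _)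
      exact mul_pos h1 h2
    have hP0 : 0 ≤ P := Finset.prod_nonneg fun i _ => le_min zero_le_one (norm_nonneg _)
    have hb : ∀ i, ‖aeval (z i) f‖ ≤ Real.exp (C' * d) * max 1 ‖z i‖ ^ d * (min 1 ‖z i - θ‖) ^ η := by
      intro i
      refine (hF θ (z i) f d hθ hd hf).2.trans ?_
      apply mul_le_mul_of_nonneg_left _ (by positivity)
      apply max_le (hη _ (hz i).1)
      have h0 : 0 ≤ min 1 ‖z i - θ‖ := le_min zero_le_one (norm_nonneg _)
      rcases h0.eq_or_lt with h | h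
      · rw [← h]
        exact Real.rpow_nonneg le_rfl _
      · calc min 1 ‖z i - θ‖ = (min 1 ‖z i - θ‖) ^ (1 : ℝ) := (Real.rpow_one _).symm
          _ ≤ _ := Real.rpow_le_rpow_of_exponent_ge h (min_le_left _ _) hη1
    set M := Real.exp ((n + 2 + n * Y) * sz G) with hM
    have hM1 : 1 ≤ M := Real.one_le_exp (by positivity)
    have hEη : E ^ d * P ^ η ≤ M ^ d * Real.exp ((1 + Y + n) * g - η * δ) := by
      have h1 : E ^ d * P ^ η = E ^ (d - 1) * E ^ (1 - η) * (E * P) ^ η := by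
        rw [Real.mul_rpow hE0.le hP0]
        have h2 : E ^ d = E ^ (d - 1) * (E ^ (1 - η) * E ^ η) := by
          rw [← Real.rpow_add hE0, show (1 - η + η) = 1 by ring, Real.rpow_one, ← pow_succ]
          congr 1
          omega
        rw [h2]
        ring
      have h3 : E ^ (1 - η) ≤ M := by
        calc E ^ (1 - η) ≤ M ^ (1 - η) := Real.rpow_le_rpow hE0.le hE (by linarith)
          _ ≤ M ^ (1 : ℝ) := Real.rpow_le_rpow_of_exponent_le hM1 (by linarith)
          _ = M := Real.rpow_one _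
      have h4 : (E * P) ^ η ≤ Real.exp ((1 + Y + n) * g - η * δ) := by
        calc (E * P) ^ η ≤ (Real.exp ((1 + Y + n) * g - δ)) ^ η :=
              Real.rpow_le_rpow (mul_nonneg hE0.le hP0) hEP hη0.le
          _ = Real.exp (η * ((1 + Y + n) * g - δ)) := by
              rw [← Real.exp_mul, mul_comm]
          _ ≤ _ := by
              apply Real.exp_le_exp.2
              have : η * ((1 + Y + n) * g) ≤ 1 * ((1 + Y + n) * g) :=
                mul_le_mul_of_nonneg_right hη1 (by positivity)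
              linarith
      rw [h1]
      calc E ^ (d - 1) * E ^ (1 - η) * (E * P) ^ η ≤ M ^ (d - 1) * M * Real.exp ((1 + Y + n) * g - η * δ) := by
            apply mul_le_mul _ h4 (Real.rpow_nonneg (mul_nonneg hE0.le hP0) _) (by positivity)
            exact mul_le_mul (pow_le_pow_left₀ hE0.le hE _) h3 (Real.rpow_nonneg hE0.le _) (by positivity)
        _ = M ^ d * Real.exp ((1 + Y + n) * g - η * δ) := by
            rw [← pow_succ]
            congr 2
            omega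
    calc ‖aeval u e‖ ^ d * ∏ i, ‖aeval (z i) f‖
        ≤ ‖aeval u e‖ ^ d * ∏ i, (Real.exp (C' * d) * max 1 ‖z i‖ ^ d * (min 1 ‖z i - θ‖) ^ η) := by
          apply mul_le_mul_of_nonneg_left _ (by positivity)
          exact Finset.prod_le_prod (fun i _ => norm_nonneg _) fun i _ => hb i
      _ = Real.exp (C' * d) ^ g * (E ^ d * P ^ η) := by
          rw [Finset.prod_mul_distrib, Finset.prod_mul_distrib, Finset.prod_const, Finset.card_univ,
            Fintype.card_fin, Finset.prod_pow, Real.finsetProd_rpow _ _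
              (fun i _ => le_min zero_le_one (norm_nonneg _)), hEdef, mul_pow]
          ring
      _ ≤ Real.exp (C' * d) ^ g * (M ^ d * Real.exp ((1 + Y + n) * g - η * δ)) :=
          mul_le_mul_of_nonneg_left hEη (by positivity)
      _ = Real.exp (C' * d * g + (n + 2 + n * Y) * sz G * d + (1 + Y + n) * g - η * δ) := by
          rw [hM, ← Real.exp_nat_mul, ← Real.exp_nat_mul, ← Real.exp_add, ← Real.exp_add]
          congr 1
          ring
      _ ≤ _ := Real.exp_le_exp.2 (by linarith)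
  · intro hφ1 u hu
    rw [← aeval_Rt]
    refine hLDn (Fin r × ι) e (Rt θ R) 1 _ one_pos he ?_ u hu
    intro u hu he0
    obtain ⟨z, hz, hG, hR⟩ := hSec u (psi u θ) he0
    obtain ⟨hE, hEP⟩ := core hLLf Y hY θ hθ G hG0 g hg u hu (aeval u e) z hG δ hδ
    rw [aeval_Rt]
    unfold vt
    rw [hR, norm_mul, norm_pow, norm_prod]
    set E := ‖aeval u e‖ * ∏ i, max 1 ‖z i‖ with hEdef
    set P := ∏ i, min 1 ‖z i - θ‖ with hPdef
    set φ := ‖aeval θ f‖ with hφ
    have hφ0 : 0 ≤ φ := norm_nonneg _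
    have hE0 : 0 ≤ E := by positivity
    have hP0 : 0 ≤ P := Finset.prod_nonneg fun i _ => le_min zero_le_one (norm_nonneg _)
    set M := Real.exp ((n + 2 + n * Y) * sz G) with hM
    have hM1 : 1 ≤ M := Real.one_le_exp (by positivity)
    have hpm : ∏ i, max φ (min 1 ‖z i - θ‖) ≤ φ + P :=
      prod_max φ hφ0 hφ1 _ (fun i => le_min zero_le_one (norm_nonneg _)) fun i => min_le_left _ _
    have hEη : E ^ d * (φ + P) ≤ M ^ d * Real.exp ((1 + Y + n) * g) * (φ + Real.exp (-δ)) := by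
      have h1 : E ^ d * (φ + P) = E ^ d * φ + E ^ (d - 1) * (E * P) := by
        have h2 : E ^ d = E ^ (d - 1) * E := by
          rw [← pow_succ]
          congr 1
          omega
        rw [mul_add, h2]
        ring
      have h3 : E ^ d ≤ M ^ d := pow_le_pow_left₀ hE0 hE _
      have h4 : E ^ (d - 1) ≤ M ^ d := (pow_le_pow_left₀ hE0 hE _).trans
        (pow_le_pow_right₀ hM1 (Nat.sub_le _ _))
      have h5 : (1 : ℝ) ≤ Real.exp ((1 + Y + n) * g) := Real.one_le_exp (by positivity)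
      have h6 : Real.exp ((1 + Y + n) * g - δ) = Real.exp ((1 + Y + n) * g) * Real.exp (-δ) := by
        rw [← Real.exp_add]
        congr 1
      rw [h1]
      calc E ^ d * φ + E ^ (d - 1) * (E * P) ≤ M ^ d * φ + M ^ d * Real.exp ((1 + Y + n) * g - δ) := by
            apply add_le_add (mul_le_mul_of_nonneg_right h3 hφ0)
            exact mul_le_mul h4 hEP (mul_nonneg hE0 hP0) (by positivity)
        _ ≤ M ^ d * (Real.exp ((1 + Y + n) * g) * φ) + M ^ d * Real.exp ((1 + Y + n) * g - δ) := by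
            gcongr
            exact le_mul_of_one_le_left hφ0 h5
        _ = _ := by
            rw [h6]
            ring
    calc ‖aeval u e‖ ^ d * ∏ i, ‖aeval (z i) f‖
        ≤ ‖aeval u e‖ ^ d * ∏ i, (Real.exp (C' * d) * max 1 ‖z i‖ ^ d * max φ (min 1 ‖z i - θ‖)) := by
          apply mul_le_mul_of_nonneg_left _ (by positivity)
          exact Finset.prod_le_prod (fun i _ => norm_nonneg _) fun i _ => (hF θ (z i) f d hθ hd hf).2
      _ = Real.exp (C' * d) ^ g * (E ^ d * ∏ i, max φ (min 1 ‖z i - θ‖)) := by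
          rw [Finset.prod_mul_distrib, Finset.prod_mul_distrib, Finset.prod_const, Finset.card_univ,
            Fintype.card_fin, Finset.prod_pow, hEdef, mul_pow]
          ring
      _ ≤ Real.exp (C' * d) ^ g * (E ^ d * (φ + P)) := by gcongr
      _ ≤ Real.exp (C' * d) ^ g * (M ^ d * Real.exp ((1 + Y + n) * g) * (φ + Real.exp (-δ))) :=
          mul_le_mul_of_nonneg_left hEη (by positivity)
      _ = Real.exp (C' * d * g + (n + 2 + n * Y) * sz G * d + (1 + Y + n) * g) * (φ + Real.exp (-δ)) := by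
          rw [hM, ← Real.exp_nat_mul, ← Real.exp_nat_mul, ← mul_assoc, ← mul_assoc, ← Real.exp_add, ← Real.exp_add]
          congr 2
          ring
      _ ≤ _ := by
          apply mul_le_mul_of_nonneg_right (Real.exp_le_exp.2 hexp)
          positivity

end Pool.Agent.SMQ
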