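import Pool.Agent.Lib.MP_452a87_nt.SpecL

/-!
# MP_452a87_nt, L/LLf: products of linear forms (helper6)
-/

set_option autoImplicit false

namespace Pool.Agent.SMQ

open MvPolynomial

namespace LLfM

private theorem unitv {ι : Type} [Fintype ι] [DecidableEq ι] (w : ι → ℂ) :
    ∃ v : ι → ℂ, Dsc v ∧ ‖w‖ ≤ ‖dot v w‖ := by
  rcases isEmpty_or_nonempty ι with hι | hι
  · refine ⟨0, fun p => by simp, ?_⟩
    have : w = 0 := Subsingleton.elim _ _
    rw [this, norm_zero]
    exact norm_nonneg _
  · obtain ⟨j, hj⟩ := Finite.exists_max (fun j => ‖w j‖)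
    refine ⟨Pi.single j 1, ?_, ?_⟩
    · intro p
      rcases eq_or_ne p j with rfl | h
      · simp
      · rw [Pi.single_eq_of_ne h, norm_zero]
        exact zero_le_one
    · have h1 : dot (Pi.single j (1 : ℂ)) w = w j := by
        unfold dot
        rw [Finset.sum_eq_single j]
        · rw [Pi.single_eq_same, one_mul]
        · intro p _ hp
          rw [Pi.single_eq_of_ne hp, zero_mul]
        · intro h
          exact absurd (Finset.mem_univ j) h
      rw [h1]
      exact (pi_norm_le_iff_of_nonempty _).mpr hj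

private theorem unitT {ι : Type} [Fintype ι] [DecidableEq ι] (w : ι → ℂ) :
    ∃ (v : ι → ℂ) (T : ℂ), Dsc v ∧ ‖T‖ ≤ 1 ∧ max 1 ‖w‖ ≤ ‖T - dot v w‖ := by
  rcases le_or_gt ‖w‖ 1 with h | h
  · refine ⟨0, 1, fun p => by simp, by simp, ?_⟩
    have h1 : dot (0 : ι → ℂ) w = 0 := by
      unfold dot
      simp
    rw [h1, max_eq_left h, sub_zero, norm_one]
  · obtain ⟨v, hv, hv2⟩ := unitv w
    refine ⟨v, 0, hv, by simp, ?_⟩
    rw [max_eq_right h.le, zero_sub, norm_neg]
    exact hv2

private theorem deg_lin {σ ι : Type} [Fintype ι] (w : ι → ℂ) (f : ι → σ) :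
    (∑ j, C (w j) * X (f j) : MvPolynomial σ ℂ).totalDegree ≤ 1 := by
  refine totalDegree_finsetSum_le fun j _ => ?_
  refine (totalDegree_mul _ _).trans ?_
  rw [totalDegree_C, totalDegree_X]

end LLfM

open LLfM in
theorem pLLf (hLG : S_LG) : S_LLf := by
  intro ι _ _ g z e0 B
  constructor
  · intro h
    choose v T hv hT hvT using fun i => unitT (z i)
    let P : Fin g → MvPolynomial (Option ι) ℂ := fun i =>
      X none - ∑ j, C (z i j) * X (some j)
    let a : Fin g → Option ι → ℂ := fun i o => o.elim (T i) (v i)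
    have hP : ∀ (i : Fin g) (x : Option ι → ℂ),
        aeval x (P i) = x none - dot (fun j => x (some j)) (z i) := by
      intro i x
      simp only [P, map_sub, aeval_X, map_sum, map_mul, dot]
      congr 1
      refine Finset.sum_congr rfl fun j _ => ?_
      rw [aeval_C, mul_comm]
      rfl
    have ha : ∀ i, Dsc (a i) := by
      intro i o
      cases o with
      | none => exact hT i
      | some j => exact hv i j
    have hdeg : ∑ i, (P i).totalDegree ≤ g := by
      have h1 : ∀ i ∈ (Finset.univ : Finset (Fin g)), (P i).totalDegree ≤ 1 := by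
        intro i _
        refine (totalDegree_sub _ _).trans ?_
        rw [totalDegree_X]
        exact max_le le_rfl (deg_lin (z i) some)
      have h2 := Finset.sum_le_card_nsmul _ _ _ h1
      simpa using h2
    obtain ⟨x, hx, hx2⟩ := hLG (Option ι) g P a g ha hdeg
    rw [Fintype.card_option] at hx2
    have h3 : ∏ i, max 1 ‖z i‖ ≤ ∏ i, ‖aeval (a i) (P i)‖ := by
      refine Finset.prod_le_prod (fun _ _ => by positivity) fun i _ => ?_
      rw [hP]
      exact hvT i
    have h4 := h (fun j => x (some j)) (x none) (fun j => hx _) (hx _)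
    rw [norm_mul, norm_prod] at h4
    calc ‖e0‖ * ∏ i, max 1 ‖z i‖ ≤ ‖e0‖ * ∏ i, ‖aeval (a i) (P i)‖ :=
          mul_le_mul_of_nonneg_left h3 (norm_nonneg _)
      _ ≤ ‖e0‖ * (2 ^ ((Fintype.card ι + 1) * g) * ∏ i, ‖aeval x (P i)‖) :=
          mul_le_mul_of_nonneg_left hx2 (norm_nonneg _)
      _ = 2 ^ ((Fintype.card ι + 1) * g) *
          (‖e0‖ * ∏ i, ‖x none - dot (fun j => x (some j)) (z i)‖) := by
          simp only [hP]
          ring
      _ ≤ 2 ^ ((Fintype.card ι + 1) * g) * B :=
          mul_le_mul_of_nonneg_left h4 (by positivity)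
  · intro h
    choose v hv hv2 using fun i => unitv (z i)
    let P : Fin g → MvPolynomial ι ℂ := fun i => ∑ j, C (z i j) * X j
    have hP : ∀ (i : Fin g) (x : ι → ℂ), aeval x (P i) = dot x (z i) := by
      intro i x
      simp only [P, map_sum, map_mul, dot]
      refine Finset.sum_congr rfl fun j _ => ?_
      rw [aeval_C, aeval_X, mul_comm]
      rfl
    have hdeg : ∑ i, (P i).totalDegree ≤ g := by
      have h1 : ∀ i ∈ (Finset.univ : Finset (Fin g)), (P i).totalDegree ≤ 1 :=
        fun i _ => deg_lin (z i) id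
      have h2 := Finset.sum_le_card_nsmul _ _ _ h1
      simpa using h2
    obtain ⟨x, hx, hx2⟩ := hLG ι g P v g hv hdeg
    have h3 : ∏ i, ‖z i‖ ≤ ∏ i, ‖aeval (v i) (P i)‖ := by
      refine Finset.prod_le_prod (fun _ _ => norm_nonneg _) fun i _ => ?_
      rw [hP]
      exact hv2 i
    have h4 := h x hx
    rw [norm_mul, norm_prod] at h4
    calc ‖e0‖ * ∏ i, ‖z i‖ ≤ ‖e0‖ * ∏ i, ‖aeval (v i) (P i)‖ :=
          mul_le_mul_of_nonneg_left h3 (norm_nonneg _)
      _ ≤ ‖e0‖ * (2 ^ (Fintype.card ι * g) * ∏ i, ‖aeval x (P i)‖) :=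
          mul_le_mul_of_nonneg_left hx2 (norm_nonneg _)
      _ = 2 ^ (Fintype.card ι * g) * (‖e0‖ * ∏ i, ‖dot x (z i)‖) := by
          simp only [hP]
          ring
      _ ≤ 2 ^ (Fintype.card ι * g) * B :=
          mul_le_mul_of_nonneg_left h4 (by positivity)

end Pool.Agent.SMQ
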