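import Pool.Agent.Lib.MP_452a87_nt.SpecL

set_option autoImplicit false

namespace Pool.Agent.SMQ

open MvPolynomial

namespace LMuAux

lemma one_le_l1 {σ : Type} (P : MvPolynomial σ ℤ) (hP : P ≠ 0) : 1 ≤ l1 P := by
  obtain ⟨μ, hμ⟩ := MvPolynomial.ne_zero_iff.mp hP
  unfold l1
  have h1 : 1 ≤ (P.coeff μ).natAbs := Int.natAbs_pos.mpr hμ
  exact h1.trans (Finset.single_le_sum (f := fun m => (P.coeff m).natAbs) (fun _ _ => Nat.zero_le _)
    (mem_support_iff.mpr hμ))

lemma sz_nonneg {σ : Type} (P : MvPolynomial σ ℤ) : 0 ≤ sz P := by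
  unfold sz
  have : 0 ≤ Real.log (l1 P : ℝ) := Real.log_natCast_nonneg _
  positivity

lemma aeval_le {σ : Type} (P : MvPolynomial σ ℤ) (x : σ → ℂ) (hx : Dsc x) : ‖aeval x P‖ ≤ (l1 P : ℝ) := by
  rw [aeval_def, eval₂_eq, l1]
  push_cast
  refine (norm_sum_le _ _).trans (Finset.sum_le_sum (fun m _ => ?_))
  rw [norm_mul, norm_prod]
  have h1 : ‖(algebraMap ℤ ℂ) (coeff m P)‖ = ((coeff m P).natAbs : ℝ) := by
    rw [algebraMap_int_eq, Int.coe_castRingHom, Complex.norm_intCast, Nat.cast_natAbs, Int.cast_abs]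
  rw [h1]
  have h2 : ∏ i ∈ m.support, ‖x i ^ m i‖ ≤ 1 := by
    apply Finset.prod_le_one (fun i _ => norm_nonneg _)
    intro i _
    rw [norm_pow]
    exact pow_le_one₀ (norm_nonneg _) (hx i)
  calc ((coeff m P).natAbs : ℝ) * ∏ i ∈ m.support, ‖x i ^ m i‖ ≤ ((coeff m P).natAbs : ℝ) * 1 :=
        mul_le_mul_of_nonneg_left h2 (by positivity)
    _ = _ := mul_one _

lemma deg_prod {σ ι : Type} (s : Finset ι) (f : ι → MvPolynomial σ ℤ) (hf : ∀ i ∈ s, f i ≠ 0) :
    (∏ i ∈ s, f i).totalDegree = ∑ i ∈ s, (f i).totalDegree := by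
  classical
  induction s using Finset.induction_on with
  | empty => simp
  | insert i s his ih =>
    rw [Finset.prod_insert his, Finset.sum_insert his]
    have h1 : f i ≠ 0 := hf i (Finset.mem_insert_self _ _)
    have h2 : ∀ j ∈ s, f j ≠ 0 := fun j hj => hf j (Finset.mem_insert_of_mem hj)
    rw [totalDegree_mul_of_isDomain h1 (Finset.prod_ne_zero_iff.mpr h2), ih h2]

/-- The main estimate for a complete factorization. -/
lemma main (hG : S_LG) (hI : S_LI1) {σ : Type} [Fintype σ] (k : ℕ) (P : Fin k → MvPolynomial σ ℤ)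
    (hP : ∀ i, P i ≠ 0) : ∏ i, (l1 (P i) : ℝ) ≤
      2 ^ (2 * Fintype.card σ * (∏ i, P i).totalDegree) * (l1 (∏ i, P i) : ℝ) := by
  classical
  choose a ha1 ha2 ha3 using fun i => hI σ (P i) (hP i)
  have hdeg := deg_prod Finset.univ P (fun i _ => hP i)
  have hae : ∀ (x : σ → ℂ) (Q : MvPolynomial σ ℤ), aeval x (map (Int.castRingHom ℂ) Q) = aeval x Q := by
    intro x Q
    have := MvPolynomial.aeval_map_algebraMap (R := ℤ) (A := ℂ) (B := ℂ) x Q
    simpa using this
  obtain ⟨x, hx, hx2⟩ := hG σ k (fun i => map (Int.castRingHom ℂ) (P i)) a ((∏ i, P i).totalDegree) ha1 (by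
    rw [hdeg]
    apply Finset.sum_le_sum
    intro i _
    exact Finset.sup_mono (support_map_subset _ _))
  simp only [hae] at hx2
  have hx3 : ∏ i, ‖aeval x (P i)‖ = ‖aeval x (∏ i, P i)‖ := by rw [map_prod, norm_prod]
  rw [hx3] at hx2
  have h3 := aeval_le (∏ i, P i) x hx
  calc ∏ i, (l1 (P i) : ℝ) ≤ ∏ i, (2 ^ (Fintype.card σ * (P i).totalDegree) * ‖aeval (a i) (P i)‖) :=
        Finset.prod_le_prod (fun i _ => by positivity) (fun i _ => ha3 i)
    _ = 2 ^ (Fintype.card σ * (∏ i, P i).totalDegree) * ∏ i, ‖aeval (a i) (P i)‖ := by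
        rw [Finset.prod_mul_distrib, Finset.prod_pow_eq_pow_sum, ← Finset.mul_sum, hdeg]
    _ ≤ 2 ^ (Fintype.card σ * (∏ i, P i).totalDegree) * (2 ^ (Fintype.card σ * (∏ i, P i).totalDegree) *
          (l1 (∏ i, P i) : ℝ)) := by
        apply mul_le_mul_of_nonneg_left _ (by positivity)
        exact hx2.trans (mul_le_mul_of_nonneg_left h3 (by positivity))
    _ = _ := by
        rw [← mul_assoc, ← pow_add]
        congr 2
        ring

end LMuAux

open LMuAux in
theorem pLMu (hG : S_LG) (hI : S_LI1) : S_LMu := by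
  intro σ _
  refine ⟨2 * Fintype.card σ + 1, by
    have : (0 : ℝ) ≤ Fintype.card σ := Nat.cast_nonneg _
    linarith, ?_⟩
  intro k P R hR hdvd
  obtain ⟨c, hc⟩ := hdvd
  set P' : Fin (k + 1) → MvPolynomial σ ℤ := Fin.cons c P with hP'
  have hprod : ∏ i, P' i = R := by
    rw [Fin.prod_univ_succ]
    simp only [hP', Fin.cons_zero, Fin.cons_succ]
    rw [hc, mul_comm]
  have hne : ∀ i, P' i ≠ 0 := by
    intro i hi
    apply hR
    rw [← hprod]
    exact Finset.prod_eq_zero (Finset.mem_univ i) hi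
  have h1 := main hG hI (k + 1) P' hne
  have h2 := deg_prod Finset.univ P' (fun i _ => hne i)
  rw [hprod] at h1 h2
  have h3 : ∑ i, sz (P i) ≤ ∑ i, sz (P' i) := by
    rw [Fin.sum_univ_succ]
    simp only [hP', Fin.cons_zero, Fin.cons_succ]
    linarith [sz_nonneg c]
  have h4 : ∑ i, sz (P' i) = (R.totalDegree : ℝ) + Real.log (∏ i, (l1 (P' i) : ℝ)) := by
    unfold sz
    rw [Finset.sum_add_distrib, Real.log_prod]
    · rw [h2]
      push_cast
      rfl
    · intro i _
      have := one_le_l1 (P' i) (hne i)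
      positivity
  have hlR : (1 : ℝ) ≤ (l1 R : ℝ) := by exact_mod_cast one_le_l1 R hR
  have h5 : Real.log (∏ i, (l1 (P' i) : ℝ)) ≤ (2 * Fintype.card σ * R.totalDegree : ℝ) + Real.log (l1 R : ℝ) := by
    have hpos : 0 < ∏ i, (l1 (P' i) : ℝ) := by
      apply Finset.prod_pos
      intro i _
      have := one_le_l1 (P' i) (hne i)
      positivity
    have h6 := Real.log_le_log hpos h1
    rw [Real.log_mul (by positivity) (by positivity), Real.log_pow] at h6
    have h7 : Real.log 2 ≤ 1 := by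
      have := Real.log_two_lt_d9
      linarith
    have h8 : ((2 * Fintype.card σ * R.totalDegree : ℕ) : ℝ) * Real.log 2 ≤ (2 * Fintype.card σ * R.totalDegree : ℝ) * 1 := by
      push_cast
      exact mul_le_mul_of_nonneg_left h7 (by positivity)
    linarith
  have h9 : 0 ≤ Real.log (l1 R : ℝ) := Real.log_nonneg hlR
  have h10 : (0 : ℝ) ≤ Fintype.card σ := Nat.cast_nonneg _
  have h11 : (0 : ℝ) ≤ R.totalDegree := Nat.cast_nonneg _
  calc ∑ i, sz (P i) ≤ (R.totalDegree : ℝ) + ((2 * Fintype.card σ * R.totalDegree : ℝ) + Real.log (l1 R : ℝ)) := by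
        linarith
    _ ≤ (2 * Fintype.card σ + 1) * sz R := by
        unfold sz
        nlinarith [mul_nonneg h10 h9]

end Pool.Agent.SMQ
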