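import Pool.Agent.Lib.MP_452a87_nt.SpecL

/-! MP_452a87_nt: proof of `S_LNr` (the nearest zero). -/

set_option autoImplicit false

namespace Pool.Agent.SMQ

open MvPolynomial

namespace LNrAux

theorem cont_aeval {ι : Type} (P : MvPolynomial ι ℤ) :
    Continuous fun z : ι → ℂ => aeval z P := by
  induction P using MvPolynomial.induction_on with
  | C a =>
    have h : (fun z : ι → ℂ => aeval z (C a : MvPolynomial ι ℤ)) = fun _ => (a : ℂ) := by
      funext z
      simp
    rw [h]
    exact continuous_const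
  | add p q hp hq =>
    have h : (fun z : ι → ℂ => aeval z (p + q)) = fun z => aeval z p + aeval z q := by
      funext z
      rw [map_add]
    rw [h]
    exact hp.add hq
  | mul_X p i hp =>
    have h : (fun z : ι → ℂ => aeval z (p * X i)) = fun z => aeval z p * z i := by
      funext z
      rw [map_mul, aeval_X]
    rw [h]
    exact hp.mul (continuous_apply i)

theorem isClosed_spc {ι : Type} (ξ : ι → ℂ) : IsClosed {z : ι → ℂ | Spc ξ z} := by
  have h : {z : ι → ℂ | Spc ξ z} =
      ⋂ (P : MvPolynomial ι ℤ) (_ : aeval ξ P = 0), {z : ι → ℂ | aeval z P = 0} := by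
    ext z
    simp only [Set.mem_setOf_eq, Set.mem_iInter]
    exact Iff.rfl
  rw [h]
  refine isClosed_iInter fun P => isClosed_iInter fun _ => ?_
  exact isClosed_eq (cont_aeval P) continuous_const

end LNrAux

open LNrAux in
theorem pLNr : S_LNr := by
  intro ι _ θ ξ
  obtain ⟨z0, hz0, h⟩ := (isClosed_spc ξ).exists_infDist_eq_dist ⟨ξ, Spc.refl ξ⟩ θ
  refine ⟨z0, hz0, fun z hz => ?_⟩
  have h1 : Metric.infDist θ {z : ι → ℂ | Spc ξ z} ≤ dist θ z := Metric.infDist_le_dist_of_mem hz
  rw [h] at h1
  rw [← dist_eq_norm, ← dist_eq_norm, dist_comm z0, dist_comm z]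
  exact h1

end Pool.Agent.SMQ
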