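import Pool.Agent.Lib.MP_452a87_nt.SpecL

/-!
# Polynomial coefficients with exact vanishing
-/

set_option autoImplicit false

namespace Pool.Agent.SMQ

open MvPolynomial

namespace LPgAux

lemma mon_eq {ι : Type} [Fintype ι] (c : ι → ℕ) :
    (∏ W, (X W : MvPolynomial ι ℤ) ^ c W) = monomial (Finsupp.equivFunOnFinite.symm c) 1 := by
  classical
  rw [monomial_eq]
  simp only [map_one, one_mul]
  rw [Finsupp.prod_fintype _ _ (fun i => pow_zero _)]
  rfl

lemma totalDegree_mon {m : ℕ} (c : Finset (Fin m) → ℕ) (B : ℕ) (hB : ∀ W, c W ≤ B) :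
    (∏ W, (X W : MvPolynomial (Finset (Fin m)) ℤ) ^ c W).totalDegree ≤ 2 ^ m * B := by
  refine (totalDegree_finsetProd _ _).trans ?_
  calc ∑ W : Finset (Fin m), ((X W : MvPolynomial (Finset (Fin m)) ℤ) ^ c W).totalDegree
      ≤ ∑ _W : Finset (Fin m), B := by
        refine Finset.sum_le_sum fun W _ => ?_
        refine (totalDegree_pow _ _).trans ?_
        rw [totalDegree_X, mul_one]
        exact hB W
    _ = 2 ^ m * B := by
        rw [Finset.sum_const, Finset.card_univ, Fintype.card_finset, Fintype.card_fin, smul_eq_mul]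

lemma coeff_mul_mon {ι : Type} [Fintype ι] (P : MvPolynomial ι ℤ) (c : ι → ℕ) (B : ℤ)
    (hB : ∀ μ, 0 ≤ P.coeff μ ∧ P.coeff μ < B) (ν : ι →₀ ℕ) :
    0 ≤ (P * ∏ W, (X W : MvPolynomial ι ℤ) ^ c W).coeff ν ∧ (P * ∏ W, (X W : MvPolynomial ι ℤ) ^ c W).coeff ν < B := by
  rw [mon_eq, coeff_mul_monomial']
  split_ifs
  · rw [mul_one]
    exact hB _
  · exact ⟨le_refl _, lt_of_le_of_lt (hB 0).1 (hB 0).2⟩

/-- The combinations are in the larger box. -/
lemma mem_box {m : ℕ} (a : Fin m → ℕ) (Cc : ℕ)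
    (hCc : ∀ (n1 n2 : ℕ) (lam s : Finset (Fin m) → ℕ), (∀ U, lam U ≤ n1) → (∀ V, s V ≤ n2) → ∀ W, cv a lam s W ≤ Cc * (n1 * n2))
    (N : ℕ) (hN : 1 ≤ N) (d A : ℕ) (hA1 : 2 ^ m * (Cc * (N * N)) ≤ A) (hA2 : 2 ^ m * N ≤ A) (hAd : A ≤ d)
    (P : (Finset (Fin m) → Fin N) → MvPolynomial (Finset (Fin m)) ℤ) (hP : ∀ lam, P lam ∈ Bx (Finset (Fin m)) d d)
    (s : Finset (Fin m) → ℕ) (hs : ∀ V, s V < N) : fsP a N P s ∈ Bx (Finset (Fin m)) (2 * d) (2 * d) := by
  have hcv : ∀ (lam : Finset (Fin m) → Fin N) (W : Finset (Fin m)), cv a (fun U => (lam U : ℕ)) s W ≤ Cc * (N * N) :=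
    fun lam W => hCc N N _ _ (fun U => (lam U).2.le) (fun V => (hs V).le) W
  constructor
  · unfold fsP
    refine (totalDegree_finsetSum _ _).trans ?_
    refine Finset.sup_le fun lam _ => ?_
    refine (totalDegree_mul _ _).trans ?_
    have h1 := (hP lam).1
    have h2 := totalDegree_mon (fun W => cv a (fun U => (lam U : ℕ)) s W) (Cc * (N * N)) (hcv lam)
    omega
  · intro ν
    unfold fsP
    rw [coeff_sum]
    have h1 : ∀ lam : Finset (Fin m) → Fin N,
        0 ≤ (P lam * ∏ W, (X W : MvPolynomial (Finset (Fin m)) ℤ) ^ cv a (fun U => (lam U : ℕ)) s W).coeff ν ∧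
        (P lam * ∏ W, (X W : MvPolynomial (Finset (Fin m)) ℤ) ^ cv a (fun U => (lam U : ℕ)) s W).coeff ν < 2 ^ d :=
      fun lam => coeff_mul_mon (P lam) _ _ (hP lam).2 ν
    refine ⟨Finset.sum_nonneg fun lam _ => (h1 lam).1, ?_⟩
    have h2 : N ^ 2 ^ m ≤ 2 ^ (2 ^ m * N) := by
      have h3 : N ≤ 2 ^ N := (Nat.lt_two_pow_self (n := N)).le
      have h4 : N ^ 2 ^ m ≤ (2 ^ N) ^ 2 ^ m := Nat.pow_le_pow_left h3 _
      rwa [← pow_mul, mul_comm N] at h4
    have hne : (Finset.univ : Finset (Finset (Fin m) → Fin N)).Nonempty := ⟨fun _ => ⟨0, hN⟩, Finset.mem_univ _⟩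
    calc ∑ lam : Finset (Fin m) → Fin N, (P lam * ∏ W, (X W : MvPolynomial (Finset (Fin m)) ℤ) ^ cv a (fun U => (lam U : ℕ)) s W).coeff ν
        < ∑ _lam : Finset (Fin m) → Fin N, (2 : ℤ) ^ d := Finset.sum_lt_sum_of_nonempty hne fun lam _ => (h1 lam).2
      _ = ((N ^ 2 ^ m : ℕ) : ℤ) * 2 ^ d := by
          rw [Finset.sum_const, Finset.card_univ, Fintype.card_fun, Fintype.card_finset, Fintype.card_fin,
            Fintype.card_fin, nsmul_eq_mul]
      _ ≤ ((2 ^ (2 ^ m * N) : ℕ) : ℤ) * 2 ^ d := by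
          apply mul_le_mul_of_nonneg_right _ (by positivity)
          exact_mod_cast h2
      _ = 2 ^ (2 ^ m * N + d) := by
          push_cast
          rw [pow_add]
      _ ≤ 2 ^ (2 * d) := by
          apply pow_le_pow_right₀ (by norm_num)
          omega

end LPgAux

open LPgAux

theorem pLPg (hLDb : S_LDb) (hCvb : S_Cvb) (hBxF : S_BxF) : S_LPg := by
  classical
  intro m a hm
  obtain ⟨Cc, hCc⟩ := hCvb m a
  set D : ℕ := 2 ^ m with hD
  have hD4 : 4 ≤ D := by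
    rw [hD]
    calc 4 = 2 ^ 2 := by norm_num
      _ ≤ 2 ^ m := Nat.pow_le_pow_right (by norm_num) hm
  set C0 : ℕ := D + D * Cc + 2 with hC0
  refine ⟨C0 ^ 2, Nat.pow_pos (by omega), fun N hN ξ => ?_⟩
  have hN1 : 1 ≤ N := by omega
  set A : ℕ := C0 * N ^ 2 with hA
  have hN2 : N ≤ N ^ 2 := Nat.le_self_pow (by norm_num) N
  have hA2 : 2 ≤ A := by
    rw [hA]
    nlinarith
  have hA1' : D * (Cc * (N * N)) ≤ A := by
    rw [hA, hC0]
    calc D * (Cc * (N * N)) = (D * Cc) * N ^ 2 := by ring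
      _ ≤ (D + D * Cc + 2) * N ^ 2 := Nat.mul_le_mul_right _ (by omega)
  have hA2' : D * N ≤ A := by
    rw [hA, hC0]
    calc D * N ≤ D * N ^ 2 := Nat.mul_le_mul_left _ hN2
      _ ≤ (D + D * Cc + 2) * N ^ 2 := Nat.mul_le_mul_right _ (by omega)
  have hcardF : Fintype.card (Finset (Fin m)) = D := by
    rw [Fintype.card_finset, Fintype.card_fin]
  obtain ⟨d, hd1, hd2, hκ2, hdb⟩ := hLDb (Finset (Fin m)) ξ A hA2
  rw [hcardF] at hdb
  set V : Set ℂ := (fun P : MvPolynomial (Finset (Fin m)) ℤ => aeval ξ P) '' Bx (Finset (Fin m)) d d with hV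
  set V2 : Set ℂ := (fun P : MvPolynomial (Finset (Fin m)) ℤ => aeval ξ P) '' Bx (Finset (Fin m)) (2 * d) (2 * d) with hV2
  have hVf : V.Finite := (hBxF _ d d).image _
  have hV2f : V2.Finite := (hBxF _ (2 * d) (2 * d)).image _
  let _ : Fintype V := hVf.fintype
  let _ : Fintype V2 := hV2f.fintype
  have hcV : Fintype.card V = Kc ξ d d := by
    rw [← Nat.card_eq_fintype_card, Nat.card_coe_set_eq]
    rfl
  have hcV2 : Fintype.card V2 = Kc ξ (2 * d) (2 * d) := by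
    rw [← Nat.card_eq_fintype_card, Nat.card_coe_set_eq]
    rfl
  have hrep : ∀ v : V, ∃ P : MvPolynomial (Finset (Fin m)) ℤ, P ∈ Bx (Finset (Fin m)) d d ∧ aeval ξ P = (v : ℂ) := by
    rintro ⟨v, P, hP, rfl⟩
    exact ⟨P, hP, rfl⟩
  choose rep hrep1 hrep2 using hrep
  set S0 : ℕ := N / 16 with hS0
  have hS1 : 1 ≤ S0 := by omega
  have hS16 : 16 * S0 ≤ N := by omega
  have hbox : ∀ (w : (Finset (Fin m) → Fin N) → V) (s : Finset (Fin m) → ℕ), (∀ V, s V < S0) →
      fsP a N (fun lam => rep (w lam)) s ∈ Bx (Finset (Fin m)) (2 * d) (2 * d) := fun w s hs =>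
    mem_box a Cc hCc N hN1 d A hA1' hA2' hd1 _ (fun lam => hrep1 (w lam)) s (fun V => by have := hs V; omega)
  set Φ : ((Finset (Fin m) → Fin N) → V) → ((Finset (Fin m) → Fin S0) → V2) := fun w s =>
    ⟨aeval ξ (fsP a N (fun lam => rep (w lam)) (fun V => (s V : ℕ))), _, hbox w _ (fun V => (s V).2), rfl⟩ with hΦ
  have hcard : Fintype.card ((Finset (Fin m) → Fin S0) → V2) < Fintype.card ((Finset (Fin m) → Fin N) → V) := by
    rw [Fintype.card_fun, Fintype.card_fun, Fintype.card_fun, Fintype.card_fun, hcV, hcV2, hcardF, Fintype.card_fin,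
      Fintype.card_fin]
    calc Kc ξ (2 * d) (2 * d) ^ (S0 ^ D) ≤ (Kc ξ d d ^ (2 ^ (3 * (D + 1)))) ^ (S0 ^ D) := Nat.pow_le_pow_left hdb _
      _ = Kc ξ d d ^ (2 ^ (3 * (D + 1)) * S0 ^ D) := by rw [← pow_mul]
      _ < Kc ξ d d ^ (N ^ D) := by
          apply Nat.pow_lt_pow_right hκ2
          calc 2 ^ (3 * (D + 1)) * S0 ^ D < 2 ^ (4 * D) * S0 ^ D := by
                apply Nat.mul_lt_mul_of_pos_right _ (Nat.pow_pos hS1)
                apply Nat.pow_lt_pow_right (by norm_num)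
                omega
            _ = (16 * S0) ^ D := by
                rw [mul_pow, pow_mul]
                norm_num
            _ ≤ N ^ D := Nat.pow_le_pow_left hS16 _
  obtain ⟨w, w', hne, heq⟩ := Fintype.exists_ne_map_eq_of_card_lt Φ hcard
  have hlam : ∃ lam, w lam ≠ w' lam := by
    by_contra h
    push Not at h
    exact hne (funext h)
  obtain ⟨lam0, hlam0⟩ := hlam
  refine ⟨fun lam => rep (w lam) - rep (w' lam), fun lam => ?_, ⟨lam0, ?_⟩, fun s hs => ?_⟩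
  · have hdd : d ≤ C0 ^ 2 * N ^ 4 := by
      calc d ≤ A ^ 2 := hd2
        _ = C0 ^ 2 * N ^ 4 := by rw [hA]; ring
    have h1 := hrep1 (w lam)
    have h2 := hrep1 (w' lam)
    refine ⟨?_, fun μ => ?_⟩
    · refine (totalDegree_sub _ _).trans ?_
      have := h1.1
      have := h2.1
      omega
    · rw [coeff_sub]
      have h3 := h1.2 μ
      have h4 := h2.2 μ
      have h5 : |(rep (w lam)).coeff μ - (rep (w' lam)).coeff μ| ≤ 2 ^ d := by
        rw [abs_le]
        constructor <;> linarith [h3.1, h3.2, h4.1, h4.2]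
      exact h5.trans (pow_le_pow_right₀ (by norm_num) hdd)
  · rw [map_sub, hrep2, hrep2, sub_ne_zero]
    exact fun h => hlam0 (Subtype.ext h)
  · have h0 := congrFun heq (fun V => ⟨s V, hs V⟩)
    have h1 : aeval ξ (fsP a N (fun lam => rep (w lam)) s) = aeval ξ (fsP a N (fun lam => rep (w' lam)) s) :=
      congrArg Subtype.val h0
    have h2 : fsP a N (fun lam => rep (w lam) - rep (w' lam)) s =
        fsP a N (fun lam => rep (w lam)) s - fsP a N (fun lam => rep (w' lam)) s := by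
      unfold fsP
      rw [← Finset.sum_sub_distrib]
      refine Finset.sum_congr rfl fun lam _ => ?_
      rw [sub_mul]
    rw [h2, map_sub, h1, sub_self]

end Pool.Agent.SMQ
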