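import Pool.Agent.Lib.MP_452a87_nt.SpecL

/-!
# The size of the norm (LRb)
-/

set_option autoImplicit false

namespace Pool.Agent.SMQ

open MvPolynomial

namespace LRbAux

lemma l1_bound {σ : Type} (P : MvPolynomial σ ℤ) (x : σ → ℂ) (M : ℝ) (hM : 1 ≤ M)
    (hx : ∀ i, ‖x i‖ ≤ M) : ‖aeval x P‖ ≤ l1 P * M ^ P.totalDegree := by
  rw [aeval_def, eval₂_eq, l1]
  refine (norm_sum_le _ _).trans ?_
  rw [Nat.cast_sum, Finset.sum_mul]
  refine Finset.sum_le_sum fun m hm => ?_
  rw [norm_mul]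
  have h1 : ‖(algebraMap ℤ ℂ) (coeff m P)‖ = ((coeff m P).natAbs : ℝ) := by
    rw [eq_intCast, Complex.norm_intCast, Nat.cast_natAbs, Int.cast_abs]
  rw [h1]
  apply mul_le_mul_of_nonneg_left _ (Nat.cast_nonneg _)
  rw [norm_prod]
  calc ∏ i ∈ m.support, ‖x i ^ m i‖ ≤ ∏ i ∈ m.support, M ^ m i := by
        refine Finset.prod_le_prod (fun _ _ => norm_nonneg _) fun i _ => ?_
        rw [norm_pow]
        exact pow_le_pow_left₀ (norm_nonneg _) (hx i) _
    _ = M ^ (m.sum fun _ e => e) := by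
        rw [Finset.prod_pow_eq_pow_sum]
        rfl
    _ ≤ M ^ P.totalDegree := pow_le_pow_right₀ hM (le_totalDegree hm)

lemma l1_pos {σ : Type} {P : MvPolynomial σ ℤ} (h : P ≠ 0) : 1 ≤ l1 P := by
  obtain ⟨m, hm⟩ := support_nonempty.2 h
  have h1 : (P.coeff m).natAbs ≤ l1 P := Finset.single_le_sum
    (f := fun m => (P.coeff m).natAbs) (fun _ _ => Nat.zero_le _) hm
  have h2 : 1 ≤ (P.coeff m).natAbs := by
    have := mem_support_iff.1 hm
    omega
  exact h2.trans h1

lemma card_support_le {σ : Type} [Fintype σ] [DecidableEq σ] (P : MvPolynomial σ ℤ) (D : ℕ)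
    (h : P.totalDegree ≤ D) : P.support.card ≤ (D + 1) ^ Fintype.card σ := by
  have h1 : P.support.card ≤ (Finset.univ : Finset (σ → Fin (D + 1))).card := by
    refine Finset.card_le_card_of_injOn
      (fun m i => (⟨min (m i) D, by omega⟩ : Fin (D + 1))) (fun _ _ => Finset.mem_coe.2 (Finset.mem_univ _)) ?_
    intro m hm m' hm' he
    ext i
    have h2 : m i ≤ D := (monomial_le_degreeOf i hm).trans ((degreeOf_le_totalDegree _ _).trans h)
    have h3 : m' i ≤ D := (monomial_le_degreeOf i hm').trans ((degreeOf_le_totalDegree _ _).trans h)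
    have h4 := congrArg Fin.val (congrFun he i)
    simp only at h4
    omega
  refine h1.trans (le_of_eq ?_)
  rw [Finset.card_univ, Fintype.card_fun, Fintype.card_fin]

end LRbAux

open LRbAux in
theorem pLRb (hLLf : S_LLf) (hLDn : S_LDn) (hLCf : S_LCf) (hLDf : S_LDf) : S_LRb := by
  intro ι _ _ r
  obtain ⟨C', hC', hF⟩ := hLDf ι 1 le_rfl
  set n : ℝ := (Fintype.card ι : ℝ) with hn'
  have hn : 0 ≤ n := Nat.cast_nonneg _
  set N' : ℕ := Fintype.card (BU ι r) with hN'
  refine ⟨N' + C' + n + 4, by have : (0 : ℝ) ≤ N' := Nat.cast_nonneg _; linarith, ?_⟩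
  intro ξ G g e f d R hG0 hg1 hg he hR0 hd hf hSec
  have hl1 : (1 : ℝ) ≤ l1 G := by exact_mod_cast l1_pos hG0
  have hlog : 0 ≤ Real.log (l1 G : ℝ) := Real.log_nonneg hl1
  have hg0 : (1 : ℝ) ≤ g := by exact_mod_cast hg1
  have hgd : (g : ℝ) ≤ G.totalDegree := by exact_mod_cast hg
  have hd0 : (1 : ℝ) ≤ d := by exact_mod_cast hd
  set B : ℝ := Real.exp (C' * d) ^ g * (2 ^ ((Fintype.card ι + 1) * g) * l1 G) ^ d with hB
  have hB1 : 1 ≤ B := by
    apply one_le_mul_of_one_le_of_one_le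
    · exact one_le_pow₀ (Real.one_le_exp (by positivity))
    · exact one_le_pow₀ (one_le_mul_of_one_le_of_one_le (one_le_pow₀ (by norm_num)) hl1)
  set A : MvPolynomial (BU ι r) ℂ := map (Int.castRingHom ℂ) R with hA
  have hAe : ∀ x : BU ι r → ℂ, aeval x A = aeval x R := by
    intro x
    rw [hA, aeval_def, eval₂_map, aeval_def]
    congr 1
  -- the bound on polydiscs
  have key : ∀ ϱ : ℝ, 1 ≤ ϱ → ∀ x : BU ι r → ℂ, (∀ p, ‖x p‖ ≤ ϱ) →
      ‖aeval x A‖ ≤ B * ϱ ^ (d * G.totalDegree) := by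
    intro ϱ hϱ
    have he' : rename (Sum.inl : Fin r × ι → BU ι r) e ≠ 0 := by
      intro h
      exact he (rename_injective _ Sum.inl_injective (h.trans (map_zero _).symm))
    refine hLDn (BU ι r) (rename Sum.inl e) A ϱ _ (by linarith) he' ?_
    intro x hx hxe
    rw [aeval_rename] at hxe
    rw [hAe]
    set u : Fin r × ι → ℂ := x ∘ Sum.inl with hu
    set t : Fin r → ℂ := x ∘ Sum.inr with ht
    have hxut : x = Sum.elim u t := by
      funext p
      rcases p with p | p <;> rfl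
    obtain ⟨z, hz, hG, hR⟩ := hSec u t hxe
    rw [hxut, hR, norm_mul, norm_pow, norm_prod]
    have h1 : ∀ (v : ι → ℂ) (T : ℂ), Dsc v → ‖T‖ ≤ 1 → ‖aeval u e * ∏ i, (T - dot v (z i))‖ ≤
        l1 G * ϱ ^ G.totalDegree := by
      intro v T hv hT
      rw [← hG]
      apply l1_bound _ _ _ hϱ
      rintro (⟨i, j⟩ | i)
      · refine Fin.cases ?_ (fun i => ?_) i
        · simpa using (hv j).trans hϱ
        · exact hx (Sum.inl (i, j))
      · refine Fin.cases ?_ (fun i => ?_) i
        · simpa using hT.trans hϱ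
        · simp only [Sum.elim_inr, Fin.cons_succ]
          exact hx (Sum.inr i)
    have h3 := (hLLf ι g z (aeval u e) _).1 h1
    calc ‖aeval u e‖ ^ d * ∏ i, ‖aeval (z i) f‖
        ≤ ‖aeval u e‖ ^ d * ∏ i, (Real.exp (C' * d) * max 1 ‖z i‖ ^ d) := by
          apply mul_le_mul_of_nonneg_left _ (by positivity)
          exact Finset.prod_le_prod (fun i _ => norm_nonneg _)
            fun i _ => (hF 0 (z i) f d (by simp) hd hf).1
      _ = Real.exp (C' * d) ^ g * (‖aeval u e‖ * ∏ i, max 1 ‖z i‖) ^ d := by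
          rw [Finset.prod_mul_distrib, Finset.prod_const, Finset.card_univ,
            Fintype.card_fin, Finset.prod_pow, mul_pow]
          ring
      _ ≤ Real.exp (C' * d) ^ g * (2 ^ ((Fintype.card ι + 1) * g) * (l1 G * ϱ ^ G.totalDegree)) ^ d := by
          gcongr
      _ = B * ϱ ^ (d * G.totalDegree) := by
          rw [hB, ← mul_assoc, mul_pow _ (ϱ ^ G.totalDegree), ← pow_mul, mul_comm G.totalDegree d]
          ring
  have hcf : ∀ ϱ : ℝ, 1 ≤ ϱ → ∀ μ, |((R.coeff μ : ℤ) : ℝ)| * ϱ ^ (μ.sum fun _ k => k) ≤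
      B * ϱ ^ (d * G.totalDegree) := by
    intro ϱ hϱ μ
    have h := hLCf (BU ι r) A ϱ _ (by linarith) (key ϱ hϱ) μ
    rw [hA, coeff_map] at h
    simpa using h
  -- the degree
  have hdeg : R.totalDegree ≤ d * G.totalDegree := by
    rw [totalDegree, Finset.sup_le_iff]
    intro μ hμ
    by_contra hlt
    push Not at hlt
    have h1 : (1 : ℝ) ≤ |((R.coeff μ : ℤ) : ℝ)| := by
      have h2 := Int.one_le_abs (mem_support_iff.1 hμ)
      exact_mod_cast h2
    have h2 := hcf (B + 1) (by linarith) μ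
    obtain ⟨k, hk⟩ := Nat.exists_eq_add_of_lt hlt
    have h5 : (B + 1) ^ (d * G.totalDegree + 1) ≤ (B + 1) ^ (μ.sum fun _ k => k) :=
      pow_le_pow_right₀ (by linarith) (by omega)
    have h6 : 0 < (B + 1) ^ (d * G.totalDegree) := by positivity
    have h7 : (B + 1) * (B + 1) ^ (d * G.totalDegree) ≤ B * (B + 1) ^ (d * G.totalDegree) := by
      calc (B + 1) * (B + 1) ^ (d * G.totalDegree) = 1 * (B + 1) ^ (d * G.totalDegree + 1) := by ring
        _ ≤ |((R.coeff μ : ℤ) : ℝ)| * (B + 1) ^ (μ.sum fun _ k => k) :=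
          mul_le_mul h1 h5 (by positivity) (by positivity)
        _ ≤ _ := h2
    nlinarith
  -- the coefficients
  have hc1 : ∀ μ, ((R.coeff μ).natAbs : ℝ) ≤ B := by
    intro μ
    have h := hcf 1 le_rfl μ
    rw [one_pow, one_pow, mul_one, mul_one] at h
    rwa [Nat.cast_natAbs, Int.cast_abs]
  have hl1R : (l1 R : ℝ) ≤ (d * G.totalDegree + 1 : ℕ) ^ N' * B := by
    unfold l1
    rw [Nat.cast_sum]
    calc ∑ μ ∈ R.support, ((R.coeff μ).natAbs : ℝ) ≤ ∑ _μ ∈ R.support, B :=
          Finset.sum_le_sum fun μ _ => hc1 μ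
      _ = R.support.card * B := by rw [Finset.sum_const, nsmul_eq_mul]
      _ ≤ _ := by
          apply mul_le_mul_of_nonneg_right _ (by linarith)
          exact_mod_cast card_support_le R _ hdeg
  have hl1R1 : (1 : ℝ) ≤ l1 R := by exact_mod_cast l1_pos hR0
  -- logarithms
  have hlogR : Real.log (l1 R : ℝ) ≤ N' * (d * G.totalDegree) +
      (C' * d * g + ((n + 1) * g * d + d * Real.log (l1 G : ℝ))) := by
    have h2 : (2 : ℝ) ≤ Real.exp 1 := by
      have := Real.add_one_le_exp (1 : ℝ)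
      linarith
    rw [← Real.log_exp (N' * (d * G.totalDegree) +
      (C' * d * g + ((n + 1) * g * d + d * Real.log (l1 G : ℝ))))]
    apply Real.log_le_log (by linarith)
    refine hl1R.trans ?_
    rw [Real.exp_add, Real.exp_add, Real.exp_add]
    apply mul_le_mul _ _ (by linarith) (Real.exp_nonneg _)
    · calc ((d * G.totalDegree + 1 : ℕ) : ℝ) ^ N' ≤ Real.exp (d * G.totalDegree) ^ N' := by
            apply pow_le_pow_left₀ (Nat.cast_nonneg _)
            have := Real.add_one_le_exp ((d : ℝ) * G.totalDegree)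
            push_cast
            linarith
        _ = _ := by rw [← Real.exp_nat_mul]
    · rw [hB, mul_pow]
      apply mul_le_mul _ _ (by positivity) (Real.exp_nonneg _)
      · rw [← Real.exp_nat_mul]
        apply le_of_eq
        congr 1
        ring
      · apply mul_le_mul _ _ (by positivity) (Real.exp_nonneg _)
        · calc ((2 : ℝ) ^ ((Fintype.card ι + 1) * g)) ^ d ≤ (Real.exp 1 ^ ((Fintype.card ι + 1) * g)) ^ d := by
                gcongr
            _ = _ := by
                rw [← pow_mul, ← Real.exp_nat_mul, hn']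
                push_cast
                ring_nf
        · rw [Real.exp_nat_mul, Real.exp_log (by linarith)]
  have hRd : (R.totalDegree : ℝ) ≤ d * G.totalDegree := by exact_mod_cast hdeg
  have hdG : (1 : ℝ) ≤ d * G.totalDegree := by
    have : (1 : ℝ) ≤ G.totalDegree := hg0.trans hgd
    nlinarith
  unfold sz
  have h1 : C' * d * g ≤ C' * d * G.totalDegree := mul_le_mul_of_nonneg_left hgd (by positivity)
  have h2 : (n + 1) * g * d ≤ (n + 1) * G.totalDegree * d := by gcongr
  have h3 : 0 ≤ (N' : ℝ) * (d * Real.log (l1 G : ℝ)) := by positivity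
  have h4 : 0 ≤ C' * d * Real.log (l1 G : ℝ) := by positivity
  have h5 : 0 ≤ n * (d * Real.log (l1 G : ℝ)) := by positivity
  have h6 : 0 ≤ (d * Real.log (l1 G : ℝ)) := by positivity
  nlinarith

end Pool.Agent.SMQ
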