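import Pool.Agent.Lib.MP_452a87_nt.SpecL

/-!
# LRe: the norm is a polynomial over the integers
-/

set_option autoImplicit false

namespace Pool.Agent.SMQ

open MvPolynomial

namespace LReAux

/-- The variables of `G(v, T; u, t)` as polynomials in `v, T` over `ℤ[U, T]`. -/
private noncomputable def sv (ι : Type) (r : ℕ) :
    BU ι (r + 1) → MvPolynomial (Option ι) (MvPolynomial (BU ι r) ℤ) :=
  Sum.elim
    (fun p => Fin.cases (motive := fun _ => MvPolynomial (Option ι) (MvPolynomial (BU ι r) ℤ))
      (X (some p.2)) (fun i => C (X (Sum.inl (i, p.2)))) p.1)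
    (Fin.cases (X none) (fun i => C (X (Sum.inr i))))

private lemma eval_sv {ι : Type} {r : ℕ} (u' : Fin r × ι → ℂ) (t' : Fin r → ℂ)
    (G : MvPolynomial (BU ι (r + 1)) ℤ) (y : Option ι → ℂ) :
    eval y (MvPolynomial.map (aeval (R := ℤ) (Sum.elim u' t')).toRingHom (aeval (sv ι r) G)) =
      aeval (Sum.elim (full (fun j => y (some j)) u')
        (Fin.cons (y none) t' : Fin (r + 1) → ℂ)) G := by
  have h := comp_aeval_apply (R := ℤ) (f := sv ι r)
    (((eval y).comp (MvPolynomial.map
      (aeval (R := ℤ) (Sum.elim u' t')).toRingHom)).toIntAlgHom) G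
  have h2 : eval y (MvPolynomial.map (aeval (R := ℤ) (Sum.elim u' t')).toRingHom
      (aeval (sv ι r) G)) = (((eval y).comp (MvPolynomial.map
      (aeval (R := ℤ) (Sum.elim u' t')).toRingHom)).toIntAlgHom) (aeval (sv ι r) G) := rfl
  refine h2.trans (h.trans ?_)
  congr 2
  funext b
  rcases b with p | i
  · obtain ⟨i, j⟩ := p
    refine Fin.cases ?_ (fun i => ?_) i
    · simp [sv, full]
    · simp [sv, full]
  · refine Fin.cases ?_ (fun i => ?_) i
    · simp [sv]
    · simp [sv]

end LReAux

theorem pLRe (hLVl : S_LVl) : S_LRe := by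
  intro ι _ _ r g u' t' G z e hind hG hK f d hd
  have hindZ : AlgebraicIndependent ℤ (Sum.elim u' t') :=
    hind.restrictScalars (FaithfulSMul.algebraMap_injective ℤ ℚ)
  let φ : MvPolynomial (BU ι r) ℤ →+* ℂ := (aeval (R := ℤ) (Sum.elim u' t')).toRingHom
  have hφi : Function.Injective φ := hindZ
  let O : Subring ℂ := φ.range
  set w : ℂ := aeval u' e ^ d * ∏ i, aeval (z i) f with hw
  -- `O` is integrally closed
  have hOic : IsIntegrallyClosed O := IsIntegrallyClosed.of_equiv (RingEquiv.ofLeftInverse
    (f := φ) (Function.leftInverse_invFun hφi))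
  -- `w` is in the fraction field
  have he : aeval u' e = φ (rename Sum.inl e) := by
    change _ = aeval (Sum.elim u' t') (rename Sum.inl e)
    rw [aeval_rename]
    rfl
  have hsub : ∀ y : ℂ, y ∈ IntermediateField.adjoin ℚ (Set.range (Sum.elim u' t')) →
      y ∈ Subfield.closure (O : Set ℂ) := by
    intro y hy
    have h1 : IntermediateField.adjoin ℚ (Set.range (Sum.elim u' t')) ≤
        (Subfield.closure (O : Set ℂ)).toIntermediateField
          (fun q => by rw [eq_ratCast]; exact SubfieldClass.ratCast_mem _ q) := by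
      rw [IntermediateField.adjoin_le_iff]
      rintro _ ⟨b, rfl⟩
      exact Subfield.subset_closure ⟨X b, aeval_X _ _⟩
    exact h1 hy
  have hwK : w ∈ Subfield.closure (O : Set ℂ) := by
    refine mul_mem (pow_mem (Subfield.subset_closure ?_) d) (hsub _ (hK f))
    rw [he]
    exact ⟨_, rfl⟩
  have hcl : Subring.closure (O : Set ℂ) = O := Subring.closure_eq O
  -- the integrality
  have hval : ∀ V : ValuationSubring ℂ, (O : Set ℂ) ⊆ V.toSubring → w ∈ V := by
    intro V hV
    refine hLVl ι ℂ V g z (aeval u' e)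
      (MvPolynomial.map φ (aeval (LReAux.sv ι r) G)) ?_ ?_ f d hd
    · intro μ
      rw [coeff_map]
      exact hV ⟨_, rfl⟩
    · refine MvPolynomial.funext fun y => ?_
      rw [show eval y (MvPolynomial.map φ (aeval (LReAux.sv ι r) G)) = _ from
        LReAux.eval_sv u' t' G y, hG]
      simp only [map_mul, map_prod, map_sub, map_sum, eval_C, eval_X, dot]
      congr 1
      refine Finset.prod_congr rfl fun i _ => ?_
      congr 1
      exact Finset.sum_congr rfl fun j _ => mul_comm _ _
  have hint : IsIntegral O w := by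
    have h1 : w ∈ (⨅ V : {V : ValuationSubring ℂ // (O : Set ℂ) ⊆ V.toSubring},
        V.1.toSubring) := by
      rw [Subring.mem_iInf]
      intro V
      exact hval V.1 V.2
    rw [iInf_valuationSubring_superset] at h1
    have h2 : IsIntegral (Subring.closure (O : Set ℂ)) w := h1
    rwa [hcl] at h2
  obtain ⟨a, ha, b, hb, hab⟩ := Subfield.mem_closure_iff.1 hwK
  rw [hcl] at ha hb
  have hmem : w ∈ O := by
    by_cases hb0 : b = 0
    · rw [← hab, hb0, div_zero]
      exact O.zero_mem
    let _ := FractionRing.liftAlgebra O ℂ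
    have : IsScalarTower O (FractionRing O) ℂ := FractionRing.isScalarTower_liftAlgebra O ℂ
    have h1 : algebraMap (FractionRing O) ℂ
        (algebraMap O (FractionRing O) ⟨a, ha⟩ / algebraMap O (FractionRing O) ⟨b, hb⟩) = w := by
      rw [map_div₀, ← IsScalarTower.algebraMap_apply, ← IsScalarTower.algebraMap_apply]
      exact hab
    rw [← h1, isIntegral_algebraMap_iff (algebraMap (FractionRing O) ℂ).injective] at hint
    obtain ⟨y, hy⟩ := IsIntegrallyClosed.isIntegral_iff.1 hint
    rw [← h1, ← hy, ← IsScalarTower.algebraMap_apply]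
    exact y.2
  obtain ⟨R, hR⟩ := hmem
  exact ⟨R, hR⟩

end Pool.Agent.SMQ
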