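import Pool.Agent.Lib.MP_452a87_nt.SpecL

/-!
# Selection of a factor (LSe)
-/

set_option autoImplicit false

namespace Pool.Agent.SMQ

open MvPolynomial

namespace LSeAux

lemma l1_pos {σ : Type} {P : MvPolynomial σ ℤ} (h : P ≠ 0) : 1 ≤ l1 P := by
  obtain ⟨m, hm⟩ := support_nonempty.2 h
  have h1 : (P.coeff m).natAbs ≤ l1 P := Finset.single_le_sum
    (f := fun m => (P.coeff m).natAbs) (fun _ _ => Nat.zero_le _) hm
  have h2 : 1 ≤ (P.coeff m).natAbs := by
    have := mem_support_iff.1 hm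
    omega
  exact h2.trans h1

lemma sz_nonneg {σ : Type} {P : MvPolynomial σ ℤ} (h : P ≠ 0) : 0 ≤ sz P := by
  unfold sz
  have h1 : (1 : ℝ) ≤ l1 P := by exact_mod_cast l1_pos h
  have h2 := Real.log_nonneg h1
  have h3 : (0 : ℝ) ≤ P.totalDegree := Nat.cast_nonneg _
  linarith

/-- The polynomial `R^θ`. -/
noncomputable def Rt {ι : Type} [Fintype ι] {r : ℕ} (θ : ι → ℂ) (R : MvPolynomial (BU ι r) ℤ) :
    MvPolynomial (Fin r × ι) ℂ :=
  aeval (Sum.elim (fun p => X p) fun i => ∑ j, X (i, j) * C (θ j)) R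

lemma aeval_Rt {ι : Type} [Fintype ι] {r : ℕ} (θ : ι → ℂ) (R : MvPolynomial (BU ι r) ℤ)
    (x : Fin r × ι → ℂ) : aeval x (Rt θ R) = vt θ R x := by
  unfold Rt vt
  have h := comp_aeval_apply (R := ℤ) (Sum.elim (fun p => (X p : MvPolynomial (Fin r × ι) ℂ))
    fun i => ∑ j, X (i, j) * C (θ j)) ((aeval x : MvPolynomial (Fin r × ι) ℂ →ₐ[ℂ] ℂ).restrictScalars ℤ) R
  refine h.trans ?_
  congr 2
  funext p
  rcases p with p | i
  · simp
  · simp [psi]

lemma totalDegree_aeval_le {σ τ : Type} (f : σ → MvPolynomial τ ℂ) (hf : ∀ i, (f i).totalDegree ≤ 1)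
    (P : MvPolynomial σ ℤ) : (aeval f P).totalDegree ≤ P.totalDegree := by
  rw [aeval_def, eval₂_eq]
  apply totalDegree_finsetSum_le
  intro m hm
  refine (totalDegree_mul _ _).trans ?_
  have h1 : ((algebraMap ℤ (MvPolynomial τ ℂ)) (coeff m P)).totalDegree = 0 := by
    rw [eq_intCast, ← map_intCast (C : ℂ →+* MvPolynomial τ ℂ), totalDegree_C]
  rw [h1, zero_add]
  refine (totalDegree_finsetProd _ _).trans ?_
  calc ∑ i ∈ m.support, (f i ^ m i).totalDegree ≤ ∑ i ∈ m.support, m i := by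
        refine Finset.sum_le_sum fun i _ => ?_
        refine (totalDegree_pow _ _).trans ?_
        calc m i * (f i).totalDegree ≤ m i * 1 := Nat.mul_le_mul_left _ (hf i)
          _ = m i := mul_one _
    _ ≤ P.totalDegree := le_totalDegree hm

lemma totalDegree_Rt_le {ι : Type} [Fintype ι] {r : ℕ} (θ : ι → ℂ) (R : MvPolynomial (BU ι r) ℤ) :
    (Rt θ R).totalDegree ≤ R.totalDegree := by
  apply totalDegree_aeval_le
  rintro (p | i)
  · simp
  · simp only [Sum.elim_inr]
    apply totalDegree_finsetSum_le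
    intro j _
    refine (totalDegree_mul _ _).trans ?_
    simp

lemma totalDegree_prod {σ κ : Type} (s : Finset κ) (Q : κ → MvPolynomial σ ℤ) (h : ∀ i, Q i ≠ 0) :
    (∏ i ∈ s, Q i).totalDegree = ∑ i ∈ s, (Q i).totalDegree := by
  classical
  induction s using Finset.induction_on with
  | empty => simp
  | insert a s ha ih =>
    rw [Finset.prod_insert ha, Finset.sum_insert ha, totalDegree_mul_of_isDomain (h a)
      (Finset.prod_ne_zero_iff.2 fun i _ => h i), ih]

lemma fact {ι : Type} {r : ℕ} (R : MvPolynomial (BU ι r) ℤ) (hR : R ≠ 0) :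
    ∃ (k : ℕ) (P : Fin k → MvPolynomial (BU ι r) ℤ) (c : MvPolynomial (Fin r × ι) ℤ), c ≠ 0 ∧
      (∀ i, Irreducible (P i) ∧ ∀ l : MvPolynomial (Fin r × ι) ℤ, rename Sum.inl l ≠ P i) ∧
      R = rename Sum.inl c * ∏ i, P i := by
  classical
  revert hR
  refine UniqueFactorizationMonoid.induction_on_prime R ?_ ?_ ?_
  · intro h
    exact absurd rfl h
  · intro x hx _
    obtain ⟨a, ha, rfl⟩ := isUnit_iff_eq_C_of_isReduced.1 hx
    refine ⟨0, Fin.elim0, C a, ?_, fun i => i.elim0, ?_⟩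
    · intro h
      rw [C_eq_zero] at h
      exact ha.ne_zero h
    · simp
  · intro a p ha hp ih _
    obtain ⟨k, P, c, hc, hP, rfl⟩ := ih ha
    by_cases h : ∃ l : MvPolynomial (Fin r × ι) ℤ, rename Sum.inl l = p
    · obtain ⟨l, rfl⟩ := h
      refine ⟨k, P, l * c, ?_, hP, ?_⟩
      · apply mul_ne_zero _ hc
        rintro rfl
        rw [map_zero] at hp
        exact hp.ne_zero rfl
      · rw [map_mul, mul_assoc]
    · push Not at h
      refine ⟨k + 1, Fin.cons p P, c, hc, ?_, ?_⟩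
      · intro i
        refine Fin.cases ?_ (fun i => ?_) i
        · exact ⟨hp.irreducible, h⟩
        · exact hP i
      · rw [Fin.prod_univ_succ]
        simp only [Fin.cons_zero, Fin.cons_succ]
        ring

end LSeAux

open LSeAux in
theorem pLSe (hLG : S_LG) (hLI1 : S_LI1) (hLMu : S_LMu) : S_LSe := by
  intro ι _ _ r
  obtain ⟨C1, hC1, hM⟩ := hLMu (BU ι r)
  set N : ℝ := (Fintype.card (Fin r × ι) : ℝ) with hN
  have hN0 : 0 ≤ N := Nat.cast_nonneg _
  refine ⟨C1 + N + 1, by linarith, ?_⟩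
  intro θ R κ hκ hR0 hR
  obtain ⟨k, P, c, hc, hP, hRe⟩ := fact R hR0
  have hP0 : ∀ i, P i ≠ 0 := fun i => (hP i).1.ne_zero
  have hsR : 0 ≤ sz R := sz_nonneg hR0
  have hsum := hM k P R hR0 ⟨rename Sum.inl c, by rw [hRe]; ring⟩
  have hszi : ∀ i, sz (P i) ≤ C1 * sz R := fun i =>
    (Finset.single_le_sum (f := fun i => sz (P i)) (fun i _ => sz_nonneg (hP0 i))
      (Finset.mem_univ i)).trans hsum
  by_contra hcon
  push Not at hcon
  have h1 : ∀ i, ∃ u, Dsc u ∧ Real.exp (-(κ * sz (P i))) < ‖vt θ (P i) u‖ := by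
    intro i
    refine hcon (P i) (hP i).1 ?_ (hP i).2 ?_
    · rw [hRe]
      exact (Finset.dvd_prod_of_mem _ (Finset.mem_univ i)).mul_left _
    · refine (hszi i).trans ?_
      apply mul_le_mul_of_nonneg_right _ hsR
      linarith
  choose u hu hvu using h1
  obtain ⟨a, ha, hca, -⟩ := hLI1 (Fin r × ι) c hc
  have hc' : (rename Sum.inl c : MvPolynomial (BU ι r) ℤ) ≠ 0 := by
    intro h
    exact hc (rename_injective _ Sum.inl_injective (h.trans (map_zero _).symm))
  set Q : Fin (k + 1) → MvPolynomial (BU ι r) ℤ := Fin.cons (rename Sum.inl c) P with hQ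
  have hQ0 : ∀ i, Q i ≠ 0 := by
    intro i
    refine Fin.cases ?_ (fun i => ?_) i
    · exact hc'
    · exact hP0 i
  have hRQ : R = ∏ i, Q i := by
    rw [Fin.prod_univ_succ]
    simp only [hQ, Fin.cons_zero, Fin.cons_succ]
    exact hRe
  have hD : ∑ i, (Rt θ (Q i)).totalDegree ≤ R.totalDegree := by
    rw [hRQ, totalDegree_prod _ _ hQ0]
    exact Finset.sum_le_sum fun i _ => totalDegree_Rt_le θ _
  obtain ⟨x, hx, hxx⟩ := hLG (Fin r × ι) (k + 1) (fun i => Rt θ (Q i)) (Fin.cons a u) R.totalDegree (by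
    intro i
    refine Fin.cases ?_ (fun i => ?_) i
    · exact ha
    · exact hu i) hD
  simp only [aeval_Rt] at hxx
  have h2 : ∏ i, ‖vt θ (Q i) x‖ = ‖vt θ R x‖ := by
    unfold vt
    rw [hRQ, map_prod, norm_prod]
  rw [h2, Fin.prod_univ_succ] at hxx
  simp only [hQ, Fin.cons_zero, Fin.cons_succ] at hxx
  have h3 : 1 ≤ ‖vt θ (rename Sum.inl c) a‖ := by
    unfold vt
    rw [aeval_rename]
    exact hca
  have h4 : Real.exp (-(κ * (C1 * sz R))) ≤ ∏ i, ‖vt θ (P i) (u i)‖ := by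
    calc Real.exp (-(κ * (C1 * sz R))) ≤ Real.exp (∑ i, -(κ * sz (P i))) := by
          apply Real.exp_le_exp.2
          rw [Finset.sum_neg_distrib, ← Finset.mul_sum]
          have := mul_le_mul_of_nonneg_left hsum hκ
          linarith
      _ = ∏ i, Real.exp (-(κ * sz (P i))) := Real.exp_sum _ _
      _ ≤ _ := Finset.prod_le_prod (fun i _ => Real.exp_nonneg _) fun i _ => (hvu i).le
  have h5 : Real.exp (-(κ * (C1 * sz R))) ≤ 2 ^ (Fintype.card (Fin r × ι) * R.totalDegree) * ‖vt θ R x‖ := by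
    refine le_trans ?_ hxx
    calc Real.exp (-(κ * (C1 * sz R))) = 1 * Real.exp (-(κ * (C1 * sz R))) := (one_mul _).symm
      _ ≤ _ := mul_le_mul h3 h4 (Real.exp_nonneg _) (by positivity)
  have h6 : (2 : ℝ) ^ (Fintype.card (Fin r × ι) * R.totalDegree) ≤ Real.exp (N * R.totalDegree) := by
    have h2 : (2 : ℝ) ≤ Real.exp 1 := by
      have := Real.add_one_le_exp (1 : ℝ)
      linarith
    calc (2 : ℝ) ^ (Fintype.card (Fin r × ι) * R.totalDegree)
        ≤ Real.exp 1 ^ (Fintype.card (Fin r × ι) * R.totalDegree) := pow_le_pow_left₀ (by norm_num) h2 _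
      _ = _ := by
          rw [← Real.exp_nat_mul, hN]
          push_cast
          ring_nf
  have h7 : Real.exp (-(κ * (C1 * sz R))) ≤ Real.exp (N * R.totalDegree) *
      Real.exp (-((κ + 1) * ((C1 + N + 1) * (sz R + 1)))) :=
    h5.trans (mul_le_mul h6 (hR x hx) (norm_nonneg _) (Real.exp_nonneg _))
  rw [← Real.exp_add, Real.exp_le_exp] at h7
  have hdR : (R.totalDegree : ℝ) ≤ sz R := by
    unfold sz
    have h1 : (1 : ℝ) ≤ l1 R := by exact_mod_cast l1_pos hR0
    have := Real.log_nonneg h1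
    linarith
  have h8 : N * R.totalDegree ≤ N * sz R := mul_le_mul_of_nonneg_left hdR hN0
  have e1 : 0 ≤ κ * (N * sz R) := by positivity
  have e2 : 0 ≤ κ * sz R := by positivity
  have e3 : 0 ≤ κ * C1 := by positivity
  have e4 : 0 ≤ κ * N := by positivity
  have e5 : 0 ≤ C1 * sz R := by positivity
  nlinarith

end Pool.Agent.SMQ
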