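import Pool.Agent.Lib.MP_452a87_nt.SpecL

/-!
# One stage of the iteration (linear large transcendence degree)
-/

set_option autoImplicit false

namespace Pool.Agent.SMQ

open MvPolynomial

namespace LStAux

lemma sz_ge {σ : Type} (G : MvPolynomial σ ℤ) : (G.totalDegree : ℝ) ≤ sz G := by
  unfold sz
  have := Real.log_natCast_nonneg (l1 G)
  linarith

lemma Sz_mono {ι : Type} (f : MvPolynomial ι ℤ) (d d' : ℕ) (h : d ≤ d') (hf : Sz f d) : Sz f d' :=
  ⟨hf.1.trans h, fun μ => (hf.2 μ).trans (pow_le_pow_right₀ (by norm_num) h)⟩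

/-- After the elimination step. -/
lemma post (hLSe : S_LSe) (hLFc : S_LFc) {m : ℕ} (a : Fin m → ℕ) (L : ℂ) (r : ℕ) :
    ∃ CS : ℝ, 1 ≤ CS ∧ ∀ (ξ : Finset (Fin m) → ℂ) (G : MvPolynomial (BU (Finset (Fin m)) (r + 1)) ℤ) (g : ℕ)
      (e : MvPolynomial (Fin r × Finset (Fin m)) ℤ) (f : MvPolynomial (Finset (Fin m)) ℤ) (d : ℕ)
      (R : MvPolynomial (BU (Finset (Fin m)) r) ℤ) (κ' S' : ℝ), Spc (th a L) ξ → Tr ξ r → aeval ξ f ≠ 0 → e ≠ 0 → R ≠ 0 →
      Sec ξ G g e f d R → 0 ≤ κ' → CS * sz R ≤ S' →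
      (∀ u, Dsc u → ‖vt (th a L) R u‖ ≤ Real.exp (-((κ' + 1) * (CS * (sz R + 1))))) →
      ∃ ρ : ℕ, r = ρ + 1 ∧ Stt a L ρ S' κ' := by
  classical
  obtain ⟨CS, hCS1, hSe⟩ := hLSe (Finset (Fin m)) r
  refine ⟨CS, hCS1, ?_⟩
  intro ξ G g e f d R κ' S' hSpc hTr hf he hR hSec hκ hS hb
  obtain ⟨π, hπ, hπR, hπl, hπs, hπb⟩ := hSe (th a L) R κ' hκ hR hb
  cases r with
  | zero =>
    exfalso
    have hsurj : Function.Surjective (Sum.inl : Fin 0 × Finset (Fin m) → BU (Finset (Fin m)) 0) := by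
      rintro (p | i)
      · exact ⟨p, rfl⟩
      · exact i.elim0
    obtain ⟨l, hl⟩ := rename_surjective (R := ℤ) _ hsurj π
    exact hπl l hl
  | succ ρ =>
    obtain ⟨ξ', h1, h2, h3, h4⟩ := hLFc (Finset (Fin m)) ρ ξ G g e f d R π hTr hf he hSec hπ hπR hπl
    exact ⟨ρ, rfl, ξ', π, hSpc.trans h1, h3, h4, hπs.trans hS, hπb⟩

/-- The numerical inequalities of case A. -/
lemma numA {E c1 s S κ κ' : ℝ} {N D : ℕ} (hN1 : (1 : ℝ) ≤ N) (hD : 8 ≤ D) (hE : 0 ≤ E) (hs : 1 ≤ s) (hsS : s ≤ S)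
    (hS : S ≤ (N : ℝ) ^ (D - 5)) (hκ : (N : ℝ) ^ 7 ≤ κ) (hκ1 : κ' ≤ κ / (N : ℝ) ^ 6) (hκ2 : κ' ≤ (N : ℝ) ^ (D - 5) / S)
    (hc : 2 * E ≤ c1 * N) (hc' : 2 * E ≤ N) :
    (κ' + 1) * (E * (N : ℝ) ^ 4 * s) ≤ min (c1 * (N : ℝ) ^ D) (κ * s) := by
  have hN0 : (0 : ℝ) < N := by linarith
  have hS0 : 0 < S := by linarith
  apply le_min
  · have h1 : κ' * s ≤ (N : ℝ) ^ (D - 5) := by
      calc κ' * s ≤ ((N : ℝ) ^ (D - 5) / S) * s := mul_le_mul_of_nonneg_right hκ2 (by linarith)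
        _ ≤ ((N : ℝ) ^ (D - 5) / S) * S := mul_le_mul_of_nonneg_left hsS (by positivity)
        _ = (N : ℝ) ^ (D - 5) := by field_simp
    have h2 : (κ' + 1) * s ≤ 2 * (N : ℝ) ^ (D - 5) := by nlinarith
    calc (κ' + 1) * (E * (N : ℝ) ^ 4 * s) = E * (N : ℝ) ^ 4 * ((κ' + 1) * s) := by ring
      _ ≤ E * (N : ℝ) ^ 4 * (2 * (N : ℝ) ^ (D - 5)) := mul_le_mul_of_nonneg_left h2 (by positivity)
      _ = (2 * E) * (N : ℝ) ^ (4 + (D - 5)) := by rw [pow_add]; ring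
      _ ≤ (c1 * N) * (N : ℝ) ^ (4 + (D - 5)) := mul_le_mul_of_nonneg_right hc (by positivity)
      _ = c1 * (N : ℝ) ^ (4 + (D - 5) + 1) := by rw [pow_succ]; ring
      _ = c1 * (N : ℝ) ^ D := by
          congr 2
          omega
  · have h1 : κ' + 1 ≤ 2 * (κ / (N : ℝ) ^ 6) := by
      have h2 : 1 ≤ κ / (N : ℝ) ^ 6 := by
        rw [le_div_iff₀ (by positivity), one_mul]
        refine le_trans ?_ hκ
        exact pow_le_pow_right₀ hN1 (by norm_num)
      linarith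
    have hκ0 : 0 ≤ κ := le_trans (by positivity) hκ
    calc (κ' + 1) * (E * (N : ℝ) ^ 4 * s) ≤ (2 * (κ / (N : ℝ) ^ 6)) * (E * (N : ℝ) ^ 4 * s) :=
          mul_le_mul_of_nonneg_right h1 (by positivity)
      _ = (2 * E) * (κ * s) / (N : ℝ) ^ 2 := by
          field_simp
      _ ≤ N * (κ * s) / (N : ℝ) ^ 2 := by
          apply div_le_div_of_nonneg_right _ (by positivity)
          exact mul_le_mul_of_nonneg_right hc' (by positivity)
      _ = (κ * s) / N := by field_simp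
      _ ≤ κ * s := div_le_self (by positivity) hN1

/-- The numerical inequality of case B. -/
lemma numB {E η s κ κ' : ℝ} {N : ℕ} (hN1 : (1 : ℝ) ≤ N) (hE : 0 ≤ E) (hs : 1 ≤ s)
    (hκ : (N : ℝ) ^ 7 ≤ κ) (hκ1 : κ' ≤ κ / (N : ℝ) ^ 6) (hc : 2 * E ≤ η * (N : ℝ) ^ 2) :
    (κ' + 1) * (E * (N : ℝ) ^ 4 * s) ≤ η * (κ * s) := by
  have hN0 : (0 : ℝ) < N := by linarith
  have h1 : κ' + 1 ≤ 2 * (κ / (N : ℝ) ^ 6) := by
    have h2 : 1 ≤ κ / (N : ℝ) ^ 6 := by
      rw [le_div_iff₀ (by positivity), one_mul]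
      refine le_trans ?_ hκ
      exact pow_le_pow_right₀ hN1 (by norm_num)
    linarith
  have hκ0 : 0 ≤ κ := le_trans (by positivity) hκ
  calc (κ' + 1) * (E * (N : ℝ) ^ 4 * s) ≤ (2 * (κ / (N : ℝ) ^ 6)) * (E * (N : ℝ) ^ 4 * s) :=
        mul_le_mul_of_nonneg_right h1 (by positivity)
    _ = (2 * E) * (κ * s) / (N : ℝ) ^ 2 := by
        field_simp
    _ ≤ (η * (N : ℝ) ^ 2) * (κ * s) / (N : ℝ) ^ 2 := by
        apply div_le_div_of_nonneg_right _ (by positivity)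
        exact mul_le_mul_of_nonneg_right hc (by positivity)
    _ = η * (κ * s) := by field_simp

/-- The auxiliary polynomial in case B. -/
lemma caseB {D : ℕ} {x c1 c : ℝ} {N Λ Cf : ℕ} (hc0 : 0 < c1) (hc1 : c1 ≤ 1) (hcc : c1 ≤ c) (hN : 1 ≤ N) (hΛN : Λ ≤ N)
    (hΛ1 : 1 ≤ Λ) (hΛC : 2 * Cf ≤ Λ) (hD : 8 ≤ D) (h1 : (Λ : ℝ) ^ (D + 1) ≤ x) (h2 : x < ((Λ + 1 : ℕ) : ℝ) ^ (D + 1)) :
    max (Real.exp (-(c * (Λ : ℝ) ^ D))) (Real.exp (-x) * Real.exp (Cf * (Λ : ℝ) ^ 4)) ≤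
      Real.exp (-(c1 / (2 ^ (D + 1) * N) * x)) := by
  have hNr : (1 : ℝ) ≤ N := by exact_mod_cast hN
  have hN0 : (0 : ℝ) < N := by linarith
  have hΛr : (1 : ℝ) ≤ Λ := by exact_mod_cast hΛ1
  have hΛNr : (Λ : ℝ) ≤ N := by exact_mod_cast hΛN
  have hx0 : 0 ≤ x := le_trans (by positivity) h1
  apply max_le
  · apply Real.exp_le_exp.mpr
    have h3 : x ≤ (2 * (Λ : ℝ)) ^ (D + 1) := by
      refine h2.le.trans ?_
      apply pow_le_pow_left₀ (by positivity)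
      push_cast
      linarith
    have h4 : c1 / (2 ^ (D + 1) * N) * x ≤ c1 * (Λ : ℝ) ^ D := by
      calc c1 / (2 ^ (D + 1) * N) * x ≤ c1 / (2 ^ (D + 1) * N) * (2 * (Λ : ℝ)) ^ (D + 1) :=
            mul_le_mul_of_nonneg_left h3 (by positivity)
        _ = c1 * (Λ : ℝ) ^ D * (Λ / N) := by
            rw [mul_pow, pow_succ (Λ : ℝ) D]
            field_simp
        _ ≤ c1 * (Λ : ℝ) ^ D * 1 := by
            apply mul_le_mul_of_nonneg_left _ (by positivity)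
            rw [div_le_one hN0]
            exact hΛNr
        _ = c1 * (Λ : ℝ) ^ D := mul_one _
    have h5 : c1 * (Λ : ℝ) ^ D ≤ c * (Λ : ℝ) ^ D := mul_le_mul_of_nonneg_right hcc (by positivity)
    linarith
  · rw [← Real.exp_add]
    apply Real.exp_le_exp.mpr
    have h3 : (Cf : ℝ) * (Λ : ℝ) ^ 4 ≤ x / 2 := by
      have e1 : 2 * (Cf : ℝ) ≤ Λ := by exact_mod_cast hΛC
      have e2 : 2 * (Cf : ℝ) * (Λ : ℝ) ^ 4 ≤ (Λ : ℝ) ^ (D + 1) := by
        calc 2 * (Cf : ℝ) * (Λ : ℝ) ^ 4 ≤ Λ * (Λ : ℝ) ^ 4 := mul_le_mul_of_nonneg_right e1 (by positivity)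
          _ = (Λ : ℝ) ^ 5 := by ring
          _ ≤ (Λ : ℝ) ^ (D + 1) := pow_le_pow_right₀ hΛr (by omega)
      linarith
    have h4 : c1 / (2 ^ (D + 1) * N) ≤ 1 / 2 := by
      rw [div_le_iff₀ (by positivity)]
      have e1 : (2 : ℝ) ≤ 2 ^ (D + 1) := by
        calc (2 : ℝ) = 2 ^ 1 := by norm_num
          _ ≤ 2 ^ (D + 1) := pow_le_pow_right₀ (by norm_num) (by omega)
      have e2 : (2 : ℝ) * 1 ≤ 2 ^ (D + 1) * N := mul_le_mul e1 hNr (by norm_num) (by positivity)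
      linarith
    have h5 : c1 / (2 ^ (D + 1) * N) * x ≤ 1 / 2 * x := mul_le_mul_of_nonneg_right h4 hx0
    linarith

end LStAux

open LStAux

theorem pLSt (hLAf : S_LAf) (hLG2 : S_LG2) (hLRb : S_LRb) (hLKy : S_LKy) (hLSe : S_LSe) (hLFc : S_LFc) (hLDs : S_LDs)
    (hLNr : S_LNr) (hLFe : S_LFe) : S_LSt := by
  classical
  intro m t a L hm hInd hL hTrt
  obtain ⟨Cf, c, N0, hCf1, hc0, hAf⟩ := hLAf m a L hm hInd hL
  set D : ℕ := 2 ^ m with hD
  have hD8 : 8 ≤ D := by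
    rw [hD]
    calc 8 = 2 ^ 3 := by norm_num
      _ ≤ 2 ^ m := Nat.pow_le_pow_right (by norm_num) hm
  set θ := th a L with hθ
  set Y : ℝ := ‖θ‖ + 1 with hY
  have hY1 : 1 ≤ Y := by
    have := norm_nonneg θ
    linarith
  have hθY : ‖θ‖ ≤ Y := by linarith
  have hcard : Fintype.card (Finset (Fin m)) = D := by
    rw [Fintype.card_finset, Fintype.card_fin]
  set c1 : ℝ := min c 1 with hc1
  have hc10 : 0 < c1 := lt_min hc0 one_pos
  have hc11 : c1 ≤ 1 := min_le_right _ _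
  have hc1c : c1 ≤ c := min_le_left _ _
  choose CR hCR1 hCR using fun r => hLRb (Finset (Fin m)) r
  choose CK hCK1 hCK using fun r => hLKy (Finset (Fin m)) r Y hY1
  choose CS hCS1 hCS using fun r => post hLSe hLFc a L r
  set B : ℝ := ∑ r ∈ Finset.range (t + 1), (CR r + CK r + CS r) with hB
  have hBr : ∀ r ≤ t, CR r + CK r + CS r ≤ B := fun r hr =>
    Finset.single_le_sum (f := fun r => CR r + CK r + CS r)
      (fun i _ => by have := hCR1 i; have := hCK1 i; have := hCS1 i; linarith) (Finset.mem_range.mpr (by omega))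
  have hB1 : 1 ≤ B := by
    have h1 := hBr 0 (Nat.zero_le _)
    have := hCR1 0
    have := hCK1 0
    have := hCS1 0
    linarith
  set E : ℝ := (B ^ 2 + B) * Cf + 1 with hE
  have hCfr : (1 : ℝ) ≤ Cf := by exact_mod_cast hCf1
  have hE0 : 0 ≤ E := by positivity
  have hE1 : 1 ≤ E := by
    have : 0 ≤ (B ^ 2 + B) * Cf := by positivity
    linarith
  -- the form of θ
  obtain ⟨G0, hG0⟩ := hLFe (Finset (Fin m)) t θ hTrt
  set s0 : ℝ := sz G0 with hs0
  set K0 : ℕ := N0 + 2 * Cf + 1 with hK0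
  set η0 : ℝ := c1 / 2 ^ (D + 1) with hη0
  have hη00 : 0 < η0 := by positivity
  set A1 : ℕ := ⌈2 * E / η0⌉₊ with hA1
  set A2 : ℕ := ⌈2 * E * s0 / c1⌉₊ with hA2
  refine ⟨K0 ^ (D + 1) + D + 1 + Cf + N0 + A1 + A2 + ⌈E * s0⌉₊ + ⌈2 * E⌉₊, fun N hN => ?_⟩
  have hNpos : 1 ≤ N := by omega
  have hNr : (1 : ℝ) ≤ N := by exact_mod_cast hNpos
  have hNpos' : (0 : ℝ) < N := by linarith
  have hNE : 2 * E ≤ η0 * N := by
    have h1 : 2 * E / η0 ≤ (N : ℝ) := Nat.le_of_ceil_le (by omega)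
    rw [div_le_iff₀ hη00] at h1
    linarith
  have hη0c : η0 ≤ c1 := by
    rw [hη0]
    apply div_le_self hc10.le
    exact one_le_pow₀ (by norm_num)
  have hNc : 2 * E ≤ c1 * N := hNE.trans (mul_le_mul_of_nonneg_right hη0c hNpos'.le)
  have hN2E : 2 * E ≤ (N : ℝ) := Nat.le_of_ceil_le (by omega)
  have hNs0 : 2 * E * s0 ≤ c1 * N := by
    have h1 : 2 * E * s0 / c1 ≤ (N : ℝ) := Nat.le_of_ceil_le (by omega)
    rw [div_le_iff₀ hc10] at h1
    linarith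
  have hNEs0 : E * s0 ≤ (N : ℝ) := Nat.le_of_ceil_le (by omega)
  set d : ℕ := Cf * N ^ 4 with hd
  have hd1 : 1 ≤ d := Nat.mul_pos hCf1 (Nat.pow_pos hNpos)
  have hdr : (d : ℝ) = Cf * (N : ℝ) ^ 4 := by rw [hd]; push_cast; rfl
  -- the general final step
  have hfinal : ∀ (r : ℕ), r ≤ t → ∀ (ξ : Finset (Fin m) → ℂ) (G : MvPolynomial (BU (Finset (Fin m)) (r + 1)) ℤ) (g : ℕ)
      (e : MvPolynomial (Fin r × Finset (Fin m)) ℤ) (f : MvPolynomial (Finset (Fin m)) ℤ)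
      (R : MvPolynomial (BU (Finset (Fin m)) r) ℤ) (κ' S' w : ℝ), Spc θ ξ → Tr ξ r → aeval ξ f ≠ 0 → e ≠ 0 → R ≠ 0 →
      G ≠ 0 → 1 ≤ g → g ≤ G.totalDegree → Sz f d →
      Sec ξ G g e f d R → 0 ≤ κ' → E * (N : ℝ) ^ 4 * sz G ≤ S' → (κ' + 1) * (E * (N : ℝ) ^ 4 * sz G) ≤ w →
      (∀ u, Dsc u → ‖vt θ R u‖ ≤ Real.exp (CK r * d * sz G + 1 - w)) →
      ∃ ρ : ℕ, r = ρ + 1 ∧ Stt a L ρ S' κ' := by
    intro r hr ξ G g e f R κ' S' w hSpc hTr hf he hR hG hg1 hgG hSz hSec hκ' hS' hw hb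
    have hBr' := hBr r hr
    have hR1 := hCR1 r
    have hK1 := hCK1 r
    have hS1 := hCS1 r
    have hCRB : CR r ≤ B := by linarith
    have hCKB : CK r ≤ B := by linarith
    have hCSB : CS r ≤ B := by linarith
    have hs1 : (1 : ℝ) ≤ sz G := by
      have h1 := sz_ge G
      have h2 : (1 : ℝ) ≤ (G.totalDegree : ℝ) := by exact_mod_cast hg1.trans hgG
      linarith
    have hszR := hCR r ξ G g e f d R hG hg1 hgG he hR hd1 hSz hSec
    have hszR0 : 0 ≤ sz R := le_trans (Nat.cast_nonneg _) (sz_ge R)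
    have hb1 : CS r * (sz R + 1) ≤ B ^ 2 * Cf * (N : ℝ) ^ 4 * sz G := by
      calc CS r * (sz R + 1) ≤ B * (B * d * sz G) := by
            apply mul_le_mul hCSB _ (by linarith) (by linarith)
            refine hszR.trans ?_
            apply mul_le_mul_of_nonneg_right _ (by linarith)
            exact mul_le_mul_of_nonneg_right hCRB (Nat.cast_nonneg _)
        _ = B ^ 2 * Cf * (N : ℝ) ^ 4 * sz G := by rw [hdr]; ring
    refine hCS r ξ G g e f d R κ' S' hSpc hTr hf he hR hSec hκ' ?_ ?_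
    · have h1 : CS r * sz R ≤ CS r * (sz R + 1) := mul_le_mul_of_nonneg_left (by linarith) (by linarith)
      refine (h1.trans hb1).trans (le_trans ?_ hS')
      apply mul_le_mul_of_nonneg_right _ (by linarith)
      apply mul_le_mul_of_nonneg_right _ (by positivity)
      have h2 : 0 ≤ B * Cf := by positivity
      have h3 : E = B ^ 2 * Cf + B * Cf + 1 := by
        rw [hE]
        ring
      linarith
    · intro u hu
      refine (hb u hu).trans ?_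
      apply Real.exp_le_exp.mpr
      have h1 : CK r * d * sz G ≤ B * Cf * (N : ℝ) ^ 4 * sz G := by
        rw [hdr]
        calc CK r * (Cf * (N : ℝ) ^ 4) * sz G ≤ B * (Cf * (N : ℝ) ^ 4) * sz G := by
              apply mul_le_mul_of_nonneg_right _ (by linarith)
              exact mul_le_mul_of_nonneg_right hCKB (by positivity)
          _ = B * Cf * (N : ℝ) ^ 4 * sz G := by ring
      have h2 : (κ' + 1) * (CS r * (sz R + 1)) ≤ (κ' + 1) * (B ^ 2 * Cf * (N : ℝ) ^ 4 * sz G) :=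
        mul_le_mul_of_nonneg_left hb1 (by linarith)
      have h3 : B * Cf * (N : ℝ) ^ 4 * sz G ≤ (κ' + 1) * (B * Cf * (N : ℝ) ^ 4 * sz G) := by
        have h31 : 0 ≤ B * Cf * (N : ℝ) ^ 4 * sz G := by positivity
        exact le_mul_of_one_le_left h31 (by linarith)
      have h4 : (1 : ℝ) ≤ (κ' + 1) * ((N : ℝ) ^ 4 * sz G) := by
        have e1 : (1 : ℝ) ≤ (N : ℝ) ^ 4 := one_le_pow₀ hNr
        have e2 : (1 : ℝ) ≤ (N : ℝ) ^ 4 * sz G := one_le_mul_of_one_le_of_one_le e1 hs1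
        exact one_le_mul_of_one_le_of_one_le (by linarith) e2
      have h5 : (κ' + 1) * (E * (N : ℝ) ^ 4 * sz G) = (κ' + 1) * (B ^ 2 * Cf * (N : ℝ) ^ 4 * sz G) +
          (κ' + 1) * (B * Cf * (N : ℝ) ^ 4 * sz G) + (κ' + 1) * ((N : ℝ) ^ 4 * sz G) := by
        rw [hE]
        ring
      linarith
  -- case A
  have hcaseA : ∀ (r : ℕ), r ≤ t → ∀ (ξ z0 : Finset (Fin m) → ℂ) (G : MvPolynomial (BU (Finset (Fin m)) (r + 1)) ℤ)
      (δ κ' S' : ℝ), Spc θ ξ → Tr ξ r → Frm ξ r G → Spc ξ z0 → ‖z0 - θ‖ ≤ Real.exp (-(N : ℝ) ^ (D + 1)) → 0 ≤ δ →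
      (∀ u, Dsc u → ‖vt θ G u‖ ≤ Real.exp (-δ)) → 0 ≤ κ' → E * (N : ℝ) ^ 4 * sz G ≤ S' →
      (κ' + 1) * (E * (N : ℝ) ^ 4 * sz G) ≤ min (c1 * (N : ℝ) ^ D) δ →
      ∃ ρ : ℕ, r = ρ + 1 ∧ Stt a L ρ S' κ' := by
    intro r hr ξ z0 G δ κ' S' hSpc hTr hFrm hz0 hz0b hδ hGb hκ' hS' hw
    obtain ⟨f, hSz, hf0, hfb⟩ := hAf N (by omega) ξ z0 hz0 hz0b
    obtain ⟨g, e, hg1, hgG, he, hSec⟩ := hLG2 (Finset (Fin m)) r ξ G hTr hFrm
    obtain ⟨R, hR, hSecR⟩ := hSec f d hf0 hSz.1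
    have hG : G ≠ 0 := hFrm.1.ne_zero
    have hfb' : ‖aeval θ f‖ ≤ Real.exp (-(c1 * (N : ℝ) ^ D)) := by
      refine hfb.trans (max_le ?_ ?_)
      · apply Real.exp_le_exp.mpr
        have := mul_le_mul_of_nonneg_right hc1c (show (0 : ℝ) ≤ (N : ℝ) ^ D by positivity)
        linarith
      · calc ‖z0 - θ‖ * Real.exp (Cf * (N : ℝ) ^ 4) ≤ Real.exp (-(N : ℝ) ^ (D + 1)) * Real.exp (Cf * (N : ℝ) ^ 4) :=
              mul_le_mul_of_nonneg_right hz0b (Real.exp_pos _).le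
          _ = Real.exp (-(N : ℝ) ^ (D + 1) + Cf * (N : ℝ) ^ 4) := by rw [Real.exp_add]
          _ ≤ Real.exp (-(c1 * (N : ℝ) ^ D)) := by
              apply Real.exp_le_exp.mpr
              have e1 : ((Cf : ℝ) + 1) ≤ N := by exact_mod_cast (by omega : Cf + 1 ≤ N)
              have e2 : (N : ℝ) ^ 4 ≤ (N : ℝ) ^ D := pow_le_pow_right₀ hNr (by omega)
              have e3 : (0 : ℝ) ≤ (N : ℝ) ^ D := by positivity
              have e4 : (N : ℝ) ^ (D + 1) = (N : ℝ) ^ D * N := by ring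
              have e5 : (N : ℝ) ^ D * (Cf + 1) ≤ (N : ℝ) ^ D * N := mul_le_mul_of_nonneg_left e1 e3
              have e6 : (Cf : ℝ) * (N : ℝ) ^ 4 ≤ Cf * (N : ℝ) ^ D := mul_le_mul_of_nonneg_left e2 (by linarith)
              have e7 : c1 * (N : ℝ) ^ D ≤ 1 * (N : ℝ) ^ D := mul_le_mul_of_nonneg_right hc11 e3
              rw [e4]
              linarith
    have hfb1 : ‖aeval θ f‖ ≤ 1 := by
      refine hfb'.trans ?_
      rw [Real.exp_le_one_iff]
      have : 0 ≤ c1 * (N : ℝ) ^ D := by positivity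
      linarith
    refine hfinal r hr ξ G g e f R κ' S' (min (c1 * (N : ℝ) ^ D) δ) hSpc hTr hf0 he hR hG hg1 hgG hSz hSecR hκ' hS' hw ?_
    intro u hu
    have h1 := (hCK r θ ξ G g e f d R δ hθY hG hg1 hgG he hd1 hSz hδ hGb hSecR).2 hfb1 u hu
    refine h1.trans ?_
    have h2 : ‖aeval θ f‖ ≤ Real.exp (-min (c1 * (N : ℝ) ^ D) δ) := by
      refine hfb'.trans ?_
      apply Real.exp_le_exp.mpr
      have := min_le_left (c1 * (N : ℝ) ^ D) δ
      linarith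
    have h3 : Real.exp (-δ) ≤ Real.exp (-min (c1 * (N : ℝ) ^ D) δ) := by
      apply Real.exp_le_exp.mpr
      have := min_le_right (c1 * (N : ℝ) ^ D) δ
      linarith
    have h4 : (2 : ℝ) ≤ Real.exp 1 := by
      have := Real.add_one_le_exp (1 : ℝ)
      linarith
    calc Real.exp (CK r * d * sz G) * (‖aeval θ f‖ + Real.exp (-δ))
        ≤ Real.exp (CK r * d * sz G) * (2 * Real.exp (-min (c1 * (N : ℝ) ^ D) δ)) := by
          apply mul_le_mul_of_nonneg_left _ (Real.exp_pos _).le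
          linarith
      _ ≤ Real.exp (CK r * d * sz G) * (Real.exp 1 * Real.exp (-min (c1 * (N : ℝ) ^ D) δ)) := by
          apply mul_le_mul_of_nonneg_left _ (Real.exp_pos _).le
          exact mul_le_mul_of_nonneg_right h4 (Real.exp_pos _).le
      _ = Real.exp (CK r * d * sz G + 1 - min (c1 * (N : ℝ) ^ D) δ) := by
          rw [← Real.exp_add, ← Real.exp_add]
          congr 1
          ring
  constructor
  · intro r S κ hr hκ hS hStt
    obtain ⟨ξ, G, hSpc, hTr, hFrm, hGS, hGb⟩ := hStt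
    have hG : G ≠ 0 := hFrm.1.ne_zero
    obtain ⟨g, e, hg1, hgG, he, hSec⟩ := hLG2 (Finset (Fin m)) r ξ G hTr hFrm
    have hs1 : (1 : ℝ) ≤ sz G := by
      have h1 := sz_ge G
      have h2 : (1 : ℝ) ≤ (G.totalDegree : ℝ) := by exact_mod_cast hg1.trans hgG
      linarith
    have hs0' : 0 < sz G := by linarith
    have hS0 : 0 < S := by linarith
    have hκ0 : 0 ≤ κ := le_trans (by positivity) hκ
    set κ' : ℝ := min (κ / (N : ℝ) ^ 6) ((N : ℝ) ^ (D - 5) / S) with hκ'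
    have hκ'0 : 0 ≤ κ' := le_min (by positivity) (by positivity)
    have hκ'1 : κ' ≤ κ / (N : ℝ) ^ 6 := min_le_left _ _
    have hκ'2 : κ' ≤ (N : ℝ) ^ (D - 5) / S := min_le_right _ _
    have hS' : E * (N : ℝ) ^ 4 * sz G ≤ (N : ℝ) ^ 5 * S := by
      calc E * (N : ℝ) ^ 4 * sz G ≤ N * (N : ℝ) ^ 4 * S := by
            apply mul_le_mul _ hGS hs0'.le (by positivity)
            apply mul_le_mul_of_nonneg_right _ (by positivity)
            linarith
        _ = (N : ℝ) ^ 5 * S := by ring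
    have hδ0 : 0 ≤ κ * sz G := by positivity
    obtain ⟨z, hz1, hz2⟩ := hLDs (Finset (Fin m)) r θ ξ G (κ * sz G) hTr hFrm hδ0 hGb
    obtain ⟨z0, hz01, hz02⟩ := hLNr (Finset (Fin m)) θ ξ
    have hρ : ‖z0 - θ‖ ≤ 2 ^ D * Real.exp (-κ) := by
      refine (hz02 z hz1).trans ?_
      rw [hcard] at hz2
      have h1 : κ * sz G / sz G = κ := by field_simp
      rw [h1] at hz2
      exact hz2
    by_cases hcase : ‖z0 - θ‖ ≤ Real.exp (-(N : ℝ) ^ (D + 1))
    · exact hcaseA r hr ξ z0 G (κ * sz G) κ' ((N : ℝ) ^ 5 * S) hSpc hTr hFrm hz01 hcase hδ0 hGb hκ'0 hS'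
        (numA hNr hD8 hE0 hs1 hGS hS hκ hκ'1 hκ'2 hNc hN2E)
    · push Not at hcase
      have hρ0 : 0 < ‖z0 - θ‖ := lt_trans (Real.exp_pos _) hcase
      set x : ℝ := -Real.log ‖z0 - θ‖ with hx
      have hρx : ‖z0 - θ‖ = Real.exp (-x) := by
        rw [hx, neg_neg, Real.exp_log hρ0]
      have hxN : x < (N : ℝ) ^ (D + 1) := by
        rw [hρx] at hcase
        have := Real.exp_lt_exp.mp hcase
        linarith
      have hxκ : κ - D ≤ x := by
        rw [hρx] at hρ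
        have h1 : (2 : ℝ) ^ D ≤ Real.exp D := by
          have h2 : (2 : ℝ) ≤ Real.exp 1 := by
            have := Real.add_one_le_exp (1 : ℝ)
            linarith
          calc (2 : ℝ) ^ D ≤ Real.exp 1 ^ D := pow_le_pow_left₀ (by norm_num) h2 _
            _ = Real.exp D := by rw [← Real.exp_nat_mul, mul_one]
        have h3 : Real.exp (-x) ≤ Real.exp (D + -κ) := by
          rw [Real.exp_add]
          exact hρ.trans (mul_le_mul_of_nonneg_right h1 (Real.exp_pos _).le)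
        have := Real.exp_le_exp.mp h3
        linarith
      have hKx : ((K0 ^ (D + 1) : ℕ) : ℝ) ≤ x := by
        have h1 : (N : ℝ) ≤ (N : ℝ) ^ 7 := le_self_pow₀ hNr (by norm_num)
        have h2 : ((K0 ^ (D + 1) : ℕ) : ℝ) + D ≤ N := by exact_mod_cast (by omega : K0 ^ (D + 1) + D ≤ N)
        linarith
      have hex : ∃ k : ℕ, x < ((k + 1 : ℕ) : ℝ) ^ (D + 1) := by
        refine ⟨N, hxN.trans_le ?_⟩
        apply pow_le_pow_left₀ (by positivity)
        push_cast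
        linarith
      set Λ := Nat.find hex with hΛ
      have hΛ2 : x < ((Λ + 1 : ℕ) : ℝ) ^ (D + 1) := Nat.find_spec hex
      have hΛN : Λ ≤ N := by
        apply Nat.find_min'
        refine hxN.trans_le ?_
        apply pow_le_pow_left₀ (by positivity)
        push_cast
        linarith
      have hΛK : K0 ≤ Λ := by
        by_contra hlt
        have h1 : Λ + 1 ≤ K0 := by omega
        have h2 : ((Λ + 1 : ℕ) : ℝ) ^ (D + 1) ≤ ((K0 ^ (D + 1) : ℕ) : ℝ) := by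
          push_cast
          apply pow_le_pow_left₀ (by positivity)
          exact_mod_cast h1
        linarith
      have hΛ1 : 1 ≤ Λ := by omega
      have hΛx : (Λ : ℝ) ^ (D + 1) ≤ x := by
        have h1 := Nat.find_min hex (m := Λ - 1) (by omega)
        push Not at h1
        rwa [Nat.sub_add_cancel hΛ1] at h1
      obtain ⟨f, hSz, hf0, hfb⟩ := hAf Λ (by omega) ξ z0 hz01 (by
        rw [hρx]
        apply Real.exp_le_exp.mpr
        linarith)
      have hΛd : Cf * Λ ^ 4 ≤ d := by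
        rw [hd]
        exact Nat.mul_le_mul_left _ (Nat.pow_le_pow_left hΛN _)
      have hSzd : Sz f d := Sz_mono _ _ _ hΛd hSz
      obtain ⟨R, hR, hSecR⟩ := hSec f d hf0 hSzd.1
      set η : ℝ := c1 / (2 ^ (D + 1) * N) with hη
      have hη_pos : 0 < η := by positivity
      have hη1 : η ≤ 1 := by
        rw [hη, div_le_one (by positivity)]
        have e1 : (1 : ℝ) ≤ 2 ^ (D + 1) := one_le_pow₀ (by norm_num)
        have e2 : (1 : ℝ) * 1 ≤ 2 ^ (D + 1) * N := mul_le_mul e1 hNr (by norm_num) (by positivity)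
        linarith
      have hfη : ‖aeval θ f‖ ≤ Real.exp (-(η * x)) := by
        refine hfb.trans ?_
        rw [hρx]
        exact caseB hc10 hc11 hc1c hNpos hΛN hΛ1 (by omega) hD8 hΛx hΛ2
      have hx0 : 0 ≤ x := le_trans (Nat.cast_nonneg _) hKx
      have hallz : ∀ z, Spc ξ z → ‖aeval θ f‖ ≤ (min 1 ‖z - θ‖) ^ η := by
        intro z hz
        refine hfη.trans ?_
        have h1 : Real.exp (-(η * x)) = (Real.exp (-x)) ^ η := by
          rw [← Real.exp_mul]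
          congr 1
          ring
        rw [h1]
        apply Real.rpow_le_rpow (Real.exp_pos _).le _ hη_pos.le
        apply le_min
        · rw [Real.exp_le_one_iff]
          linarith
        · rw [← hρx]
          exact hz02 z hz
      refine hfinal r hr ξ G g e f R κ' ((N : ℝ) ^ 5 * S) (η * (κ * sz G)) hSpc hTr hf0 he hR hG hg1 hgG hSzd hSecR hκ'0 hS'
        (numB hNr hE0 hs1 hκ hκ'1 ?_) ?_
      · have h1 : η * (N : ℝ) ^ 2 = η0 * N := by
          rw [hη, hη0]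
          field_simp
        rw [h1]
        exact hNE
      · intro u hu
        have h1 := (hCK r θ ξ G g e f d R (κ * sz G) hθY hG hg1 hgG he hd1 hSzd hδ0 hGb hSecR).1 η hη_pos hη1 hallz u hu
        refine h1.trans ?_
        apply Real.exp_le_exp.mpr
        linarith
  · have hvt : ∀ u, vt θ G0 u = 0 := fun u => hG0.2 u
    have hN6 : (1 : ℝ) ≤ (N : ℝ) ^ (D - 6) := one_le_pow₀ hNr
    have hN46 : (N : ℝ) ^ 4 * (N : ℝ) ^ (D - 6) * (N : ℝ) ^ 2 = (N : ℝ) ^ D := by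
      rw [← pow_add, ← pow_add]
      congr 1
      omega
    have hs00 : 0 ≤ s0 := le_trans (Nat.cast_nonneg _) (sz_ge G0)
    refine hcaseA t le_rfl θ θ G0 (c1 * (N : ℝ) ^ D) ((N : ℝ) ^ (D - 6)) ((N : ℝ) ^ 5) (Spc.refl _) hTrt hG0 (Spc.refl _)
      (by rw [sub_self, norm_zero]; exact (Real.exp_pos _).le) (by positivity)
      (fun u _ => by rw [hvt u, norm_zero]; exact (Real.exp_pos _).le) (by positivity) ?_ ?_
    · calc E * (N : ℝ) ^ 4 * sz G0 = (E * s0) * (N : ℝ) ^ 4 := by rw [hs0]; ring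
        _ ≤ N * (N : ℝ) ^ 4 := mul_le_mul_of_nonneg_right hNEs0 (by positivity)
        _ = (N : ℝ) ^ 5 := by ring
    · rw [min_self]
      calc ((N : ℝ) ^ (D - 6) + 1) * (E * (N : ℝ) ^ 4 * sz G0)
          ≤ (2 * (N : ℝ) ^ (D - 6)) * (E * (N : ℝ) ^ 4 * s0) := by
            rw [hs0]
            apply mul_le_mul_of_nonneg_right _ (by positivity)
            linarith
        _ = (2 * E * s0) * ((N : ℝ) ^ 4 * (N : ℝ) ^ (D - 6)) := by ring
        _ ≤ (c1 * N) * ((N : ℝ) ^ 4 * (N : ℝ) ^ (D - 6)) := mul_le_mul_of_nonneg_right hNs0 (by positivity)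
        _ ≤ (c1 * (N : ℝ) ^ 2) * ((N : ℝ) ^ 4 * (N : ℝ) ^ (D - 6)) := by
            apply mul_le_mul_of_nonneg_right _ (by positivity)
            apply mul_le_mul_of_nonneg_left _ hc10.le
            exact le_self_pow₀ hNr (by norm_num)
        _ = c1 * (N : ℝ) ^ D := by
            rw [← hN46]
            ring

end Pool.Agent.SMQ
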