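import Pool.Agent.Lib.MP_452a87_nt.SpecL

/-!
# LSy: conjugates and symmetric functions over a subfield of the complex numbers
-/

set_option autoImplicit false

namespace Pool.Agent.SMQ

open MvPolynomial

namespace LSyAux

/-- The polynomial `Φ(W, o)`. -/
private noncomputable def sb {ι τ A : Type} [Field A] (Φ : MvPolynomial (τ ⊕ ι) ℤ) (o : ι → A) :
    MvPolynomial τ A := aeval (Sum.elim X (fun j => C (o j))) Φ

private lemma map_sb {ι τ A B : Type} [Field A] [Field B] (σ : A →+* B)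
    (Φ : MvPolynomial (τ ⊕ ι) ℤ) (o : ι → A) :
    MvPolynomial.map σ (sb Φ o) = sb Φ (fun j => σ (o j)) := by
  have h := comp_aeval_apply (R := ℤ) (f := (Sum.elim X (fun j => C (o j)) :
    τ ⊕ ι → MvPolynomial τ A)) (MvPolynomial.map σ).toIntAlgHom Φ
  refine h.trans ?_
  unfold sb
  congr 2
  funext b
  rcases b with t | j
  · simp
  · simp

private lemma eval_sb {ι τ A B : Type} [Field A] [Field B] (σ : A →+* B)
    (Φ : MvPolynomial (τ ⊕ ι) ℤ) (o : ι → A) (w : τ → B) :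
    eval₂ σ w (sb Φ o) = aeval (Sum.elim w (fun j => σ (o j))) Φ := by
  have h := comp_aeval_apply (R := ℤ) (f := (Sum.elim X (fun j => C (o j)) :
    τ ⊕ ι → MvPolynomial τ A)) (eval₂Hom σ w).toIntAlgHom Φ
  refine h.trans ?_
  congr 2
  funext b
  rcases b with t | j
  · simp
  · simp

/-- The conjugates of a point. -/
private lemma conj {ι K A : Type} [Fintype ι] [Field K] [Field A] [Algebra K A] [IsGalois K A]
    (x : ι → A) : ∃ (g : ℕ) (z : Fin g → ι → A), 1 ≤ g ∧ Function.Injective z ∧ (∃ i, z i = x) ∧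
      (∀ i, ∃ σ : A ≃ₐ[K] A, ∀ j, z i j = σ (x j)) ∧
      ∀ σ : A ≃ₐ[K] A, ∃ π : Equiv.Perm (Fin g), ∀ i, (fun j => σ (z i j)) = z (π i) := by
  classical
  let O : Set (ι → A) := Set.range (fun (σ : A ≃ₐ[K] A) j => σ (x j))
  have hfin : O.Finite := by
    refine Set.Finite.subset (Set.Finite.pi' (t := fun j => (minpoly K (x j)).rootSet A)
      fun j => Polynomial.rootSet_finite _ _) ?_
    rintro _ ⟨σ, rfl⟩ j
    have hint : IsIntegral K (x j) := Algebra.IsIntegral.isIntegral _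
    rw [Polynomial.mem_rootSet]
    refine ⟨minpoly.ne_zero hint, ?_⟩
    change Polynomial.aeval ((σ : A →ₐ[K] A) (x j)) _ = 0
    rw [Polynomial.aeval_algHom_apply, minpoly.aeval, map_zero]
  have hF : Finite O := hfin.to_subtype
  have hxO : x ∈ O := ⟨1, rfl⟩
  obtain ⟨n, hn1, ⟨e⟩⟩ : ∃ n, 1 ≤ n ∧ Nonempty (O ≃ Fin n) := by
    have : Nonempty O := ⟨⟨x, hxO⟩⟩
    exact ⟨Nat.card O, Nat.card_pos, ⟨Finite.equivFin O⟩⟩
  have hmem : ∀ (σ : A ≃ₐ[K] A) (y : O), (fun j => σ (y.1 j)) ∈ O := by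
    rintro σ ⟨_, τ, rfl⟩
    exact ⟨σ * τ, rfl⟩
  refine ⟨n, fun i => (e.symm i).1, hn1, ?_, ⟨e ⟨x, hxO⟩, ?_⟩, ?_, ?_⟩
  · exact Subtype.val_injective.comp e.symm.injective
  · show (e.symm (e ⟨x, hxO⟩)).1 = x
    rw [Equiv.symm_apply_apply]
  · intro i
    obtain ⟨σ, hσ⟩ := (e.symm i).2
    exact ⟨σ, fun j => (congrFun hσ j).symm⟩
  · intro σ
    let p : Equiv.Perm O :=
      { toFun := fun y => ⟨_, hmem σ y⟩
        invFun := fun y => ⟨_, hmem σ.symm y⟩
        left_inv := fun y => Subtype.ext (funext fun j => σ.symm_apply_apply _)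
        right_inv := fun y => Subtype.ext (funext fun j => σ.apply_symm_apply _) }
    refine ⟨e.permCongr p, fun i => ?_⟩
    show _ = (e.symm (e (p (e.symm i)))).1
    rw [Equiv.symm_apply_apply]
    rfl

end LSyAux

theorem pLSy : S_LSy := by
  intro ι _ K x hx
  classical
  let A := algebraicClosure K ℂ
  have hac : IsAlgClosure K A := inferInstance
  have hn : Normal K A := IsAlgClosure.normal K A
  have hgal : IsGalois K A := ⟨⟩
  let x' : ι → A := fun j => ⟨x j, mem_algebraicClosure_iff.2 (hx j)⟩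
  obtain ⟨g, z, hg, hinj, ⟨i0, hi0⟩, hconj, hperm⟩ := LSyAux.conj (K := K) x'
  refine ⟨g, fun i j => (z i j : ℂ), hg, ?_, ⟨i0, ?_⟩, ?_, ?_⟩
  · intro i i' h
    exact hinj (funext fun j => Subtype.ext (congrFun h j))
  · show (fun j => (z i0 j : ℂ)) = x
    rw [hi0]
  · intro i P
    obtain ⟨σ, hσ⟩ := hconj i
    have h1 : aeval (fun j => (z i j : ℂ)) P = algebraMap A ℂ (σ (aeval x' P)) := by
      rw [← AlgEquiv.coe_toAlgHom, comp_aeval_apply, ← aeval_algebraMap_apply]
      congr 2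
      funext j
      exact congrArg _ (hσ j)
    have h2 : aeval x P = algebraMap A ℂ (aeval x' P) := by
      rw [← aeval_algebraMap_apply]
      rfl
    rw [h1, h2, map_eq_zero (algebraMap A ℂ), map_eq_zero σ, map_eq_zero (algebraMap A ℂ)]
  · intro τ _ Φ
    set Pd := ∏ i, LSyAux.sb Φ (z i) with hPd
    have hfix : ∀ σ : A ≃ₐ[K] A, MvPolynomial.map (σ : A →+* A) Pd = Pd := by
      intro σ
      obtain ⟨π, hπ⟩ := hperm σ
      rw [hPd, map_prod]
      rw [← Equiv.prod_comp π (fun i => LSyAux.sb Φ (z i))]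
      refine Finset.prod_congr rfl fun i _ => ?_
      rw [LSyAux.map_sb, ← hπ i]
      rfl
    have hrange : ∀ m, Pd.coeff m ∈ Set.range (algebraMap K A) := by
      intro m
      rw [InfiniteGalois.mem_range_algebraMap_iff_fixed]
      intro σ
      have := congrArg (coeff m) (hfix σ)
      rwa [coeff_map] at this
    obtain ⟨Ψ, hΨ⟩ : ∃ Ψ : MvPolynomial τ K, MvPolynomial.map (algebraMap K A) Ψ = Pd := by
      choose c hc using hrange
      refine ⟨∑ m ∈ Pd.support, monomial m (c m), ?_⟩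
      rw [map_sum]
      conv_rhs => rw [Pd.as_sum]
      refine Finset.sum_congr rfl fun m _ => ?_
      rw [map_monomial, hc]
    refine ⟨Ψ, fun w => ?_⟩
    have h1 : aeval w Ψ = eval₂ (algebraMap A ℂ) w Pd := by
      rw [← hΨ, eval₂_map, aeval_def]
      rfl
    rw [h1, hPd, ← coe_eval₂Hom, map_prod]
    refine Finset.prod_congr rfl fun i _ => ?_
    rw [coe_eval₂Hom, LSyAux.eval_sb]
    rfl

end Pool.Agent.SMQ
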