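import Pool.Agent.Lib.MP_452a87_nt.SpecL

/-!
# Linear large transcendence degree
-/

set_option autoImplicit false

namespace Pool.Agent.SMQ

open MvPolynomial

namespace LTLAux

lemma sz_nonneg {σ : Type} (G : MvPolynomial σ ℤ) : 0 ≤ sz G := by
  unfold sz
  have h1 := Real.log_natCast_nonneg (l1 G)
  have h2 : (0 : ℝ) ≤ (G.totalDegree : ℝ) := Nat.cast_nonneg _
  linarith

lemma Stt_mono {m : ℕ} (a : Fin m → ℕ) (L : ℂ) (r : ℕ) (S κ S' κ' : ℝ) (hS : S ≤ S') (hκ : κ' ≤ κ)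
    (h : Stt a L r S κ) : Stt a L r S' κ' := by
  obtain ⟨ξ, G, h1, h2, h3, h4, h5⟩ := h
  refine ⟨ξ, G, h1, h2, h3, h4.trans hS, fun u hu => (h5 u hu).trans ?_⟩
  apply Real.exp_le_exp.mpr
  have := mul_le_mul_of_nonneg_right hκ (sz_nonneg G)
  linarith

end LTLAux

open LTLAux

theorem pLTL (hLSt : S_LSt) : S_LTL := by
  intro m t a L hInd hL hTr
  by_contra hcon
  push Not at hcon
  set D : ℕ := 2 ^ m with hD
  have hm : 3 ≤ m := by
    by_contra h
    have h1 : m ≤ 2 := by omega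
    have h2 : D ≤ 2 ^ 2 := Nat.pow_le_pow_right (by norm_num) h1
    norm_num at h2
    omega
  obtain ⟨A, hA⟩ := hLSt m t a L hm hInd hL hTr
  set N : ℕ := A + 2 with hN
  have hNr : (1 : ℝ) ≤ N := by
    have : 1 ≤ N := by omega
    exact_mod_cast this
  have hN0 : (0 : ℝ) < N := by linarith
  obtain ⟨hstep, ρ0, hρ0, hst⟩ := hA N (by omega)
  have claim : ∀ i, 1 ≤ i → i ≤ t → Stt a L (t - i) ((N : ℝ) ^ (5 * i)) ((N : ℝ) ^ (D - 6 * i)) := by
    intro i hi
    induction i, hi using Nat.le_induction with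
    | base =>
      intro _
      have h1 : t - 1 = ρ0 := by omega
      rw [h1]
      exact hst
    | succ i hi ih =>
      intro hit
      have h1 := ih (by omega)
      have hκ : (N : ℝ) ^ 7 ≤ (N : ℝ) ^ (D - 6 * i) := pow_le_pow_right₀ hNr (by omega)
      have hS : (N : ℝ) ^ (5 * i) ≤ (N : ℝ) ^ (2 ^ m - 5) := pow_le_pow_right₀ hNr (by omega)
      obtain ⟨ρ, hρ, hs⟩ := hstep (t - i) _ _ (by omega) hκ hS h1
      have h2 : t - (i + 1) = ρ := by omega
      rw [h2]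
      refine Stt_mono a L ρ _ _ _ _ ?_ ?_ hs
      · rw [← pow_add]
        exact pow_le_pow_right₀ hNr (by omega)
      · apply le_min
        · rw [le_div_iff₀ (by positivity), ← pow_add]
          exact pow_le_pow_right₀ hNr (by omega)
        · rw [le_div_iff₀ (by positivity), ← pow_add]
          exact pow_le_pow_right₀ hNr (by omega)
  have h1 := claim t (by omega) le_rfl
  have hκ : (N : ℝ) ^ 7 ≤ (N : ℝ) ^ (D - 6 * t) := pow_le_pow_right₀ hNr (by omega)
  have hS : (N : ℝ) ^ (5 * t) ≤ (N : ℝ) ^ (2 ^ m - 5) := pow_le_pow_right₀ hNr (by omega)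
  obtain ⟨ρ, hρ, -⟩ := hstep (t - t) _ _ (by omega) hκ hS h1
  omega

end Pool.Agent.SMQ
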