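import Pool.Agent.Lib.MP_452a87_nt.SpecL

/-!
# LVl: valuations and products of linear forms
-/

set_option autoImplicit false

namespace Pool.Agent.SMQ

open MvPolynomial

namespace LVlAux

/-- Homogenisation: `c⁻¹ ^ d * f(y)` is in the valuation ring. -/
private lemma hom {ι Ω : Type} [Field Ω] (V : ValuationSubring Ω) (y : ι → Ω) (b : Ω)
    (hb : b ∈ V) (hy : ∀ j, b * y j ∈ V) (f : MvPolynomial ι ℤ) (d : ℕ) (hd : f.totalDegree ≤ d) :
    b ^ d * aeval y f ∈ V := by
  rw [aeval_def, eval₂_eq, Finset.mul_sum]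
  refine sum_mem fun m hm => ?_
  have h1 : (m.sum fun _ e => e) ≤ d := (le_totalDegree hm).trans hd
  have h2 : b ^ d = b ^ (d - m.sum fun _ e => e) * ∏ i ∈ m.support, b ^ m i := by
    rw [Finset.prod_pow_eq_pow_sum, ← pow_add]
    congr 1
    have h3 : (m.sum fun _ e => e) = ∑ i ∈ m.support, m i := rfl
    omega
  have h4 : b ^ d * ((algebraMap ℤ Ω) (coeff m f) * ∏ i ∈ m.support, y i ^ m i) =
      (algebraMap ℤ Ω) (coeff m f) * (b ^ (d - m.sum fun _ e => e) *
        ∏ i ∈ m.support, (b * y i) ^ m i) := by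
    rw [h2]
    simp only [mul_pow, Finset.prod_mul_distrib]
    ring
  rw [h4]
  refine mul_mem ?_ (mul_mem (pow_mem hb _) (prod_mem fun i _ => pow_mem (hy i) _))
  rw [eq_intCast]
  exact intCast_mem V _

end LVlAux

theorem pLVl : S_LVl := by
  intro ι Ω _ _ V g z e0 Q hQ hQe f d hd
  classical
  -- the elements of maximal valuation
  have hmax : ∀ i : Fin g, ∃ o : Option ι, ∀ o' : Option ι,
      V.valuation (o'.elim 1 (z i)) ≤ V.valuation (o.elim 1 (z i)) := fun i => by
    obtain ⟨o, -, ho⟩ := Finset.exists_max_image (Finset.univ : Finset (Option ι))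
      (fun o => V.valuation (o.elim 1 (z i))) ⟨none, Finset.mem_univ _⟩
    exact ⟨o, fun o' => ho o' (Finset.mem_univ _)⟩
  choose o ho using hmax
  set c : Fin g → Ω := fun i => (o i).elim 1 (z i) with hc
  have hc0 : ∀ i, c i ≠ 0 := by
    intro i h0
    have := ho i none
    rw [show (o i).elim 1 (z i) = 0 from h0, map_zero] at this
    simp at this
  have hcV : ∀ i (o' : Option ι), (c i)⁻¹ * o'.elim 1 (z i) ∈ V := by
    intro i o'
    rw [← V.valuation_le_one_iff, map_mul, map_inv₀]
    have h1 : 0 < V.valuation (c i) := by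
      rw [zero_lt_iff, Ne, map_eq_zero]
      exact hc0 i
    rw [mul_comm, ← div_eq_mul_inv, div_le_one₀ h1]
    exact ho i o'
  have hcV1 : ∀ i, (c i)⁻¹ ∈ V := fun i => by simpa using hcV i none
  have hcVz : ∀ i j, (c i)⁻¹ * z i j ∈ V := fun i j => by simpa using hcV i (some j)
  -- the claim
  have hw : e0 * ∏ i, c i ∈ V := by
    by_contra hw
    set w := e0 * ∏ i, c i with hwd
    have hP0 : ∏ i, c i ≠ 0 := Finset.prod_ne_zero_iff.2 fun i _ => hc0 i
    have hw0 : w ≠ 0 := by
      intro h0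
      rw [h0] at hw
      exact hw V.zero_mem
    have he0 : e0 ≠ 0 := fun h0 => hw0 (by rw [hwd, h0, zero_mul])
    have hwi : w⁻¹ ∈ V := (V.mem_or_inv_mem w).resolve_left hw
    -- the linear forms over V
    let A : Fin g → Option ι → V := fun i o' =>
      o'.elim ⟨(c i)⁻¹, hcV1 i⟩ (fun j => -⟨(c i)⁻¹ * z i j, hcVz i j⟩)
    let ℓ : Fin g → MvPolynomial (Option ι) V := fun i => ∑ o' : Option ι, C (A i o') * X o'
    have hA0 : ∀ i, (A i none : Ω) = (c i)⁻¹ := fun i => rfl
    have hA1 : ∀ i j, (A i (some j) : Ω) = -((c i)⁻¹ * z i j) := fun i j => rfl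
    have hℓ0 : ∀ i, MvPolynomial.map V.subtype (ℓ i) =
        ∑ o' : Option ι, C (A i o' : Ω) * X o' := by
      intro i
      rw [show ℓ i = ∑ o' : Option ι, C (A i o') * X o' from rfl, map_sum]
      refine Finset.sum_congr rfl fun o' _ => ?_
      rw [map_mul, MvPolynomial.map_C, MvPolynomial.map_X]
      rfl
    have hℓ : ∀ i, MvPolynomial.map V.subtype (ℓ i) =
        C (c i)⁻¹ * (X none - ∑ j, C (z i j) * X (some j)) := by
      intro i
      rw [hℓ0, Fintype.sum_option, hA0, mul_sub, Finset.mul_sum, sub_eq_add_neg,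
        ← Finset.sum_neg_distrib]
      congr 1
      refine Finset.sum_congr rfl fun j _ => ?_
      rw [hA1, C_neg, C_mul]
      ring
    have hprod : MvPolynomial.map V.subtype (∏ i, ℓ i) = C w⁻¹ * Q := by
      rw [map_prod, Finset.prod_congr rfl fun i _ => hℓ i, Finset.prod_mul_distrib, hQe,
        ← mul_assoc, ← C_mul, ← map_prod, Finset.prod_inv_distrib]
      congr 2
      rw [hwd]
      field_simp
    let k := IsLocalRing.residue V
    have hres : MvPolynomial.map k (∏ i, ℓ i) = 0 := by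
      ext μ
      rw [coeff_map, coeff_zero]
      have h1 : coeff μ (∏ i, ℓ i) = (⟨w⁻¹, hwi⟩ : V) * ⟨Q.coeff μ, hQ μ⟩ := by
        apply Subtype.ext
        have h2 := congrArg (coeff μ) hprod
        rw [coeff_map, coeff_C_mul] at h2
        exact h2
      rw [h1, map_mul]
      have h3 : k (⟨w⁻¹, hwi⟩ : V) = 0 := by
        rw [IsLocalRing.residue_eq_zero_iff, IsLocalRing.mem_maximalIdeal, mem_nonunits_iff]
        intro hu
        obtain ⟨b, hb⟩ := hu.exists_right_inv
        have h4 : w⁻¹ * (b : Ω) = 1 := congrArg Subtype.val hb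
        have h5 : (b : Ω) = w := by
          rw [inv_mul_eq_iff_eq_mul₀ hw0] at h4
          rw [h4, mul_one]
        exact hw (h5 ▸ b.2)
      rw [h3, zero_mul]
    rw [map_prod, Finset.prod_eq_zero_iff] at hres
    obtain ⟨i, -, hi⟩ := hres
    have h1 := congrArg (eval (Pi.single (o i) (1 : IsLocalRing.ResidueField V))) hi
    simp only [ℓ, map_sum, map_mul, map_C, map_X, eval_C, eval_X, map_zero, Pi.single_apply,
      mul_ite, mul_one, mul_zero, Finset.sum_ite_eq', Finset.mem_univ, if_true] at h1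
    have h2 : A i (o i) = 1 ∨ A i (o i) = -1 := by
      have h3 := hc0 i
      have h4 : c i = (o i).elim 1 (z i) := rfl
      rcases hoi : o i with _ | j
      · left
        apply Subtype.ext
        rw [hoi, Option.elim_none] at h4
        rw [hA0, h4, inv_one]
        rfl
      · right
        apply Subtype.ext
        rw [hoi, Option.elim_some] at h4
        rw [hA1, ← h4, inv_mul_cancel₀ h3]
        rfl
    rcases h2 with h2 | h2
    · rw [h2, map_one] at h1
      exact one_ne_zero h1
    · rw [h2, map_neg, map_one, neg_eq_zero] at h1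
      exact one_ne_zero h1
  -- conclusion
  have hP0 : ∏ i, c i ≠ 0 := Finset.prod_ne_zero_iff.2 fun i _ => hc0 i
  have h1 : e0 ^ d * ∏ i, aeval (z i) f =
      (e0 * ∏ i, c i) ^ d * ∏ i, ((c i)⁻¹ ^ d * aeval (z i) f) := by
    rw [Finset.prod_mul_distrib, mul_pow, Finset.prod_pow, Finset.prod_inv_distrib]
    rw [inv_pow]
    have : (∏ i, c i) ^ d ≠ 0 := pow_ne_zero _ hP0
    field_simp
  rw [h1]
  exact mul_mem (pow_mem hw _) (prod_mem fun i _ =>
    LVlAux.hom V (z i) (c i)⁻¹ (hcV1 i) (hcVz i) f d hd)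

end Pool.Agent.SMQ
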