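import Pool.Agent.Lib.MP_452a87_nt.SpecL

/-!
# The small value lemma with complex coefficients
-/

set_option autoImplicit false

namespace Pool.Agent.SMQ

open MvPolynomial

namespace LX2Aux

lemma totalDegree_mon {m : ℕ} (c : Finset (Fin m) → ℕ) (B : ℕ) (hB : ∀ W, c W ≤ B) :
    (∏ W, (X W : MvPolynomial (Finset (Fin m)) ℤ) ^ c W).totalDegree ≤ 2 ^ m * B := by
  refine (totalDegree_finsetProd _ _).trans ?_
  calc ∑ W : Finset (Fin m), ((X W : MvPolynomial (Finset (Fin m)) ℤ) ^ c W).totalDegree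
      ≤ ∑ _W : Finset (Fin m), B := by
        refine Finset.sum_le_sum fun W _ => ?_
        refine (totalDegree_pow _ _).trans ?_
        rw [totalDegree_X, mul_one]
        exact hB W
    _ = 2 ^ m * B := by
        rw [Finset.sum_const, Finset.card_univ, Fintype.card_finset, Fintype.card_fin, smul_eq_mul]

lemma l1_mon {ι : Type} [Fintype ι] (c : ι → ℕ) :
    l1 (∏ W, (X W : MvPolynomial ι ℤ) ^ c W) ≤ 1 := by
  classical
  have h : (∏ W, (X W : MvPolynomial ι ℤ) ^ c W) = monomial (Finsupp.equivFunOnFinite.symm c) 1 := by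
    rw [monomial_eq]
    simp only [map_one, one_mul]
    rw [Finsupp.prod_fintype _ _ (fun i => pow_zero _)]
    rfl
  rw [h]
  unfold l1
  have hs : (monomial (Finsupp.equivFunOnFinite.symm c) (1 : ℤ)).support ⊆ {Finsupp.equivFunOnFinite.symm c} :=
    support_monomial_subset
  calc ∑ m ∈ (monomial (Finsupp.equivFunOnFinite.symm c) (1 : ℤ)).support,
        ((monomial (Finsupp.equivFunOnFinite.symm c) (1 : ℤ)).coeff m).natAbs
      ≤ ∑ m ∈ {Finsupp.equivFunOnFinite.symm c},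
        ((monomial (Finsupp.equivFunOnFinite.symm c) (1 : ℤ)).coeff m).natAbs :=
        Finset.sum_le_sum_of_subset hs
    _ = 1 := by
        rw [Finset.sum_singleton, coeff_monomial, if_pos rfl]
        rfl

end LX2Aux

open LX2Aux

theorem pLX2 (hPts : S_Pts) (hCvb : S_Cvb) (hLip : S_Lip) (hSml : S_Sml)
    (hCof : S_Cof) (hNumX : S_NumX) (hLEv : S_LEv) : S_LX2 := by
  intro m a L hm hInd hL
  obtain ⟨C1, hC1, hPts⟩ := hPts m a L hInd hL
  obtain ⟨Cc, hCc⟩ := hCvb m a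
  set D : ℕ := 2 ^ m with hD
  have hD4 : 4 ≤ D := by
    rw [hD]
    calc 4 = 2 ^ 2 := by norm_num
      _ ≤ 2 ^ m := Nat.pow_le_pow_right (by norm_num) hm
  set S : ℝ := ∑ U, ‖th a L U‖ with hS
  have hS0 : 0 ≤ S := Finset.sum_nonneg fun _ _ => norm_nonneg _
  set C : ℝ := C1 + 2 * D * Cc + S + 1 with hC
  have hDr : (0 : ℝ) ≤ D := Nat.cast_nonneg _
  have hCcr : (0 : ℝ) ≤ Cc := Nat.cast_nonneg _
  have hDC : 0 ≤ 2 * (D : ℝ) * Cc := by positivity
  have hC1C : C1 ≤ C := by rw [hC]; linarith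
  have hC_1 : 1 ≤ C := hC1.trans hC1C
  have hC0 : 0 ≤ C := by linarith
  obtain ⟨N0, hN0⟩ := hNumX D C hD4 hC_1
  refine ⟨N0, fun N hN q hq y hy => ?_⟩
  obtain ⟨hN1, hnum1, hnum2⟩ := hN0 N hN
  by_contra hcon
  push Not at hcon
  obtain ⟨hP1, hP2, hP3, hP4⟩ := hPts N hN1
  have hNr : (1 : ℝ) ≤ N := by exact_mod_cast hN1
  have hCN1 : 1 ≤ C * N := by nlinarith
  have hCN0 : 0 < C * N := by linarith
  have hC1N : C1 * N ≤ C * N := mul_le_mul_of_nonneg_right hC1C (by linarith)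
  have hpow : (C1 * N) ^ D ≤ (C * N) ^ D := pow_le_pow_left₀ (by positivity) hC1N _
  -- the maximum of the coefficients
  obtain ⟨k0, hk0⟩ : ∃ k0, ∀ lam, ‖q lam‖ ≤ ‖q k0‖ := by
    have : Nonempty (Finset (Fin m) → Fin N) := ⟨fun _ => ⟨0, hN1⟩⟩
    obtain ⟨k, -, hk⟩ := Finset.exists_max_image (Finset.univ : Finset (Finset (Fin m) → Fin N))
      (fun lam => ‖q lam‖) Finset.univ_nonempty
    exact ⟨k, fun lam => hk lam (Finset.mem_univ _)⟩
  set P : ℝ := ‖q k0‖ with hP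
  have hPr : 0 < P := by
    rcases (norm_nonneg (q k0)).lt_or_eq with h | h
    · exact h
    · exfalso
      apply hq
      funext lam
      have h1 := hk0 lam
      have h2 : P = 0 := by rw [hP, ← h]
      rw [h2] at h1
      exact norm_le_zero_iff.mp h1
  -- indexing
  have hcard : Fintype.card (Finset (Fin m) → Fin N) = N ^ D := by
    rw [Fintype.card_fun, Fintype.card_finset, Fintype.card_fin, Fintype.card_fin]
  set e : (Finset (Fin m) → Fin N) ≃ Fin (N ^ D) := Fintype.equivFinOfCardEq hcard with he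
  set p' : Fin (N ^ D) → ℂ := fun μ => q (e.symm μ) with hp'
  set w : Fin (N ^ D) → ℂ := fun μ => ((∑ U, ((e.symm μ U : ℕ) : ℝ) * mu a U : ℝ) : ℂ) with hw
  have hF : ∀ z : ℂ, ∑ μ, p' μ * Complex.exp (w μ * z) =
      ∑ lam : Finset (Fin m) → Fin N, q lam * Complex.exp (((∑ U, ((lam U : ℕ) : ℝ) * mu a U : ℝ) : ℂ) * z) := by
    intro z
    rw [← e.symm.sum_comp]
  -- the points
  set zs : (Finset (Fin m) → Fin (2 * N)) → ℂ := fun s => ((∑ V, ((s V : ℕ) : ℝ) * mu a V : ℝ) : ℂ) * L with hzs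
  have hinj : Function.Injective zs := by
    intro s s' hss
    by_contra hne
    have h1 := hP4 s s' hne
    have h2 : zs s - zs s' = 0 := by rw [hss, sub_self]
    simp only [hzs] at h2
    rw [h2] at h1
    simp at h1
    linarith
  set Z : Finset ℂ := Finset.univ.image zs with hZ
  have hZcard : Z.card = (2 * N) ^ D := by
    rw [hZ, Finset.card_image_of_injective _ hinj, Finset.card_univ, Fintype.card_fun, Fintype.card_finset,
      Fintype.card_fin, Fintype.card_fin]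
  set η : ℝ := Real.exp (-(N : ℝ) ^ (D + 1)) with hη
  have hη0 : 0 ≤ η := (Real.exp_pos _).le
  have hη1 : η ≤ 1 := by
    rw [hη, Real.exp_le_one_iff]
    have : (0 : ℝ) ≤ (N : ℝ) ^ (D + 1) := by positivity
    linarith
  set ε : ℝ := P * ((N : ℝ) ^ D * (C * N ^ 2 * C ^ (⌈C * (N : ℝ) ^ 2⌉₊) * η)) with hε
  have hε0 : 0 ≤ ε := by positivity
  set δ : ℝ := ((C * N) ^ D)⁻¹ with hδ
  have hCND : 1 ≤ (C * N) ^ D := one_le_pow₀ hCN1
  have hδ0 : 0 < δ := by positivity
  have hδ1 : δ ≤ 1 := by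
    rw [hδ]
    exact inv_le_one_of_one_le₀ hCND
  -- bounds
  have hwb : ∀ i, ‖w i‖ ≤ C * N := by
    intro i
    simp only [hw]
    rw [Complex.norm_real, Real.norm_eq_abs]
    exact (hP1 (e.symm i)).trans hC1N
  have hwsep : ∀ i k, i ≠ k → δ ≤ ‖w i - w k‖ := by
    intro i k hik
    have h1 := hP2 (e.symm i) (e.symm k) (fun h => hik (e.symm.injective h))
    simp only [hw]
    rw [← Complex.ofReal_sub, Complex.norm_real, Real.norm_eq_abs, hδ]
    rw [inv_le_iff_one_le_mul₀ (by positivity)]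
    refine h1.trans ?_
    exact mul_le_mul_of_nonneg_left hpow (abs_nonneg _)
  have hZb : ∀ x ∈ Z, ‖x‖ ≤ C * N := by
    intro x hx
    obtain ⟨s, -, rfl⟩ := Finset.mem_image.1 hx
    exact (hP3 s).trans hC1N
  have hZsep : ∀ x ∈ Z, ∀ x' ∈ Z, x ≠ x' → δ ≤ ‖x - x'‖ := by
    intro x hx x' hx' hne
    obtain ⟨s, -, rfl⟩ := Finset.mem_image.1 hx
    obtain ⟨s', -, rfl⟩ := Finset.mem_image.1 hx'
    have h1 := hP4 s s' (fun h => hne (by rw [h]))
    rw [hδ, inv_le_iff_one_le_mul₀ (by positivity)]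
    refine h1.trans ?_
    exact mul_le_mul_of_nonneg_left hpow (norm_nonneg _)
  -- smallness
  have hthC : ∀ U, ‖th a L U‖ ≤ C - 1 := by
    intro U
    have h1 : ‖th a L U‖ ≤ S := Finset.single_le_sum (f := fun U => ‖th a L U‖) (fun _ _ => norm_nonneg _) (Finset.mem_univ U)
    rw [hC]
    linarith
  have hyC : ∀ U, ‖y U‖ ≤ C := by
    intro U
    have h1 := hy U
    have h2 := hthC U
    have h3 : ‖y U‖ ≤ ‖y U - th a L U‖ + ‖th a L U‖ := by
      have := norm_add_le (y U - th a L U) (th a L U)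
      simpa using this
    linarith
  have hsmall : ∀ x ∈ Z, ‖∑ μ, p' μ * Complex.exp (w μ * x)‖ ≤ ε := by
    intro x hx
    obtain ⟨s, -, rfl⟩ := Finset.mem_image.1 hx
    rw [hF]
    have hzero := hcon (fun V => (s V : ℕ)) (fun V => (s V).2)
    have hsub : ∑ lam : Finset (Fin m) → Fin N, q lam * Complex.exp (((∑ U, ((lam U : ℕ) : ℝ) * mu a U : ℝ) : ℂ) * zs s) =
        ∑ lam : Finset (Fin m) → Fin N, q lam *
          (aeval (th a L) (∏ W, (X W : MvPolynomial (Finset (Fin m)) ℤ) ^ cv a (fun U => (lam U : ℕ)) (fun V => (s V : ℕ)) W) -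
            aeval y (∏ W, (X W : MvPolynomial (Finset (Fin m)) ℤ) ^ cv a (fun U => (lam U : ℕ)) (fun V => (s V : ℕ)) W)) := by
      have h1 : ∑ lam : Finset (Fin m) → Fin N, q lam *
          (aeval (th a L) (∏ W, (X W : MvPolynomial (Finset (Fin m)) ℤ) ^ cv a (fun U => (lam U : ℕ)) (fun V => (s V : ℕ)) W) -
            aeval y (∏ W, (X W : MvPolynomial (Finset (Fin m)) ℤ) ^ cv a (fun U => (lam U : ℕ)) (fun V => (s V : ℕ)) W)) =
          ∑ lam : Finset (Fin m) → Fin N, q lam *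
            aeval (th a L) (∏ W, (X W : MvPolynomial (Finset (Fin m)) ℤ) ^ cv a (fun U => (lam U : ℕ)) (fun V => (s V : ℕ)) W) -
          ∑ lam : Finset (Fin m) → Fin N, q lam *
            ∏ W, y W ^ cv a (fun U => (lam U : ℕ)) (fun V => (s V : ℕ)) W := by
        rw [← Finset.sum_sub_distrib]
        refine Finset.sum_congr rfl fun lam _ => ?_
        rw [mul_sub]
        congr 1
        simp
      rw [h1, hzero, sub_zero]
      refine Finset.sum_congr rfl fun lam _ => ?_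
      congr 1
      have h2 := hLEv m a L (fun U => (lam U : ℕ)) (fun V => (s V : ℕ))
      simp only [map_prod, map_pow, aeval_X]
      rw [h2]
    rw [hsub]
    have hterm : ∀ lam : Finset (Fin m) → Fin N, ‖q lam *
          (aeval (th a L) (∏ W, (X W : MvPolynomial (Finset (Fin m)) ℤ) ^ cv a (fun U => (lam U : ℕ)) (fun V => (s V : ℕ)) W) -
            aeval y (∏ W, (X W : MvPolynomial (Finset (Fin m)) ℤ) ^ cv a (fun U => (lam U : ℕ)) (fun V => (s V : ℕ)) W))‖ ≤
          P * (C * N ^ 2 * C ^ (⌈C * (N : ℝ) ^ 2⌉₊) * η) := by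
      intro lam
      rw [norm_mul]
      set f := ∏ W, (X W : MvPolynomial (Finset (Fin m)) ℤ) ^ cv a (fun U => (lam U : ℕ)) (fun V => (s V : ℕ)) W with hf
      have hdeg : f.totalDegree ≤ D * (Cc * (N * (2 * N))) := by
        rw [hf, hD]
        apply totalDegree_mon
        intro W
        exact hCc N (2 * N) _ _ (fun U => (lam U).2.le) (fun V => (s V).2.le) W
      set d : ℕ := D * (Cc * (N * (2 * N))) with hd
      have hdr : (d : ℝ) ≤ C * N ^ 2 := by
        have h1 : (d : ℝ) = 2 * D * Cc * N ^ 2 := by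
          rw [hd]
          push_cast
          ring
        rw [h1]
        apply mul_le_mul_of_nonneg_right _ (by positivity)
        rw [hC]
        linarith
      have hdn : d ≤ ⌈C * (N : ℝ) ^ 2⌉₊ := by
        have : (d : ℝ) ≤ (⌈C * (N : ℝ) ^ 2⌉₊ : ℝ) := hdr.trans (Nat.le_ceil _)
        exact_mod_cast this
      have hl := hLip (Finset (Fin m)) f d (th a L) y C η hC_1 hη0 hdeg
        (fun U => (hthC U).trans (by linarith)) hyC (fun U => by rw [norm_sub_rev]; exact hy U)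
      have hl1 : (l1 f : ℝ) ≤ 1 := by
        have := l1_mon (fun W => cv a (fun U => (lam U : ℕ)) (fun V => (s V : ℕ)) W)
        rw [← hf] at this
        exact_mod_cast this
      have hCd : C ^ d ≤ C ^ (⌈C * (N : ℝ) ^ 2⌉₊) := pow_le_pow_right₀ hC_1 hdn
      apply mul_le_mul (hk0 lam) _ (norm_nonneg _) hPr.le
      refine hl.trans ?_
      calc (l1 f : ℝ) * (d * C ^ d * η) ≤ 1 * (C * N ^ 2 * C ^ (⌈C * (N : ℝ) ^ 2⌉₊) * η) := by
            gcongr
        _ = _ := by rw [one_mul]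
    refine (norm_sum_le _ _).trans ?_
    refine (Finset.sum_le_sum fun lam _ => hterm lam).trans ?_
    rw [Finset.sum_const, Finset.card_univ, hcard, nsmul_eq_mul, hε]
    push_cast
    exact le_of_eq (by ring)
  have h2n : 2 * N ^ D ≤ Z.card := by
    rw [hZcard, mul_pow]
    apply Nat.mul_le_mul_right
    exact Nat.le_self_pow (by omega) 2
  have hG : 4 * (((N ^ D : ℕ) : ℝ) * 17 ^ (N ^ D) * Real.exp (18 * (C * N) * (C * N))) ≤ 64 ^ (N ^ D) := hnum1
  have hs := hSml (N ^ D) p' w (C * N) (C * N) δ ε Z hwb hCN1 hδ0 hδ1 hε0 hZb hZsep hsmall h2n hG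
  have hc := hCof (N ^ D) p' w (C * N) δ (C * N) _ hwb hδ0 hδ1 hCN1 hCN0.le hwsep hs (e k0)
  have hpk : ‖p' (e k0)‖ = P := by
    simp only [hp', Equiv.symm_apply_apply]
    rw [hP]
  rw [hpk, hZcard] at hc
  have e1 : (1 + C * N) / δ = (1 + C * N) * (C * N) ^ D := by
    rw [hδ, div_inv_eq_mul]
  have e2 : 18 * (C * N) / δ = 18 * (C * N) * (C * N) ^ D := by
    rw [hδ, div_inv_eq_mul]
  rw [e1, e2] at hc
  have e3 : ((1 + C * N) * (C * N) ^ D) ^ (N ^ D) * (Nat.factorial (N ^ D) : ℝ) *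
      (3 * ((((2 * N) ^ D : ℕ) : ℝ) * ε * (18 * (C * N) * (C * N) ^ D) ^ ((2 * N) ^ D))) =
      P * (((1 + C * N) * (C * N) ^ D) ^ (N ^ D) * (Nat.factorial (N ^ D) : ℝ) *
      (3 * ((((2 * N) ^ D : ℕ) : ℝ) * ((N : ℝ) ^ D * (C * N ^ 2 * C ^ (⌈C * (N : ℝ) ^ 2⌉₊) *
        Real.exp (-(N : ℝ) ^ (D + 1)))) * (18 * (C * N) * (C * N) ^ D) ^ ((2 * N) ^ D)))) := by
    rw [hε, hη]
    ring
  rw [e3] at hc
  have hlt : P * (((1 + C * N) * (C * N) ^ D) ^ (N ^ D) * (Nat.factorial (N ^ D) : ℝ) *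
      (3 * ((((2 * N) ^ D : ℕ) : ℝ) * ((N : ℝ) ^ D * (C * N ^ 2 * C ^ (⌈C * (N : ℝ) ^ 2⌉₊) *
        Real.exp (-(N : ℝ) ^ (D + 1)))) * (18 * (C * N) * (C * N) ^ D) ^ ((2 * N) ^ D)))) < P * 1 :=
    mul_lt_mul_of_pos_left hnum2 hPr
  linarith

end Pool.Agent.SMQ
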