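import Pool.Agent.Lib.MP_452a87_nt.SpecL

/-! MP_452a87_nt: proof of `S_LDn` (an inequality outside the zeros of a polynomial). -/

set_option autoImplicit false

namespace Pool.Agent.SMQ

open MvPolynomial Filter Topology

namespace LDnAux

theorem cont_aevalC {σ : Type} (P : MvPolynomial σ ℂ) :
    Continuous fun z : σ → ℂ => aeval z P := by
  induction P using MvPolynomial.induction_on with
  | C a =>
    have h : (fun z : σ → ℂ => aeval z (C a : MvPolynomial σ ℂ)) = fun _ => a := by
      funext z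
      simp
    rw [h]
    exact continuous_const
  | add p q hp hq =>
    have h : (fun z : σ → ℂ => aeval z (p + q)) = fun z => aeval z p + aeval z q := by
      funext z
      rw [map_add]
    rw [h]
    exact hp.add hq
  | mul_X p i hp =>
    have h : (fun z : σ → ℂ => aeval z (p * X i)) = fun z => aeval z p * z i := by
      funext z
      rw [map_mul, aeval_X]
    rw [h]
    exact hp.mul (continuous_apply i)

/-- The restriction of `e` to the line through `x` in the direction `y`. -/
theorem line {σ : Type} (e : MvPolynomial σ ℤ) (x y : σ → ℂ) :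
    ∃ p : Polynomial ℂ, ∀ s : ℂ, p.eval s = aeval (fun i => x i + s * y i) e := by
  refine ⟨aeval (fun i => Polynomial.C (x i) + Polynomial.X * Polynomial.C (y i)) e, fun s => ?_⟩
  induction e using MvPolynomial.induction_on with
  | C a => simp
  | add p q hp hq => rw [map_add, Polynomial.eval_add, hp, hq, map_add]
  | mul_X p i hp =>
    rw [map_mul, Polynomial.eval_mul, hp, map_mul, aeval_X, aeval_X]
    rw [Polynomial.eval_add, Polynomial.eval_C, Polynomial.eval_mul, Polynomial.eval_X,
      Polynomial.eval_C]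

/-- A nonzero polynomial has a nonzero value in the polydisc. -/
theorem exists_ne {σ : Type} [Fintype σ] (e : MvPolynomial σ ℤ) (ϱ : ℝ) (hϱ : 0 < ϱ)
    (he : e ≠ 0) : ∃ x : σ → ℂ, (∀ p, ‖x p‖ ≤ ϱ) ∧ aeval x e ≠ 0 := by
  by_contra hcon
  push Not at hcon
  apply he
  have h1 : map (Int.castRingHom ℂ) e = 0 := by
    refine MvPolynomial.funext_set (fun _ => Metric.closedBall (0 : ℂ) ϱ) (fun _ => ?_) ?_
    · refine Set.infinite_of_injective_forall_mem (f := fun n : ℕ => ((ϱ / (n + 1) : ℝ) : ℂ)) ?_ ?_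
      · intro m n h
        have h2 : ϱ / ((m : ℝ) + 1) = ϱ / ((n : ℝ) + 1) := Complex.ofReal_injective h
        have hm : ((m : ℝ) + 1) ≠ 0 := by positivity
        have hn : ((n : ℝ) + 1) ≠ 0 := by positivity
        rw [div_eq_div_iff hm hn] at h2
        have h3 := mul_left_cancel₀ hϱ.ne' h2
        have h4 : (m : ℝ) = n := by linarith
        exact_mod_cast h4
      · intro n
        rw [mem_closedBall_zero_iff, Complex.norm_real, Real.norm_of_nonneg (by positivity)]
        exact div_le_self hϱ.le (by linarith [Nat.cast_nonneg (α := ℝ) n])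
    · intro x hx
      rw [map_zero, eval_map]
      have h5 : aeval x e = eval₂ (algebraMap ℤ ℂ) x e := rfl
      have h6 : aeval x e = 0 := by
        refine hcon x fun q => ?_
        have h7 := hx q (Set.mem_univ q)
        rwa [mem_closedBall_zero_iff] at h7
      rw [h5] at h6
      exact h6
  exact (map_injective _ (Int.castRingHom ℂ).injective_int) (by rw [h1, map_zero])

end LDnAux

open LDnAux in
theorem pLDn : S_LDn := by
  intro σ _ e A ϱ B hϱ he hA x hx
  obtain ⟨x', hx', hne⟩ := exists_ne e ϱ hϱ he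
  obtain ⟨p, hp⟩ := line e x (fun i => x' i - x i)
  have hp0 : p ≠ 0 := by
    rintro rfl
    have h1 := hp 1
    rw [Polynomial.eval_zero] at h1
    apply hne
    have h2 : x' = fun i => x i + 1 * (x' i - x i) := by
      funext i
      ring
    rw [h2]
    exact h1.symm
  have hfin : {s : ℝ | p.eval (s : ℂ) = 0}.Finite := by
    have h1 : {s : ℂ | p.eval s = 0}.Finite := by
      have h2 := Polynomial.finite_setOfPred_isRoot hp0
      exact h2
    exact h1.preimage (Complex.ofReal_injective.injOn)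
  have hev : ∀ᶠ s : ℝ in 𝓝[>] 0, p.eval (s : ℂ) ≠ 0 := by
    have h1 : IsOpen ({s : ℝ | p.eval (s : ℂ) = 0} \ {0})ᶜ :=
      (hfin.subset Set.sdiff_subset).isClosed.isOpen_compl
    have h2 : ({s : ℝ | p.eval (s : ℂ) = 0} \ {0})ᶜ ∈ 𝓝 (0 : ℝ) := h1.mem_nhds (by simp)
    filter_upwards [nhdsWithin_le_nhds h2, self_mem_nhdsWithin] with s hs hs0 h0
    exact hs ⟨h0, (ne_of_gt hs0)⟩
  have hle : ∀ᶠ s : ℝ in 𝓝[>] 0, ‖aeval (fun i => x i + (s : ℂ) * (x' i - x i)) A‖ ≤ B := by
    have h1 : Set.Ioc (0 : ℝ) 1 ∈ 𝓝[>] (0 : ℝ) := Ioc_mem_nhdsGT one_pos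
    filter_upwards [hev, h1] with s hs hs1
    refine hA _ ?_ ?_
    · intro i
      have e1 : x i + (s : ℂ) * (x' i - x i) = ((1 - s : ℝ) : ℂ) * x i + ((s : ℝ) : ℂ) * x' i := by
        push_cast
        ring
      rw [e1]
      calc ‖((1 - s : ℝ) : ℂ) * x i + ((s : ℝ) : ℂ) * x' i‖
          ≤ ‖((1 - s : ℝ) : ℂ) * x i‖ + ‖((s : ℝ) : ℂ) * x' i‖ := norm_add_le _ _
        _ = (1 - s) * ‖x i‖ + s * ‖x' i‖ := by
          rw [norm_mul, norm_mul, Complex.norm_real, Complex.norm_real,
            Real.norm_of_nonneg (by linarith [hs1.2]), Real.norm_of_nonneg hs1.1.le]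
        _ ≤ (1 - s) * ϱ + s * ϱ := by
          have a1 := mul_le_mul_of_nonneg_left (hx i) (show (0 : ℝ) ≤ 1 - s by linarith [hs1.2])
          have a2 := mul_le_mul_of_nonneg_left (hx' i) hs1.1.le
          linarith
        _ = ϱ := by ring
    · rw [← hp]
      exact hs
  have hcont : Continuous fun s : ℝ => ‖aeval (fun i => x i + (s : ℂ) * (x' i - x i)) A‖ := by
    refine ((cont_aevalC A).comp ?_).norm
    fun_prop
  have htend : Tendsto (fun s : ℝ => ‖aeval (fun i => x i + (s : ℂ) * (x' i - x i)) A‖)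
      (𝓝[>] 0) (𝓝 ‖aeval x A‖) := by
    have h1 := (hcont.tendsto 0).mono_left (nhdsWithin_le_nhds (s := Set.Ioi (0 : ℝ)))
    simpa using h1
  exact le_of_tendsto htend hle

end Pool.Agent.SMQ
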