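import Pool.Agent.Lib.MP_452a87_nt.SpecL

/-! MP_452a87_nt: proof of `S_LDs` (a zero near `θ`). -/

set_option autoImplicit false

namespace Pool.Agent.SMQ

open MvPolynomial

namespace LDsAux

theorem psi_full {ι : Type} [Fintype ι] {r : ℕ} (v : ι → ℂ) (u : Fin r × ι → ℂ) (θ : ι → ℂ) :
    psi (full v u) θ = (Fin.cons (dot v θ) (psi u θ) : Fin (r + 1) → ℂ) := by
  funext i
  refine Fin.cases ?_ (fun i => ?_) i
  · rfl
  · rfl

theorem dsc_full {ι : Type} {r : ℕ} {v : ι → ℂ} {u : Fin r × ι → ℂ} (hv : Dsc v) (hu : Dsc u) :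
    Dsc (full v u) := by
  rintro ⟨i, j⟩
  revert i
  refine Fin.cases ?_ (fun i => ?_)
  · exact hv j
  · exact hu (i, j)

/-- Some factor is small. -/
theorem exists_small {g : ℕ} (hg : 1 ≤ g) (x : Fin g → ℝ) (b : ℝ) (hb : 0 < b)
    (h : ∏ i, x i ≤ b ^ g) : ∃ i, x i ≤ b := by
  by_contra hcon
  push Not at hcon
  have h1 : ∏ _i : Fin g, b < ∏ i, x i := by
    refine Finset.prod_lt_prod_of_nonempty (fun _ _ => hb) (fun i _ => hcon i) ?_
    exact ⟨⟨0, hg⟩, Finset.mem_univ _⟩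
  rw [Finset.prod_const, Finset.card_univ, Fintype.card_fin] at h1
  linarith

end LDsAux

open LDsAux in
theorem pLDs (hLG2 : S_LG2) (hLI1 : S_LI1) (hLLf : S_LLf) : S_LDs := by
  intro ι _ _ r θ ξ G δ hTr hF hδ hG
  obtain ⟨g, e, hg1, hg2, he, hR⟩ := hLG2 ι r ξ G hTr hF
  obtain ⟨R, _, hsec⟩ := hR 1 0 (by rw [map_one]; exact one_ne_zero) (by simp)
  obtain ⟨u, hu, hu1, _⟩ := hLI1 (Fin r × ι) e he
  have hne : aeval u e ≠ 0 := by
    intro h
    rw [h, norm_zero] at hu1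
    linarith
  obtain ⟨z, hz1, hz2, _⟩ := hsec u (psi u θ) hne
  have h1 : ∀ v : ι → ℂ, Dsc v → ‖aeval u e * ∏ i, dot v (θ - z i)‖ ≤ Real.exp (-δ) := by
    intro v hv
    have h2 := hG (full v u) (dsc_full hv hu)
    unfold vt at h2
    rw [psi_full, hz2] at h2
    have h3 : ∀ i, dot v (θ - z i) = dot v θ - dot v (z i) := by
      intro i
      unfold dot
      rw [← Finset.sum_sub_distrib]
      refine Finset.sum_congr rfl fun j _ => ?_
      rw [Pi.sub_apply, mul_sub]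
    rw [Finset.prod_congr rfl fun i _ => h3 i]
    exact h2
  have h4 := (hLLf ι g (fun i => θ - z i) (aeval u e) (Real.exp (-δ))).2 h1
  have hgp : (0 : ℝ) < g := by exact_mod_cast hg1
  have h5 : ∏ i, ‖θ - z i‖ ≤ (2 ^ Fintype.card ι * Real.exp (-(δ / g))) ^ g := by
    have h6 : ∏ i, ‖θ - z i‖ ≤ ‖aeval u e‖ * ∏ i, ‖θ - z i‖ := by
      have h7 : 0 ≤ ∏ i, ‖θ - z i‖ := Finset.prod_nonneg fun i _ => norm_nonneg _
      nlinarith
    refine le_trans h6 (le_trans h4 (le_of_eq ?_))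
    rw [mul_pow, ← pow_mul, ← Real.exp_nat_mul]
    congr 2
    field_simp
  obtain ⟨i, hi⟩ := exists_small hg1 _ _ (by positivity) h5
  refine ⟨z i, (hz1 i).1, ?_⟩
  rw [norm_sub_rev]
  refine le_trans hi ?_
  refine mul_le_mul_of_nonneg_left (Real.exp_le_exp.2 ?_) (by positivity)
  have h8 : (g : ℝ) ≤ sz G := by
    unfold sz
    have h9 : (g : ℝ) ≤ (G.totalDegree : ℝ) := by exact_mod_cast hg2
    have h10 : 0 ≤ Real.log (l1 G : ℝ) := Real.log_natCast_nonneg _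
    linarith
  have h11 : δ / sz G ≤ δ / g := div_le_div_of_nonneg_left hδ hgp h8
  linarith

end Pool.Agent.SMQ
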