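import Pool.Agent.Lib.MP_452a87_nt.SpecL

/-!
# Extrapolation
-/

set_option autoImplicit false

namespace Pool.Agent.SMQ

open MvPolynomial

namespace LX1Aux

lemma xbound (D : ℕ) (C1 : ℝ) (N : ℕ)
    (hN : 18 * C1 ^ (D + 1) * (4 ^ (D + 2) * (Nat.factorial (D + 2) : ℝ)) ≤ (N : ℝ)) :
    18 * (C1 * N) * (C1 * N) ^ D ≤ Real.exp ((N : ℝ) / 4) := by
  have h1 := Real.pow_div_factorial_le_exp ((N : ℝ) / 4) (by positivity) (D + 2)
  refine le_trans ?_ h1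
  have hf : (0 : ℝ) < (Nat.factorial (D + 2) : ℝ) := by exact_mod_cast Nat.factorial_pos _
  rw [le_div_iff₀ hf, div_pow, le_div_iff₀ (by positivity)]
  calc 18 * (C1 * N) * (C1 * N) ^ D * (Nat.factorial (D + 2) : ℝ) * 4 ^ (D + 2)
      = (18 * C1 ^ (D + 1) * (4 ^ (D + 2) * (Nat.factorial (D + 2) : ℝ))) * (N : ℝ) ^ (D + 1) := by ring
    _ ≤ N * (N : ℝ) ^ (D + 1) := mul_le_mul_of_nonneg_right hN (by positivity)
    _ = (N : ℝ) ^ (D + 2) := by ring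

lemma qbound (D N T : ℕ) (x : ℝ) (hx0 : 0 ≤ x) (hx : x ≤ Real.exp ((N : ℝ) / 4)) (hT : (T : ℝ) ≤ (N : ℝ) ^ D) (hN : 8 ≤ N) :
    (T : ℝ) * Real.exp (-((N : ℝ) ^ (D + 1) / 2)) * x ^ T ≤ Real.exp (-(N : ℝ) ^ D) := by
  have h1 : (T : ℝ) ≤ Real.exp T := by
    have := Real.add_one_le_exp (T : ℝ)
    linarith
  have h2 : x ^ T ≤ Real.exp (T * (N / 4)) := by
    rw [Real.exp_nat_mul]
    exact pow_le_pow_left₀ hx0 hx _
  have hN8 : (8 : ℝ) ≤ N := by exact_mod_cast hN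
  calc (T : ℝ) * Real.exp (-((N : ℝ) ^ (D + 1) / 2)) * x ^ T
      ≤ Real.exp T * Real.exp (-((N : ℝ) ^ (D + 1) / 2)) * Real.exp (T * (N / 4)) := by gcongr
    _ = Real.exp (T + -((N : ℝ) ^ (D + 1) / 2) + T * (N / 4)) := by rw [Real.exp_add, Real.exp_add]
    _ ≤ Real.exp (-(N : ℝ) ^ D) := by
        apply Real.exp_le_exp.mpr
        have h3 : (T : ℝ) * (N / 4) ≤ (N : ℝ) ^ D * (N / 4) := mul_le_mul_of_nonneg_right hT (by positivity)
        have h4 : (N : ℝ) ^ (D + 1) = (N : ℝ) ^ D * N := by ring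
        have h5 : (N : ℝ) ^ D * 8 ≤ (N : ℝ) ^ D * N := mul_le_mul_of_nonneg_left hN8 (by positivity)
        rw [h4]
        linarith

lemma exp2_le : Real.exp 2 ≤ 8 := by
  have h1 := Real.exp_one_lt_d9
  have h2 : Real.exp 2 = Real.exp 1 * Real.exp 1 := by
    rw [← Real.exp_add]
    norm_num
  rw [h2]
  have h3 := Real.exp_pos 1
  nlinarith

lemma final (D N T : ℕ) (C2 c : ℝ) (hC2 : 0 ≤ C2) (hc0 : 0 < c) (hc : c ≤ 1 / 2) (hN : 4 ≤ N) (hD : 5 ≤ D)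
    (hcN : C2 + 2 ≤ c * N) (hT : c * (N : ℝ) ^ D ≤ T) :
    (Real.exp (C2 * (N : ℝ) ^ 4) + 1) / 8 ^ T + Real.exp (-(N : ℝ) ^ D) ≤ Real.exp (-(c * (N : ℝ) ^ D)) := by
  have hN1 : (1 : ℝ) ≤ N := by exact_mod_cast (by omega : 1 ≤ N)
  have hN4 : (4 : ℝ) ≤ N := by exact_mod_cast hN
  have h0 : 0 ≤ C2 * (N : ℝ) ^ 4 := by positivity
  have h1 : Real.exp (C2 * (N : ℝ) ^ 4) + 1 ≤ Real.exp (C2 * (N : ℝ) ^ 4 + 1) := by
    rw [Real.exp_add]
    have e1 : 1 ≤ Real.exp (C2 * (N : ℝ) ^ 4) := Real.one_le_exp h0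
    have e2 : (2 : ℝ) ≤ Real.exp 1 := by
      have := Real.add_one_le_exp (1 : ℝ)
      linarith
    nlinarith
  have h2 : Real.exp (2 * T) ≤ 8 ^ T := by
    calc Real.exp (2 * T) = Real.exp 2 ^ T := by
          rw [← Real.exp_nat_mul]
          congr 1
          ring
      _ ≤ 8 ^ T := pow_le_pow_left₀ (Real.exp_pos _).le exp2_le _
  have h3 : (C2 + 2) * (N : ℝ) ^ 4 ≤ c * (N : ℝ) ^ D := by
    calc (C2 + 2) * (N : ℝ) ^ 4 ≤ (c * N) * (N : ℝ) ^ 4 := mul_le_mul_of_nonneg_right hcN (by positivity)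
      _ = c * (N : ℝ) ^ 5 := by ring
      _ ≤ c * (N : ℝ) ^ D := mul_le_mul_of_nonneg_left (pow_le_pow_right₀ hN1 hD) hc0.le
  have h4 : (1 : ℝ) ≤ (N : ℝ) ^ 4 := one_le_pow₀ hN1
  have h5 : (Real.exp (C2 * (N : ℝ) ^ 4) + 1) / 8 ^ T ≤ Real.exp (-(c * (N : ℝ) ^ D) - 1) := by
    rw [div_le_iff₀ (by positivity)]
    calc Real.exp (C2 * (N : ℝ) ^ 4) + 1 ≤ Real.exp (C2 * (N : ℝ) ^ 4 + 1) := h1
      _ ≤ Real.exp (-(c * (N : ℝ) ^ D) - 1 + 2 * T) := by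
          apply Real.exp_le_exp.mpr
          nlinarith
      _ = Real.exp (-(c * (N : ℝ) ^ D) - 1) * Real.exp (2 * T) := Real.exp_add _ _
      _ ≤ Real.exp (-(c * (N : ℝ) ^ D) - 1) * 8 ^ T := mul_le_mul_of_nonneg_left h2 (Real.exp_pos _).le
  have h6 : Real.exp (-(N : ℝ) ^ D) ≤ Real.exp (-(c * (N : ℝ) ^ D) - 1) := by
    apply Real.exp_le_exp.mpr
    have e1 : (N : ℝ) ≤ (N : ℝ) ^ D := le_self_pow₀ hN1 (by omega)
    have e2 : c * (N : ℝ) ^ D ≤ 1 / 2 * (N : ℝ) ^ D := mul_le_mul_of_nonneg_right hc (by positivity)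
    linarith
  have h7 : Real.exp (-(c * (N : ℝ) ^ D) - 1) * 2 ≤ Real.exp (-(c * (N : ℝ) ^ D)) := by
    have e1 : Real.exp (-(c * (N : ℝ) ^ D)) = Real.exp (-(c * (N : ℝ) ^ D) - 1) * Real.exp 1 := by
      rw [← Real.exp_add]
      congr 1
      ring
    rw [e1]
    apply mul_le_mul_of_nonneg_left _ (Real.exp_pos _).le
    have := Real.add_one_le_exp (1 : ℝ)
    linarith
  linarith

end LX1Aux

open LX1Aux

theorem pLX1 (hPts : S_Pts) (hSwz : S_Swz) (hLag : S_Lag) : S_LX1 := by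
  intro m a L hm hInd hL
  obtain ⟨C1, hC1, hPts⟩ := hPts m a L hInd hL
  set D : ℕ := 2 ^ m with hD
  have hD8 : 8 ≤ D := by
    rw [hD]
    calc 8 = 2 ^ 3 := by norm_num
      _ ≤ 2 ^ m := Nat.pow_le_pow_right (by norm_num) hm
  set c : ℝ := (1 / 32) ^ D with hc
  have hc0 : 0 < c := by positivity
  have hc12 : c ≤ 1 / 2 := by
    calc c ≤ (1 / 32 : ℝ) ^ 1 := pow_le_pow_of_le_one (by norm_num) (by norm_num) (by omega)
      _ ≤ 1 / 2 := by norm_num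
  refine ⟨c, hc0, fun C => ?_⟩
  set C2 : ℝ := |C| + D + 17 * C1 ^ 2 with hC2
  have hC20 : 0 ≤ C2 := by positivity
  refine ⟨16 + ⌈18 * C1 ^ (D + 1) * (4 ^ (D + 2) * (Nat.factorial (D + 2) : ℝ))⌉₊ + ⌈(C2 + 2) / c⌉₊, fun N hN => ?_⟩
  intro q hq hsm s hs
  have hN16 : 16 ≤ N := by omega
  have hN1' : 1 ≤ N := by omega
  have hNr : (1 : ℝ) ≤ N := by exact_mod_cast hN1'
  have hNa : 18 * C1 ^ (D + 1) * (4 ^ (D + 2) * (Nat.factorial (D + 2) : ℝ)) ≤ (N : ℝ) := by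
    have h1 : ⌈18 * C1 ^ (D + 1) * (4 ^ (D + 2) * (Nat.factorial (D + 2) : ℝ))⌉₊ ≤ N := by omega
    exact Nat.le_of_ceil_le h1
  have hNb : C2 + 2 ≤ c * N := by
    have h1 : (C2 + 2) / c ≤ (N : ℝ) := by
      have h1 : ⌈(C2 + 2) / c⌉₊ ≤ N := by omega
      exact Nat.le_of_ceil_le h1
    rw [div_le_iff₀ hc0] at h1
    linarith
  obtain ⟨hP1, -, hP3, hP4⟩ := hPts N hN1'
  set F : ℂ → ℂ := fun z => ∑ lam : Finset (Fin m) → Fin N,
    q lam * Complex.exp (((∑ U, ((lam U : ℕ) : ℝ) * mu a U : ℝ) : ℂ) * z) with hF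
  have hFd : Differentiable ℂ F := by
    rw [hF]
    fun_prop
  have hCN1 : 1 ≤ C1 * N := by nlinarith
  have hCN0 : 0 < C1 * N := by linarith
  set S0 : ℕ := N / 16 with hS0
  have hS0N : S0 ≤ 2 * N := by omega
  -- points
  set zs : (Finset (Fin m) → Fin S0) → ℂ := fun s => ((∑ V, ((s V : ℕ) : ℝ) * mu a V : ℝ) : ℂ) * L with hzs
  set emb : (Finset (Fin m) → Fin S0) → (Finset (Fin m) → Fin (2 * N)) :=
    fun s V => ⟨(s V : ℕ), lt_of_lt_of_le (s V).2 hS0N⟩ with hemb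
  have hzemb : ∀ s, zs s = ((∑ V, ((emb s V : ℕ) : ℝ) * mu a V : ℝ) : ℂ) * L := fun s => rfl
  set δ : ℝ := ((C1 * N) ^ D)⁻¹ with hδ
  have hCND : 1 ≤ (C1 * N) ^ D := one_le_pow₀ hCN1
  have hδ0 : 0 < δ := by positivity
  have hδ1 : δ ≤ 1 := by
    rw [hδ]
    exact inv_le_one_of_one_le₀ hCND
  have hsep : ∀ s s' : Finset (Fin m) → Fin S0, s ≠ s' → δ ≤ ‖zs s - zs s'‖ := by
    intro s s' hne
    have hne' : emb s ≠ emb s' := by
      intro h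
      apply hne
      funext V
      have := congrFun h V
      simp only [hemb, Fin.mk.injEq] at this
      exact Fin.ext this
    have h1 := hP4 (emb s) (emb s') hne'
    rw [← hzemb, ← hzemb] at h1
    rw [hδ, inv_le_iff_one_le_mul₀ (by positivity)]
    exact h1
  have hinj : Function.Injective zs := by
    intro s s' hss
    by_contra hne
    have h1 := hsep s s' hne
    rw [hss, sub_self, norm_zero] at h1
    linarith
  set Z : Finset ℂ := Finset.univ.image zs with hZ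
  have hZcard : Z.card = S0 ^ D := by
    rw [hZ, Finset.card_image_of_injective _ hinj, Finset.card_univ, Fintype.card_fun, Fintype.card_finset,
      Fintype.card_fin, Fintype.card_fin]
  have hZb : ∀ x ∈ Z, ‖x‖ ≤ C1 * N := by
    intro x hx
    obtain ⟨s', -, rfl⟩ := Finset.mem_image.1 hx
    exact hP3 (emb s')
  have hZsep : ∀ x ∈ Z, ∀ y ∈ Z, x ≠ y → δ ≤ ‖x - y‖ := by
    intro x hx y hy hne
    obtain ⟨s1, -, rfl⟩ := Finset.mem_image.1 hx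
    obtain ⟨s2, -, rfl⟩ := Finset.mem_image.1 hy
    exact hsep s1 s2 (fun h => hne (by rw [h]))
  set ε : ℝ := Real.exp (-((N : ℝ) ^ (D + 1) / 2)) with hε
  have hZs : ∀ x ∈ Z, ‖F x‖ ≤ ε := by
    intro x hx
    obtain ⟨s', -, rfl⟩ := Finset.mem_image.1 hx
    exact hsm (fun V => (s' V : ℕ)) (fun V => (s' V).2)
  obtain ⟨Q, hQ1, hQ2⟩ := hLag Z F (C1 * N) δ ε hCN1 hδ0 hδ1 (Real.exp_pos _).le hZb hZsep hZs
  have hT : (Z.card : ℝ) ≤ (N : ℝ) ^ D := by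
    rw [hZcard]
    push_cast
    apply pow_le_pow_left₀ (by positivity)
    exact_mod_cast (by omega : S0 ≤ N)
  have hQb : ∀ z : ℂ, ‖z‖ ≤ 17 * (C1 * N) → ‖Q.eval z‖ ≤ Real.exp (-(N : ℝ) ^ D) := by
    intro z hz
    refine (hQ2 z hz).trans ?_
    have e2 : 18 * (C1 * N) / δ = 18 * (C1 * N) * (C1 * N) ^ D := by
      rw [hδ, div_inv_eq_mul]
    rw [e2]
    exact qbound D N Z.card _ (by positivity) (xbound D C1 N hNa) hT (by omega)
  have hbound : ∀ z : ℂ, ‖z‖ ≤ 17 * (C1 * N) → ‖F z‖ ≤ Real.exp (C2 * (N : ℝ) ^ 4) := by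
    intro z hz
    have hterm : ∀ lam : Finset (Fin m) → Fin N,
        ‖q lam * Complex.exp (((∑ U, ((lam U : ℕ) : ℝ) * mu a U : ℝ) : ℂ) * z)‖ ≤
        Real.exp (|C| * (N : ℝ) ^ 4) * Real.exp (17 * C1 ^ 2 * (N : ℝ) ^ 4) := by
      intro lam
      rw [norm_mul]
      have h1 : ‖q lam‖ ≤ Real.exp (|C| * (N : ℝ) ^ 4) := by
        refine (hq lam).trans ?_
        apply Real.exp_le_exp.mpr
        exact mul_le_mul_of_nonneg_right (le_abs_self C) (by positivity)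
      have h2 : ‖Complex.exp (((∑ U, ((lam U : ℕ) : ℝ) * mu a U : ℝ) : ℂ) * z)‖ ≤
          Real.exp (17 * C1 ^ 2 * (N : ℝ) ^ 4) := by
        refine (Complex.norm_exp_le_exp_norm _).trans ?_
        apply Real.exp_le_exp.2
        rw [norm_mul, Complex.norm_real, Real.norm_eq_abs]
        calc |∑ U, ((lam U : ℕ) : ℝ) * mu a U| * ‖z‖ ≤ (C1 * N) * (17 * (C1 * N)) :=
              mul_le_mul (hP1 lam) hz (norm_nonneg _) hCN0.le
          _ = 17 * C1 ^ 2 * N ^ 2 := by ring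
          _ ≤ 17 * C1 ^ 2 * N ^ 4 := by
              apply mul_le_mul_of_nonneg_left _ (by positivity)
              exact pow_le_pow_right₀ hNr (by norm_num)
      exact mul_le_mul h1 h2 (norm_nonneg _) (by positivity)
    calc ‖F z‖ ≤ ∑ lam : Finset (Fin m) → Fin N,
          ‖q lam * Complex.exp (((∑ U, ((lam U : ℕ) : ℝ) * mu a U : ℝ) : ℂ) * z)‖ := norm_sum_le _ _
      _ ≤ ∑ _lam : Finset (Fin m) → Fin N,
          Real.exp (|C| * (N : ℝ) ^ 4) * Real.exp (17 * C1 ^ 2 * (N : ℝ) ^ 4) :=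
          Finset.sum_le_sum fun lam _ => hterm lam
      _ = (N : ℝ) ^ D * (Real.exp (|C| * (N : ℝ) ^ 4) * Real.exp (17 * C1 ^ 2 * (N : ℝ) ^ 4)) := by
          rw [Finset.sum_const, Finset.card_univ, Fintype.card_fun, Fintype.card_finset, Fintype.card_fin,
            Fintype.card_fin, nsmul_eq_mul]
          push_cast
          rfl
      _ ≤ Real.exp (D * (N : ℝ) ^ 4) * (Real.exp (|C| * (N : ℝ) ^ 4) * Real.exp (17 * C1 ^ 2 * (N : ℝ) ^ 4)) := by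
          have h1 : (N : ℝ) ^ D ≤ Real.exp (D * (N : ℝ) ^ 4) := by
            have h2 : (N : ℝ) ≤ Real.exp ((N : ℝ) ^ 4) := by
              have h3 := Real.add_one_le_exp ((N : ℝ) ^ 4)
              have h4 : (N : ℝ) ≤ (N : ℝ) ^ 4 := le_self_pow₀ hNr (by norm_num)
              linarith
            calc (N : ℝ) ^ D ≤ Real.exp ((N : ℝ) ^ 4) ^ D := pow_le_pow_left₀ (by positivity) h2 _
              _ = Real.exp (D * (N : ℝ) ^ 4) := by rw [← Real.exp_nat_mul]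
          gcongr
      _ = Real.exp (C2 * (N : ℝ) ^ 4) := by
          rw [← Real.exp_add, ← Real.exp_add, hC2]
          congr 1
          ring
  have hGd : Differentiable ℂ (fun z => F z - Q.eval z) := hFd.sub Q.differentiable
  have hG0 : ∀ x ∈ Z, ‖x‖ ≤ C1 * N ∧ (fun z => F z - Q.eval z) x = 0 := by
    intro x hx
    refine ⟨hZb x hx, ?_⟩
    simp only
    rw [hQ1 x hx, sub_self]
  have hGb : ∀ z : ℂ, ‖z‖ ≤ 17 * (C1 * N) → ‖(fun z => F z - Q.eval z) z‖ ≤ Real.exp (C2 * (N : ℝ) ^ 4) + 1 := by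
    intro z hz
    have h1 := hbound z hz
    have h2 := hQb z hz
    have h3 : Real.exp (-(N : ℝ) ^ D) ≤ 1 := by
      rw [Real.exp_le_one_iff]
      have : (0 : ℝ) ≤ (N : ℝ) ^ D := by positivity
      linarith
    have h4 := norm_sub_le (F z) (Q.eval z)
    simp only
    linarith
  have hsw := hSwz (fun z => F z - Q.eval z) Z (C1 * N) (Real.exp (C2 * (N : ℝ) ^ 4) + 1) hGd hCN0 hG0 hGb
  set sf : Finset (Fin m) → Fin (2 * N) := fun V => ⟨s V, hs V⟩ with hsf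
  have hzs' : ‖((∑ V, (s V : ℝ) * mu a V : ℝ) : ℂ) * L‖ ≤ C1 * N := hP3 sf
  have h1 := hsw _ hzs'
  have h1' := hQb (((∑ V, (s V : ℝ) * mu a V : ℝ) : ℂ) * L) (by linarith)
  rw [← le_div_iff₀ (by positivity)] at h1
  have hT2 : c * (N : ℝ) ^ D ≤ (Z.card : ℝ) := by
    rw [hZcard, hc, ← mul_pow]
    push_cast
    apply pow_le_pow_left₀ (by positivity)
    have h2 : N ≤ 32 * S0 := by omega
    have h3 : (N : ℝ) ≤ 32 * S0 := by exact_mod_cast h2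
    linarith
  have hfin := final D N Z.card C2 c hC20 hc0 hc12 (by omega) (by omega) hNb hT2
  show ‖F (((∑ V, (s V : ℝ) * mu a V : ℝ) : ℂ) * L)‖ ≤ _
  have h5 : ‖F (((∑ V, (s V : ℝ) * mu a V : ℝ) : ℂ) * L)‖ ≤
      ‖F (((∑ V, (s V : ℝ) * mu a V : ℝ) : ℂ) * L) - Q.eval (((∑ V, (s V : ℝ) * mu a V : ℝ) : ℂ) * L)‖ +
      ‖Q.eval (((∑ V, (s V : ℝ) * mu a V : ℝ) : ℂ) * L)‖ := by
    have := norm_add_le (F (((∑ V, (s V : ℝ) * mu a V : ℝ) : ℂ) * L) - Q.eval (((∑ V, (s V : ℝ) * mu a V : ℝ) : ℂ) * L))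
      (Q.eval (((∑ V, (s V : ℝ) * mu a V : ℝ) : ℂ) * L))
    simpa using this
  linarith

end Pool.Agent.SMQ
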